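import Mathlib

set_option autoImplicit false

namespace Pool.Agent.H491R3

open Complex MeasureTheory Set

/-- shifting a vertical segment -/
theorem rect_bound {f : ℂ → ℂ} {a b y1 y2 R S : ℝ} (hab : a ≤ b) (hy : y1 ≤ y2)
    (hf : DifferentiableOn ℂ f (uIcc a b ×ℂ uIcc y1 y2))
    (hR : ∀ y ∈ Icc y1 y2, ‖f (b + y * I)‖ ≤ R)
    (hS1 : ∀ x ∈ Icc a b, ‖f (x + y1 * I)‖ ≤ S) (hS2 : ∀ x ∈ Icc a b, ‖f (x + y2 * I)‖ ≤ S) :
    ‖∫ y in y1..y2, f (a + y * I)‖ ≤ (y2 - y1) * R + 2 * ((b - a) * S) := by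
  have h := Complex.integral_boundary_rect_eq_zero_of_differentiableOn f (a + y1 * I) (b + y2 * I)
    (by simpa using hf)
  simp only [add_re, ofReal_re, mul_re, I_re, mul_zero, ofReal_im, I_im, mul_one, sub_self,
    add_zero, add_im, mul_im, zero_add, smul_eq_mul] at h
  have h1 : I * (∫ y in y1..y2, f (a + y * I)) =
      (∫ x in a..b, f (x + y1 * I)) - (∫ x in a..b, f (x + y2 * I)) +
      I * (∫ y in y1..y2, f (b + y * I)) := by
    linear_combination -h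
  have h2 : ‖∫ y in y1..y2, f (a + y * I)‖ = ‖I * (∫ y in y1..y2, f (a + y * I))‖ := by
    rw [norm_mul, norm_I, one_mul]
  have b1 : ‖∫ x in a..b, f (x + y1 * I)‖ ≤ S * |b - a| := by
    apply intervalIntegral.norm_integral_le_of_norm_le_const
    intro x hx
    rw [uIoc_of_le hab] at hx
    exact hS1 x ⟨hx.1.le, hx.2⟩
  have b2 : ‖∫ x in a..b, f (x + y2 * I)‖ ≤ S * |b - a| := by
    apply intervalIntegral.norm_integral_le_of_norm_le_const
    intro x hx
    rw [uIoc_of_le hab] at hx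
    exact hS2 x ⟨hx.1.le, hx.2⟩
  have b3 : ‖∫ y in y1..y2, f (b + y * I)‖ ≤ R * |y2 - y1| := by
    apply intervalIntegral.norm_integral_le_of_norm_le_const
    intro x hx
    rw [uIoc_of_le hy] at hx
    exact hR x ⟨hx.1.le, hx.2⟩
  rw [abs_of_nonneg (by linarith)] at b1 b2 b3
  rw [h2, h1]
  calc _ ≤ ‖(∫ x in a..b, f (x + y1 * I)) - (∫ x in a..b, f (x + y2 * I))‖ +
        ‖I * (∫ y in y1..y2, f (b + y * I))‖ := norm_add_le _ _
    _ ≤ (‖∫ x in a..b, f (x + y1 * I)‖ + ‖∫ x in a..b, f (x + y2 * I)‖) +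
        ‖∫ y in y1..y2, f (b + y * I)‖ := by
        rw [norm_mul, norm_I, one_mul]
        gcongr
        exact norm_sub_le _ _
    _ ≤ _ := by nlinarith

/-- the Gaussian kernel -/
noncomputable def KK (U T : ℝ) (z : ℂ) : ℂ := exp ((z - T * I) ^ 2 / (U : ℂ) ^ 2)

theorem KK_norm (U T x y : ℝ) (hU : 0 < U) :
    ‖KK U T (x + y * I)‖ = Real.exp ((x ^ 2 - (y - T) ^ 2) / U ^ 2) := by
  unfold KK
  rw [Complex.norm_exp]
  congr 1
  have : ((x : ℂ) + y * I - T * I) ^ 2 / (U : ℂ) ^ 2 =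
      (((x ^ 2 - (y - T) ^ 2) / U ^ 2 : ℝ) : ℂ) + ((2 * x * (y - T) / U ^ 2 : ℝ) : ℂ) * I := by
    push_cast
    have hU' : (U : ℂ) ≠ 0 := by exact_mod_cast hU.ne'
    field_simp
    ring_nf
    rw [I_sq]
    ring
  rw [this, add_re, ofReal_re, re_ofReal_mul, I_re, mul_zero, add_zero]

theorem gauss_full {U : ℝ} (hU : 0 < U) (x T : ℝ) (l : ℝ) :
    ∫ t : ℝ, KK U T (x + t * I) * exp ((x + t * I) * l) =
      (Real.sqrt Real.pi * U : ℝ) * exp (T * l * I) * (Real.exp (-(U ^ 2 * l ^ 2 / 4)) : ℝ) := by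
  have hU' : (U : ℂ) ≠ 0 := by exact_mod_cast hU.ne'
  have hb : (-(1 / (U : ℂ) ^ 2)).re < 0 := by
    have : (-(1 / (U : ℂ) ^ 2)) = ((-(1 / U ^ 2) : ℝ) : ℂ) := by push_cast; rfl
    rw [this, ofReal_re]
    have : 0 < 1 / U ^ 2 := by positivity
    linarith
  have h := integral_cexp_quadratic hb (2 * I * (x - T * I) / (U : ℂ) ^ 2 + I * l)
    ((x - T * I) ^ 2 / (U : ℂ) ^ 2 + x * l)
  have e1 : (fun t : ℝ => KK U T (x + t * I) * exp ((x + t * I) * l)) = fun t : ℝ =>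
      exp (-(1 / (U : ℂ) ^ 2) * (t : ℂ) ^ 2 + (2 * I * (x - T * I) / (U : ℂ) ^ 2 + I * l) * t +
        ((x - T * I) ^ 2 / (U : ℂ) ^ 2 + x * l)) := by
    funext t
    unfold KK
    rw [← exp_add]
    congr 1
    field_simp
    ring_nf
    rw [I_sq]
    ring
  rw [e1, h]
  have e2 : ((Real.pi : ℂ) / -(-(1 / (U : ℂ) ^ 2))) ^ (1 / 2 : ℂ) = (Real.sqrt Real.pi * U : ℝ) := by
    have : ((Real.pi : ℂ) / -(-(1 / (U : ℂ) ^ 2))) = ((Real.pi * U ^ 2 : ℝ) : ℂ) := by
      push_cast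
      field_simp
    rw [this]
    have h2 : (1 / 2 : ℂ) = ((1 / 2 : ℝ) : ℂ) := by push_cast; rfl
    rw [h2, ← ofReal_cpow (by positivity)]
    congr 1
    rw [← Real.sqrt_eq_rpow, Real.sqrt_mul Real.pi_pos.le, Real.sqrt_sq hU.le]
  rw [e2]
  refine Eq.trans ?_ (mul_assoc _ _ _).symm
  congr 1
  rw [ofReal_exp, ← exp_add]
  congr 1
  push_cast
  field_simp
  ring_nf
  have h3 : I ^ 3 = -I := by rw [pow_succ, I_sq]; ring
  have h4 : I ^ 4 = 1 := by rw [show (4 : ℕ) = 2 * 2 from rfl, pow_mul, I_sq]; norm_num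
  simp only [I_sq, h3, h4]
  ring

theorem gauss_integrable {U : ℝ} (hU : 0 < U) (x T : ℝ) (l : ℝ) :
    Integrable (fun t : ℝ => KK U T (x + t * I) * exp ((x + t * I) * l)) := by
  by_contra h
  have h1 := gauss_full hU x T l
  rw [integral_undef h] at h1
  have : ((Real.sqrt Real.pi * U : ℝ) : ℂ) ≠ 0 := by
    exact_mod_cast (mul_pos (Real.sqrt_pos.2 Real.pi_pos) hU).ne'
  have h2 : ((Real.exp (-(U ^ 2 * l ^ 2 / 4)) : ℝ) : ℂ) ≠ 0 := by
    exact_mod_cast (Real.exp_pos _).ne'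
  exact (mul_ne_zero (mul_ne_zero this (exp_ne_zero _)) h2) h1.symm

theorem gauss_real {U : ℝ} (hU : 0 < U) (T : ℝ) :
    Integrable (fun t : ℝ => Real.exp (-((t - T) ^ 2 / (2 * U ^ 2)))) ∧
    ∫ t : ℝ, Real.exp (-((t - T) ^ 2 / (2 * U ^ 2))) = Real.sqrt (2 * Real.pi) * U := by
  have hb : 0 < 1 / (2 * U ^ 2) := by positivity
  have e : (fun t : ℝ => Real.exp (-((t - T) ^ 2 / (2 * U ^ 2)))) =
      fun t : ℝ => (fun u : ℝ => Real.exp (-(1 / (2 * U ^ 2)) * u ^ 2)) (t - T) := by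
    funext t
    simp only
    congr 1
    ring
  constructor
  · rw [e]
    exact (integrable_exp_neg_mul_sq hb).comp_sub_right T
  · rw [e, integral_sub_right_eq_self (fun u : ℝ => Real.exp (-(1 / (2 * U ^ 2)) * u ^ 2)) T,
      integral_gaussian]
    have : Real.pi / (1 / (2 * U ^ 2)) = (2 * Real.pi) * U ^ 2 := by field_simp
    rw [this, Real.sqrt_mul (by positivity), Real.sqrt_sq hU.le]

theorem gauss_seg {U V : ℝ} (hU : 0 < U) (hV : 0 ≤ V) (x T : ℝ) (l : ℝ) :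
    ‖(∫ t in (T - V)..(T + V), KK U T (x + t * I) * exp ((x + t * I) * l)) -
      (Real.sqrt Real.pi * U : ℝ) * exp (T * l * I) * (Real.exp (-(U ^ 2 * l ^ 2 / 4)) : ℝ)‖ ≤
      Real.exp (x ^ 2 / U ^ 2 + x * l) * Real.exp (-(V ^ 2 / (2 * U ^ 2))) *
        (Real.sqrt (2 * Real.pi) * U) := by
  rw [← gauss_full hU x T l]
  have hi := gauss_integrable hU x T l
  have hsplit := integral_add_compl (s := Ioc (T - V) (T + V)) measurableSet_Ioc hi
  rw [intervalIntegral.integral_of_le (by linarith), ← hsplit, sub_add_cancel_left, norm_neg]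
  obtain ⟨g1, g2⟩ := gauss_real hU T
  set c := Real.exp (x ^ 2 / U ^ 2 + x * l) * Real.exp (-(V ^ 2 / (2 * U ^ 2))) with hc
  have hc0 : 0 < c := by positivity
  calc _ ≤ ∫ t in (Ioc (T - V) (T + V))ᶜ, c * Real.exp (-((t - T) ^ 2 / (2 * U ^ 2))) := by
        apply norm_integral_le_of_norm_le (g1.const_mul c).integrableOn
        rw [ae_restrict_iff' measurableSet_Ioc.compl]
        refine Filter.Eventually.of_forall fun t ht => ?_
        rw [norm_mul, KK_norm U T x t hU, Complex.norm_exp, hc]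
        have e1 : (((x : ℂ) + t * I) * l).re = x * l := by simp
        rw [e1, ← Real.exp_add, ← Real.exp_add, ← Real.exp_add]
        apply Real.exp_le_exp.2
        have h2 : V ^ 2 ≤ (t - T) ^ 2 := by
          rw [mem_compl_iff, mem_Ioc, not_and_or, not_lt, not_le] at ht
          rcases ht with ht | ht
          · have : V ≤ T - t := by linarith
            nlinarith
          · have : V ≤ t - T := by linarith
            nlinarith
        have h3 : V ^ 2 / (2 * U ^ 2) ≤ (t - T) ^ 2 / (2 * U ^ 2) := by gcongr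
        have h4 : (x ^ 2 - (t - T) ^ 2) / U ^ 2 =
            x ^ 2 / U ^ 2 - ((t - T) ^ 2 / (2 * U ^ 2) + (t - T) ^ 2 / (2 * U ^ 2)) := by
          field_simp
          ring
        rw [h4]
        linarith
    _ ≤ ∫ t : ℝ, c * Real.exp (-((t - T) ^ 2 / (2 * U ^ 2))) := by
        apply setIntegral_le_integral (g1.const_mul c)
        exact Filter.Eventually.of_forall fun t => by positivity
    _ = _ := by rw [integral_const_mul, g2]

end Pool.Agent.H491R3
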