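import Pool.Agent.H491R3.FE
import Pool.Agent.H491R3.Gauss

set_option autoImplicit false

namespace Pool.Agent.H491R3

open Complex MeasureTheory Set

/-- the limit of `ee d s` as `Im s → ∞` -/
noncomputable def sg (d : OddSqf) : ℂ := if 0 < d.1 then 1 else I

theorem sg_norm (d : OddSqf) : ‖sg d‖ = 1 := by
  unfold sg; split_ifs <;> simp

theorem ee_eq (d : OddSqf) : ∃ e : ℂ, ‖e‖ = 1 ∧ ∀ s, ee d s = sg d + e * exp (Real.pi * I * s) := by
  unfold ee sg
  split_ifs with h
  · exact ⟨1, by simp, fun s => by ring⟩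
  · exact ⟨-I, by simp, fun s => by ring⟩

theorem exp_pi_norm (x y : ℝ) : ‖exp (Real.pi * I * (1 / 2 + (x + y * I)))‖ =
    Real.exp (-(Real.pi * y)) := by
  rw [Complex.norm_exp]
  congr 1
  have : (Real.pi : ℂ) * I * (1 / 2 + (x + y * I)) =
      ((-(Real.pi * y) : ℝ) : ℂ) + ((Real.pi * (1 / 2 + x) : ℝ) : ℂ) * I := by
    push_cast
    ring_nf
    rw [I_sq]
    ring
  rw [this, add_re, ofReal_re, re_ofReal_mul, I_re, mul_zero, add_zero]

theorem ee_norm_le (d : OddSqf) {x y : ℝ} (hy : 0 ≤ y) : ‖ee d (1 / 2 + (x + y * I))‖ ≤ 2 := by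
  obtain ⟨e, he, h⟩ := ee_eq d
  rw [h]
  calc _ ≤ ‖sg d‖ + ‖e * exp (Real.pi * I * (1 / 2 + (x + y * I)))‖ := norm_add_le _ _
    _ ≤ 1 + 1 := by
      rw [sg_norm, norm_mul, he, one_mul, exp_pi_norm]
      gcongr
      rw [Real.exp_le_one_iff]
      have := Real.pi_pos
      nlinarith [mul_nonneg this.le hy]
    _ = 2 := by norm_num

theorem exp_l_norm (x y l : ℝ) : ‖exp ((x + y * I) * l)‖ = Real.exp (x * l) := by
  rw [Complex.norm_exp]
  simp

theorem exp_l_le {x b l : ℝ} (hx : 0 ≤ x) (hb : x ≤ b) (hl : l ≤ Real.log (3 / 2)) :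
    Real.exp (x * l) ≤ (3 / 2 : ℝ) ^ b := by
  rw [Real.rpow_def_of_pos (by norm_num)]
  apply Real.exp_le_exp.2
  have h0 : 0 < Real.log (3 / 2) := Real.log_pos (by norm_num)
  nlinarith

theorem KK_diff (U T : ℝ) : Differentiable ℂ (KK U T) := by
  unfold KK
  fun_prop

theorem ee_diff (d : OddSqf) : Differentiable ℂ (fun z : ℂ => ee d (1 / 2 + z)) := by
  obtain ⟨e, -, h⟩ := ee_eq d
  have : (fun z : ℂ => ee d (1 / 2 + z)) =
      fun z => sg d + e * exp (Real.pi * I * (1 / 2 + z)) := by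
    funext z; rw [h]
  rw [this]
  fun_prop

theorem beta_ext (d : OddSqf) {U V T b C M l : ℝ} (hU : 0 < U) (hV : 0 ≤ V) (hTV : V ≤ T)
    (hb : 1 / 5 ≤ b) (hl : l ≤ Real.log (3 / 2)) {F : ℂ → ℂ}
    (hF : DifferentiableOn ℂ F {z | 0 < z.re})
    (hM : ∀ x ∈ Icc (1 / 5 : ℝ) b, ∀ y ∈ Icc (T - V) (T + V), ‖F (x + y * I) - 1‖ ≤ M)
    (hC : ∀ y ∈ Icc (T - V) (T + V), ‖F (b + y * I) - 1‖ ≤ C) :
    ‖(∫ t in (T - V)..(T + V), KK U T ((1 / 5 : ℝ) + t * I) *
        ee d (1 / 2 + ((1 / 5 : ℝ) + t * I)) * exp (((1 / 5 : ℝ) + t * I) * l) *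
        F ((1 / 5 : ℝ) + t * I)) -
      sg d * ((Real.sqrt Real.pi * U : ℝ) * exp (T * l * I) *
        (Real.exp (-(U ^ 2 * l ^ 2 / 4)) : ℝ))‖ ≤
      2 * V * (Real.exp (b ^ 2 / U ^ 2) * 2 * (3 / 2) ^ b * C) +
      2 * ((b - 1 / 5) * (Real.exp ((b ^ 2 - V ^ 2) / U ^ 2) * 2 * (3 / 2) ^ b * M)) +
      2 * V * (Real.exp ((1 / 5) ^ 2 / U ^ 2) * Real.exp (-(Real.pi * (T - V))) *
        (3 / 2) ^ (1 / 5 : ℝ)) +
      Real.exp ((1 / 5) ^ 2 / U ^ 2) * (3 / 2) ^ (1 / 5 : ℝ) * Real.exp (-(V ^ 2 / (2 * U ^ 2))) *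
        (Real.sqrt (2 * Real.pi) * U) := by
  set a : ℝ := 1 / 5 with ha
  have ha0 : 0 < a := by rw [ha]; norm_num
  obtain ⟨e, he, hee⟩ := ee_eq d
  have hpath : Continuous (fun t : ℝ => ((a : ℂ) + t * I)) := by fun_prop
  have hcF : Continuous (fun t : ℝ => F (a + t * I)) := by
    have h1 : ContinuousOn F {z | 0 < z.re} := hF.continuousOn
    exact h1.comp_continuous hpath (fun t => by simp [ha])
  have hcK : Continuous (fun t : ℝ => KK U T (a + t * I)) := (KK_diff U T).continuous.comp hpath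
  have hcE : Continuous (fun t : ℝ => ee d (1 / 2 + (a + t * I))) :=
    (ee_diff d).continuous.comp hpath
  have hcl : Continuous (fun t : ℝ => exp ((a + t * I) * l)) := by fun_prop
  have hcp : Continuous (fun t : ℝ => exp (Real.pi * I * (1 / 2 + (a + t * I)))) := by fun_prop
  -- the three parts
  set f1 : ℂ → ℂ := fun z => KK U T z * ee d (1 / 2 + z) * exp (z * l) * (F z - 1) with hf1
  set g2 : ℝ → ℂ := fun t => e * (KK U T (a + t * I) *
    exp (Real.pi * I * (1 / 2 + (a + t * I))) * exp ((a + t * I) * l)) with hg2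
  set g3 : ℝ → ℂ := fun t => sg d * (KK U T (a + t * I) * exp ((a + t * I) * l)) with hg3
  have hi1 : IntervalIntegrable (fun t : ℝ => f1 (a + t * I)) volume (T - V) (T + V) := by
    apply Continuous.intervalIntegrable
    simp only [hf1]
    exact ((hcK.mul hcE).mul hcl).mul (hcF.sub continuous_const)
  have hi2 : IntervalIntegrable g2 volume (T - V) (T + V) := by
    apply Continuous.intervalIntegrable
    simp only [hg2]
    exact continuous_const.mul ((hcK.mul hcp).mul hcl)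
  have hi3 : IntervalIntegrable g3 volume (T - V) (T + V) := by
    apply Continuous.intervalIntegrable
    simp only [hg3]
    exact continuous_const.mul (hcK.mul hcl)
  have hsplit : (∫ t in (T - V)..(T + V), KK U T (a + t * I) *
        ee d (1 / 2 + (a + t * I)) * exp ((a + t * I) * l) * F (a + t * I)) =
      (∫ t in (T - V)..(T + V), f1 (a + t * I)) + (∫ t in (T - V)..(T + V), g2 t) +
      (∫ t in (T - V)..(T + V), g3 t) := by
    rw [← intervalIntegral.integral_add hi1 hi2, ← intervalIntegral.integral_add (hi1.add hi2) hi3]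
    apply intervalIntegral.integral_congr
    intro t _
    simp only [hf1, hg2, hg3, hee]
    ring
  rw [hsplit]
  -- bounds
  have hTV' : 0 ≤ T - V := by linarith
  have b1 : ‖∫ t in (T - V)..(T + V), f1 (a + t * I)‖ ≤
      ((T + V) - (T - V)) * (Real.exp (b ^ 2 / U ^ 2) * 2 * (3 / 2) ^ b * C) +
      2 * ((b - a) * (Real.exp ((b ^ 2 - V ^ 2) / U ^ 2) * 2 * (3 / 2) ^ b * M)) := by
    have hstrip : (uIcc a b ×ℂ uIcc (T - V) (T + V)) ⊆ {z : ℂ | 0 < z.re} := by
      intro z hz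
      rw [mem_reProdIm] at hz
      have := hz.1
      rw [uIcc_of_le hb] at this
      have h2 := this.1
      show 0 < z.re
      rw [ha] at h2
      linarith
    apply rect_bound hb (by linarith)
    · have h1 : DifferentiableOn ℂ (fun z => KK U T z * ee d (1 / 2 + z) * exp (z * l))
          (uIcc a b ×ℂ uIcc (T - V) (T + V)) := by
        have : Differentiable ℂ (fun z => KK U T z * ee d (1 / 2 + z) * exp (z * l)) :=
          ((KK_diff U T).mul (ee_diff d)).mul (by fun_prop)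
        exact this.differentiableOn
      exact h1.mul ((hF.mono hstrip).sub (differentiableOn_const 1))
    · intro y hy
      simp only [hf1]
      rw [norm_mul, norm_mul, norm_mul, KK_norm U T b y hU, exp_l_norm]
      have hy0 : 0 ≤ y := by linarith [hy.1]
      have h1 : Real.exp ((b ^ 2 - (y - T) ^ 2) / U ^ 2) ≤ Real.exp (b ^ 2 / U ^ 2) := by
        apply Real.exp_le_exp.2
        gcongr
        nlinarith [sq_nonneg (y - T)]
      have h2 := exp_l_le (x := b) (b := b) (ha0.le.trans hb) le_rfl hl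
      have h3 := hC y hy
      have h4 := ee_norm_le d (x := b) hy0
      gcongr
    · intro x hx
      simp only [hf1]
      rw [norm_mul, norm_mul, norm_mul, KK_norm U T x _ hU, exp_l_norm]
      have h1 : Real.exp ((x ^ 2 - ((T - V) - T) ^ 2) / U ^ 2) ≤
          Real.exp ((b ^ 2 - V ^ 2) / U ^ 2) := by
        apply Real.exp_le_exp.2
        apply div_le_div_of_nonneg_right _ (by positivity)
        have : x ^ 2 ≤ b ^ 2 := pow_le_pow_left₀ (ha0.le.trans hx.1) hx.2 2
        nlinarith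
      have hx0 : 0 ≤ x := ha0.le.trans hx.1
      have h2 := exp_l_le hx0 hx.2 hl
      have h3 := hM x hx (T - V) ⟨le_rfl, by linarith⟩
      have h4 := ee_norm_le d (x := x) hTV'
      gcongr
    · intro x hx
      simp only [hf1]
      rw [norm_mul, norm_mul, norm_mul, KK_norm U T x _ hU, exp_l_norm]
      have h1 : Real.exp ((x ^ 2 - ((T + V) - T) ^ 2) / U ^ 2) ≤
          Real.exp ((b ^ 2 - V ^ 2) / U ^ 2) := by
        apply Real.exp_le_exp.2
        apply div_le_div_of_nonneg_right _ (by positivity)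
        have : x ^ 2 ≤ b ^ 2 := pow_le_pow_left₀ (ha0.le.trans hx.1) hx.2 2
        nlinarith
      have hx0 : 0 ≤ x := ha0.le.trans hx.1
      have h2 := exp_l_le hx0 hx.2 hl
      have h3 := hM x hx (T + V) ⟨by linarith, le_rfl⟩
      have h4 := ee_norm_le d (x := x) (y := T + V) (by linarith)
      gcongr
  have hal := exp_l_le (x := a) (b := a) (l := l) (by rw [ha]; norm_num) le_rfl hl
  have b2 : ‖∫ t in (T - V)..(T + V), g2 t‖ ≤ (Real.exp (a ^ 2 / U ^ 2) *
      Real.exp (-(Real.pi * (T - V))) * (3 / 2) ^ a) * |(T + V) - (T - V)| := by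
    apply intervalIntegral.norm_integral_le_of_norm_le_const
    intro t ht
    rw [uIoc_of_le (by linarith)] at ht
    simp only [hg2]
    rw [norm_mul, he, one_mul, norm_mul, norm_mul, KK_norm U T a t hU, exp_l_norm, exp_pi_norm]
    have h1 : Real.exp ((a ^ 2 - (t - T) ^ 2) / U ^ 2) ≤ Real.exp (a ^ 2 / U ^ 2) := by
      apply Real.exp_le_exp.2
      gcongr
      nlinarith [sq_nonneg (t - T)]
    have h2 : Real.exp (-(Real.pi * t)) ≤ Real.exp (-(Real.pi * (T - V))) := by
      apply Real.exp_le_exp.2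
      have := Real.pi_pos
      nlinarith [ht.1]
    gcongr
  have b3 : ‖(∫ t in (T - V)..(T + V), g3 t) -
      sg d * ((Real.sqrt Real.pi * U : ℝ) * exp (T * l * I) *
        (Real.exp (-(U ^ 2 * l ^ 2 / 4)) : ℝ))‖ ≤
      Real.exp (a ^ 2 / U ^ 2) * (3 / 2) ^ a * Real.exp (-(V ^ 2 / (2 * U ^ 2))) *
        (Real.sqrt (2 * Real.pi) * U) := by
    simp only [hg3]
    rw [intervalIntegral.integral_const_mul, ← mul_sub, norm_mul, sg_norm, one_mul]
    refine (gauss_seg hU hV a T l).trans ?_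
    rw [Real.exp_add]
    gcongr
  have habs : |(T + V) - (T - V)| = 2 * V := by
    rw [abs_of_nonneg (by linarith)]; ring
  rw [habs] at b2
  calc _ = ‖(∫ t in (T - V)..(T + V), f1 (a + t * I)) + (∫ t in (T - V)..(T + V), g2 t) +
        ((∫ t in (T - V)..(T + V), g3 t) - sg d * ((Real.sqrt Real.pi * U : ℝ) *
          exp (T * l * I) * (Real.exp (-(U ^ 2 * l ^ 2 / 4)) : ℝ)))‖ := by
        congr 1; ring
    _ ≤ ‖∫ t in (T - V)..(T + V), f1 (a + t * I)‖ + ‖∫ t in (T - V)..(T + V), g2 t‖ +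
        ‖(∫ t in (T - V)..(T + V), g3 t) - sg d * ((Real.sqrt Real.pi * U : ℝ) *
          exp (T * l * I) * (Real.exp (-(U ^ 2 * l ^ 2 / 4)) : ℝ))‖ := norm_add₃_le
    _ ≤ _ := by
      have e1 : (T + V) - (T - V) = 2 * V := by ring
      rw [e1] at b1
      linarith

end Pool.Agent.H491R3
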