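import Pool.Agent.H491R3.Defs

set_option autoImplicit false

namespace Pool.Agent.H491R3

open Complex

theorem chi8_natCast (d : OddSqf) (n : ℕ) :
    chi8 d (n : ZMod (8 * d.1.natAbs)) = (kron8 d.1 n : ℂ) := by
  change ((kron8 d.1 ((n : ZMod (8 * d.1.natAbs)).val) : ℤ) : ℂ) = _
  rw [ZMod.val_natCast, kron8_mod]

theorem kron8_odd {d : ℤ} {n : ℕ} (hn : Odd n) : kron8 d n = jacobiSym (2 * d) n := by
  unfold kron8
  rw [if_neg (Nat.not_even_iff_odd.2 hn), jacobi_eight d hn]

theorem kron8_odd_mul {d : ℤ} {n : ℕ} (hn : Odd n) :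
    kron8 d n = jacobiSym 2 n * jacobiSym d n := by
  rw [kron8_odd hn, jacobiSym.mul_left]

theorem jacobi_one_of_mod {a : ℤ} {n : ℕ} (hn : Odd n) (ha : a ≠ 0)
    (h : n % (4 * a.natAbs) = 1) : jacobiSym a n = 1 := by
  rw [jacobiSym.mod_right a hn, h, jacobiSym.one_right]

/-- for each prime `p ∣ 8|d|` there is `n ≡ 1` modulo `8|d|/p` with `χ(n) = -1` -/
theorem exists_neg_one (d : OddSqf) {p : ℕ} (hp : p.Prime) (hpd : p ∣ 8 * d.1.natAbs) :
    ∃ n : ℕ, n % (8 * d.1.natAbs / p) = 1 % (8 * d.1.natAbs / p) ∧ kron8 d.1 n = -1 := by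
  have hd0 : 0 < d.1.natAbs := Int.natAbs_pos.2 d.ne_zero
  have hdodd : Odd d.1.natAbs := Int.natAbs_odd.2 d.2.1
  rcases hp.eq_two_or_odd' with h2 | hodd
  · subst h2
    refine ⟨1 + 4 * d.1.natAbs, ?_, ?_⟩
    · have : 8 * d.1.natAbs / 2 = 4 * d.1.natAbs := by omega
      rw [this, Nat.add_mod_right]
    · have hn : Odd (1 + 4 * d.1.natAbs) := by
        rw [Nat.odd_iff]; omega
      rw [kron8_odd_mul hn]
      have h1 : jacobiSym d.1 (1 + 4 * d.1.natAbs) = 1 := by
        apply jacobi_one_of_mod hn d.ne_zero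
        rw [Nat.add_mod_right, Nat.mod_eq_of_lt]
        omega
      have h3 : jacobiSym 2 (1 + 4 * d.1.natAbs) = -1 := by
        rw [jacobiSym.at_two hn, ZMod.χ₈_nat_eq_if_mod_eight]
        have : (1 + 4 * d.1.natAbs) % 8 = 5 := by
          have := Nat.odd_iff.1 hdodd
          omega
        rw [this]
        have : (1 + 4 * d.1.natAbs) % 2 = 1 := by omega
        rw [this]
        norm_num
      rw [h1, h3]
      norm_num
  · have hp2 : p ≠ 2 := by
      intro h; rw [h] at hodd; exact absurd hodd (by decide)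
    have hpd' : p ∣ d.1.natAbs := by
      rcases (Nat.Prime.dvd_mul hp).1 hpd with h | h
      · exfalso
        have : p ∣ 2 ^ 3 := by norm_num; exact h
        exact hp2 ((Nat.prime_dvd_prime_iff_eq hp Nat.prime_two).1 (hp.dvd_of_dvd_pow this))
      · exact h
    obtain ⟨m, hm⟩ := hpd'
    have hm0 : 0 < m := Nat.pos_of_ne_zero (by rintro rfl; omega)
    have hsq : Squarefree (p * m) := by
      rw [← hm]; exact Int.squarefree_natAbs.2 d.2.2
    have hcop : Nat.Coprime p m := Nat.coprime_of_squarefree_mul hsq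
    have hcop8 : Nat.Coprime (8 * m) p := by
      apply Nat.Coprime.mul_left
      · have : Nat.Coprime (2 ^ 3) p := Nat.Coprime.pow_left 3 (Nat.coprime_two_left.2 hodd)
        norm_num at this
        exact this
      · exact hcop.symm
    -- a nonresidue modulo `p`
    have hfact : Fact p.Prime := ⟨hp⟩
    obtain ⟨g, hg⟩ : ∃ g : ℕ, jacobiSym (g : ℤ) p = -1 := by
      have hchar : ringChar (ZMod p) ≠ 2 := by
        rw [ZMod.ringChar_zmod_n]; exact hp2
      obtain ⟨a, ha⟩ := quadraticChar_exists_neg_one hchar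
      refine ⟨a.val, ?_⟩
      rw [← jacobiSym.legendreSym.to_jacobiSym, legendreSym]
      simpa using ha
    obtain ⟨n, hn1, hn2⟩ := Nat.chineseRemainder hcop8 1 g
    refine ⟨n, ?_, ?_⟩
    · have : 8 * d.1.natAbs / p = 8 * m := by
        rw [hm]
        rw [show 8 * (p * m) = (8 * m) * p by ring, Nat.mul_div_cancel _ hp.pos]
      rw [this]
      exact hn1
    · have hn8 : n % 8 = 1 := by
        have h : n ≡ 1 [MOD 8] := hn1.of_dvd ⟨m, rfl⟩
        have := h
        unfold Nat.ModEq at this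
        omega
      have hno : Odd n := by rw [Nat.odd_iff]; omega
      rw [kron8_odd hno]
      obtain ⟨u, hu1, hu2⟩ : ∃ u : ℤ, 2 * d.1 = u * p ∧ u.natAbs = 2 * m := by
        rcases Int.natAbs_eq d.1 with h | h
        · refine ⟨2 * m, ?_, ?_⟩
          · rw [h, hm]; push_cast; ring
          · rw [Int.natAbs_mul]; norm_num
        · refine ⟨-(2 * m), ?_, ?_⟩
          · rw [h, hm]; push_cast; ring
          · rw [Int.natAbs_neg, Int.natAbs_mul]; norm_num
      rw [hu1, jacobiSym.mul_left]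
      have h1 : jacobiSym u n = 1 := by
        apply jacobi_one_of_mod hno (by rintro rfl; simp at hu2; omega)
        rw [hu2, show 4 * (2 * m) = 8 * m by ring]
        have : n % (8 * m) = 1 % (8 * m) := hn1
        rw [this, Nat.mod_eq_of_lt]
        omega
      have h2 : jacobiSym (p : ℤ) n = -1 := by
        have h3 := jacobiSym.quadratic_reciprocity_one_mod_four' (a := p) (b := n) hodd (by omega)
        rw [h3, jacobiSym.mod_left]
        have h4 : ((n : ℤ) % p) = ((g : ℤ) % p) := by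
          have : n % p = g % p := hn2
          exact_mod_cast this
        rw [h4, ← jacobiSym.mod_left, hg]
      rw [h1, h2]
      norm_num

theorem chi8_primitive (d : OddSqf) : (chi8 d).IsPrimitive := by
  unfold DirichletCharacter.IsPrimitive
  by_contra hne
  set N := 8 * d.1.natAbs with hN
  have hN0 : 0 < N := NeZero.pos N
  have hcd : (chi8 d).conductor ∣ N := DirichletCharacter.conductor_dvd_level _
  obtain ⟨k, hk⟩ := hcd
  have hk1 : k ≠ 1 := by
    rintro rfl
    apply hne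
    rw [mul_one] at hk
    exact hk.symm
  obtain ⟨p, hp, hpk⟩ := Nat.exists_prime_and_dvd hk1
  have hpN : p ∣ N := hk ▸ (hpk.mul_left _)
  obtain ⟨n, hn1, hn2⟩ := exists_neg_one d hp hpN
  have hcd2 : (chi8 d).conductor ∣ N / p := by
    obtain ⟨j, hj⟩ := hpk
    refine ⟨j, ?_⟩
    rw [Nat.div_eq_of_eq_mul_left hp.pos]
    rw [hk, hj]; ring
  have hfac := (chi8 d).factorsThrough_conductor
  obtain ⟨hdvd, χ₀, hχ₀⟩ := hfac
  have hunit : IsUnit (n : ZMod N) := by
    by_contra hu
    have h1 := (chi8 d).map_nonunit hu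
    rw [chi8_natCast, hn2] at h1
    norm_num at h1
  have h1 : chi8 d (n : ZMod N) = χ₀ ((n : ZMod N).cast : ZMod (chi8 d).conductor) := by
    obtain ⟨u, hu⟩ := hunit
    rw [← hu]
    conv_lhs => rw [hχ₀]
    exact DirichletCharacter.changeLevel_eq_cast_of_dvd χ₀ hdvd u
  have h2 : ((n : ZMod N).cast : ZMod (chi8 d).conductor) = 1 := by
    rw [ZMod.cast_natCast hdvd]
    have h3 : n ≡ 1 [MOD (chi8 d).conductor] := Nat.ModEq.of_dvd hcd2 hn1
    have := (ZMod.natCast_eq_natCast_iff n 1 (chi8 d).conductor).2 h3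
    rw [this]; simp
  rw [h2, map_one, chi8_natCast, hn2] at h1
  norm_num at h1

theorem chi8_ne_one (d : OddSqf) : chi8 d ≠ 1 := by
  intro h
  have h1 := chi8_primitive d
  unfold DirichletCharacter.IsPrimitive at h1
  rw [h, DirichletCharacter.conductor_one] at h1
  have := Int.natAbs_pos.2 d.ne_zero
  omega

theorem kron8_sq {d : ℤ} {n : ℕ} (h : kron8 d n ≠ 0) : kron8 d n * kron8 d n = 1 := by
  unfold kron8 at h ⊢
  by_cases hn : Even n
  · rw [if_pos hn] at h; exact absurd rfl h
  rw [if_neg hn] at h ⊢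
  rcases jacobiSym.trichotomy (8 * d) n with h1 | h1 | h1
  · exact absurd h1 h
  · rw [h1]; norm_num
  · rw [h1]; norm_num

theorem chi8_inv (d : OddSqf) : (chi8 d)⁻¹ = chi8 d := by
  rw [inv_eq_iff_mul_eq_one]
  ext a
  rw [MulChar.mul_apply, MulChar.one_apply_coe]
  have h : ((a : ZMod (8 * d.1.natAbs)).val : ZMod (8 * d.1.natAbs)) = a := ZMod.natCast_zmod_val _
  rw [← h, chi8_natCast]
  have hne : kron8 d.1 (a : ZMod (8 * d.1.natAbs)).val ≠ 0 := by
    intro h0
    have h1 := chi8_natCast d (a : ZMod (8 * d.1.natAbs)).val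
    rw [h, h0] at h1
    have h2 : IsUnit (chi8 d (a : ZMod (8 * d.1.natAbs))) := by
      exact a.isUnit.map (chi8 d)
    rw [h1] at h2
    simp at h2
  exact_mod_cast kron8_sq hne

end Pool.Agent.H491R3
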