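import Pool.Agent.H491R3.Main

set_option autoImplicit false

namespace Pool.Agent.H491R3

open Finset Complex

theorem not_uniform (hG : GRH) {w : ℝ → ℝ} (hw : Wt w) {c₀ C₀ : ℝ} (hC₀ : 0 < C₀) :
    ¬ UniformRatios w (1 / 100) c₀ C₀ := by
  intro h
  obtain ⟨K, hK, r₁, hup⟩ := mm_upper hG hw rfl hC₀ h
  obtain ⟨r₂, hW⟩ := W1_lower hw
  have ev := ((ev_small 14200 (1 / 1000) (by norm_num)).and
    ((tendsto_natCast_atTop_atTop (R := ℝ)).eventually_ge_atTop (24000 * K))).and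
    (Filter.eventually_ge_atTop (max (max r₁ r₂) 20000))
  obtain ⟨r, ⟨hsm, hKr⟩, hr⟩ := ev.exists
  have hr1' : r₁ ≤ r := (le_max_left _ _).trans ((le_max_left _ _).trans hr)
  have hr2' : r₂ ≤ r := (le_max_right _ _).trans ((le_max_left _ _).trans hr)
  have hr20 : 20000 ≤ r := (le_max_right _ _).trans hr
  obtain ⟨hW1, hW2, hr1000⟩ := hW r hr2'
  have hrR : (20000 : ℝ) ≤ r := by exact_mod_cast hr20
  have hr0 : (0 : ℝ) < r := by linarith
  have hr1 : (1 : ℝ) ≤ r := by linarith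
  have hP := PQ_card_lower r hr20
  have hlow := lower_main hw (by omega : 3 ≤ r) hW1 hW2
  set P : ℝ := (#(PQ r) : ℝ) with hPdef
  have hP0 : 0 < P := lt_of_lt_of_le (by positivity) hP
  -- the upper bound
  have hupper : ‖∑ p ∈ PQ r, mm w r p‖ ≤ P * (2 / 1000) := by
    refine (norm_sum_le _ _).trans ?_
    have h1 : ∀ p ∈ PQ r, ‖mm w r p‖ ≤ 2 / 1000 := by
      intro p hp
      refine (hup r hr1' p hp).trans ?_
      have h2 : 24 * K * ((r : ℝ) ^ 5)⁻¹ ≤ 1 / 1000 := by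
        rw [← div_eq_mul_inv, div_le_iff₀ (by positivity)]
        have h3 : (r : ℝ) ≤ (r : ℝ) ^ 5 := by
          calc (r : ℝ) = (r : ℝ) ^ 1 := (pow_one _).symm
            _ ≤ (r : ℝ) ^ 5 := pow_le_pow_right₀ hr1 (by norm_num)
        linarith
      linarith
    refine (sum_le_sum h1).trans ?_
    rw [sum_const, nsmul_eq_mul]
  -- the error terms of the lower bound
  have hE0 : 0 < Real.exp (-((r : ℝ) / 4)) := Real.exp_pos _
  have b1 : 13600 * (r : ℝ) ^ 4 * Real.sqrt P ≤ P / 100 := by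
    have h1 : (r : ℝ) ^ 9 ≤ Real.sqrt P := by
      apply Real.le_sqrt_of_sq_le
      calc ((r : ℝ) ^ 9) ^ 2 = (r : ℝ) ^ 18 := by ring
        _ ≤ (r : ℝ) ^ 19 := pow_le_pow_right₀ hr1 (by norm_num)
        _ ≤ P := hP
    have h2 : Real.sqrt P * Real.sqrt P = P := Real.mul_self_sqrt hP0.le
    have h3 : 1360000 * (r : ℝ) ^ 4 ≤ (r : ℝ) ^ 9 := by
      have h4 : (1360000 : ℝ) ≤ (r : ℝ) ^ 5 := by
        calc (1360000 : ℝ) ≤ 20000 ^ 5 := by norm_num
          _ ≤ (r : ℝ) ^ 5 := pow_le_pow_left₀ (by norm_num) hrR 5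
      calc 1360000 * (r : ℝ) ^ 4 ≤ (r : ℝ) ^ 5 * (r : ℝ) ^ 4 := by gcongr
        _ = (r : ℝ) ^ 9 := by ring
    have h5 : 0 ≤ Real.sqrt P := Real.sqrt_nonneg _
    nlinarith [mul_le_mul_of_nonneg_right (h3.trans h1) h5]
  have b2 : 400 * (r : ℝ) ^ 100 * P * kg ((r : ℝ) ^ 4) ((r : ℝ) ^ 10) ≤ P / 100 := by
    have h1 : kg ((r : ℝ) ^ 4) ((r : ℝ) ^ 10) ≤ Real.exp (-((r : ℝ) / 4)) := by
      unfold kg
      apply Real.exp_le_exp.2
      have h2 : ((r : ℝ) ^ 10) ^ 2 / (16 * ((r : ℝ) ^ 4) ^ 2) = (r : ℝ) ^ 12 / 16 := by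
        field_simp
      rw [h2]
      have h3 : 4 * (r : ℝ) ≤ (r : ℝ) ^ 12 := by
        calc 4 * (r : ℝ) ≤ r * r := by nlinarith
          _ = (r : ℝ) ^ 2 := by ring
          _ ≤ (r : ℝ) ^ 12 := pow_le_pow_right₀ hr1 (by norm_num)
      linarith
    have h4 : 400 * (r : ℝ) ^ 100 ≤ (r : ℝ) ^ 14200 := by
      calc 400 * (r : ℝ) ^ 100 ≤ r * (r : ℝ) ^ 100 := by
            gcongr
            linarith
        _ = (r : ℝ) ^ 101 := by ring
        _ ≤ (r : ℝ) ^ 14200 := pow_le_pow_right₀ hr1 (by norm_num)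
    calc 400 * (r : ℝ) ^ 100 * P * kg ((r : ℝ) ^ 4) ((r : ℝ) ^ 10) ≤
        (r : ℝ) ^ 14200 * P * Real.exp (-((r : ℝ) / 4)) := by
          have := kg_pos ((r : ℝ) ^ 4) ((r : ℝ) ^ 10)
          gcongr
      _ = P * ((r : ℝ) ^ 14200 * Real.exp (-((r : ℝ) / 4))) := by ring
      _ ≤ P * (1 / 1000) := by gcongr
      _ ≤ P / 100 := by linarith
  have b3 : (r : ℝ) ^ 100 * P * Real.exp (-(((r : ℝ) ^ 96) ^ 2 / 16)) ≤ P / 100 := by
    have h1 : Real.exp (-(((r : ℝ) ^ 96) ^ 2 / 16)) ≤ Real.exp (-((r : ℝ) / 4)) := by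
      apply Real.exp_le_exp.2
      have h3 : 4 * (r : ℝ) ≤ ((r : ℝ) ^ 96) ^ 2 := by
        calc 4 * (r : ℝ) ≤ r * r := by nlinarith
          _ = (r : ℝ) ^ 2 := by ring
          _ ≤ (r : ℝ) ^ 192 := pow_le_pow_right₀ hr1 (by norm_num)
          _ = ((r : ℝ) ^ 96) ^ 2 := by ring
      linarith
    have h4 : (r : ℝ) ^ 100 ≤ (r : ℝ) ^ 14200 := pow_le_pow_right₀ hr1 (by norm_num)
    calc (r : ℝ) ^ 100 * P * Real.exp (-(((r : ℝ) ^ 96) ^ 2 / 16)) ≤
        (r : ℝ) ^ 14200 * P * Real.exp (-((r : ℝ) / 4)) := by gcongr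
      _ = P * ((r : ℝ) ^ 14200 * Real.exp (-((r : ℝ) / 4))) := by ring
      _ ≤ P * (1 / 1000) := by gcongr
      _ ≤ P / 100 := by linarith
  have b4 : 10 ≤ P / 100 := by
    have h1 : (r : ℝ) ≤ (r : ℝ) ^ 19 := by
      calc (r : ℝ) = (r : ℝ) ^ 1 := (pow_one _).symm
        _ ≤ (r : ℝ) ^ 19 := pow_le_pow_right₀ hr1 (by norm_num)
    linarith
  linarith

/-- monotonicity in `ε` -/
theorem UniformRatios.mono {w : ℝ → ℝ} {ε ε' c₀ C₀ : ℝ} (hC₀ : 0 < C₀) (hε : ε ≤ ε')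
    (h : UniformRatios w ε c₀ C₀) : UniformRatios w ε' c₀ C₀ := by
  obtain ⟨K, X₀, hK⟩ := h
  refine ⟨|K|, max X₀ 1, fun X hX α γ h1 h2 h3 h5 h6 => ?_⟩
  have hX0 : X₀ ≤ X := (le_max_left _ _).trans hX
  have hX1 : 1 ≤ X := (le_max_right _ _).trans hX
  have hpow : C₀ * X ^ (1 - ε') ≤ C₀ * X ^ (1 - ε) := by
    apply mul_le_mul_of_nonneg_left _ hC₀.le
    exact Real.rpow_le_rpow_of_exponent_le hX1 (by linarith)
  refine (hK X hX0 α γ h1 h2 h3 (h5.trans hpow) (h6.trans hpow)).trans ?_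
  have h7 : X ^ (-(1 / 2) + ε) ≤ X ^ (-(1 / 2) + ε') :=
    Real.rpow_le_rpow_of_exponent_le hX1 (by linarith)
  calc K * X ^ (-(1 / 2) + ε) ≤ |K| * X ^ (-(1 / 2) + ε) :=
        mul_le_mul_of_nonneg_right (le_abs_self K) (Real.rpow_nonneg (by linarith) _)
    _ ≤ |K| * X ^ (-(1 / 2) + ε') := mul_le_mul_of_nonneg_left h7 (abs_nonneg K)

/-- a smooth bump around `5 / 4` -/
noncomputable def bump : ContDiffBump (5 / 4 : ℝ) where
  rIn := 1 / 8
  rOut := 1 / 4
  rIn_pos := by norm_num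
  rIn_lt_rOut := by norm_num

/-- the weight as a function -/
noncomputable def wfun (x : ℝ) : ℝ := bump x + bump (-x)

theorem wfun_smooth : ContDiff ℝ (⊤ : ℕ∞) wfun := by
  have h1 : ContDiff ℝ (⊤ : ℕ∞) (bump : ℝ → ℝ) := bump.contDiff
  exact h1.add (h1.comp contDiff_neg)

theorem bump_supp {x : ℝ} (h : bump x ≠ 0) : 1 < x ∧ x < 3 / 2 := by
  have h1 : x ∈ Function.support (bump : ℝ → ℝ) := h
  rw [bump.support_eq, Metric.mem_ball, Real.dist_eq, abs_lt] at h1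
  have e : bump.rOut = 1 / 4 := rfl
  rw [e] at h1
  constructor <;> linarith [h1.1, h1.2]

theorem bump_one {x : ℝ} (h1 : 9 / 8 ≤ x) (h2 : x ≤ 11 / 8) : bump x = 1 := by
  apply bump.one_of_mem_closedBall
  rw [Metric.mem_closedBall, Real.dist_eq, abs_le]
  have e : bump.rIn = 1 / 8 := rfl
  rw [e]
  constructor <;> linarith

theorem wfun_compact : HasCompactSupport wfun := by
  apply HasCompactSupport.intro (K := Metric.closedBall (0 : ℝ) 2) (isCompact_closedBall _ _)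
  intro x hx
  rw [Metric.mem_closedBall, dist_zero_right, Real.norm_eq_abs, not_le] at hx
  unfold wfun
  have h1 : bump x = 0 := by
    by_contra h
    obtain ⟨a, b⟩ := bump_supp h
    rw [abs_of_pos (by linarith)] at hx
    linarith
  have h2 : bump (-x) = 0 := by
    by_contra h
    obtain ⟨a, b⟩ := bump_supp h
    rw [← abs_neg, abs_of_pos (by linarith)] at hx
    linarith
  rw [h1, h2, add_zero]

/-- the weight as a Schwartz function -/
noncomputable def wgt : SchwartzMap ℝ ℝ := wfun_compact.toSchwartzMap wfun_smooth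

theorem wgt_apply (x : ℝ) : wgt x = wfun x := rfl

theorem bump_zero_of_neg {x : ℝ} (h : x ≤ 1) : bump x = 0 := by
  by_contra h2
  have := (bump_supp h2).1
  linarith

theorem wgt_wt : Wt wgt where
  even x := by
    rw [wgt_apply, wgt_apply]
    unfold wfun
    rw [neg_neg, add_comm]
  nonneg x := by
    rw [wgt_apply]
    exact add_nonneg bump.nonneg bump.nonneg
  le_one x := by
    rw [wgt_apply]
    unfold wfun
    rcases le_total x 0 with h | h
    · rw [bump_zero_of_neg (by linarith), zero_add]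
      exact bump.le_one
    · rw [bump_zero_of_neg (x := -x) (by linarith), add_zero]
      exact bump.le_one
  supp x hx := by
    rw [wgt_apply] at hx
    unfold wfun at hx
    by_cases h : bump x = 0
    · rw [h, zero_add] at hx
      obtain ⟨a, b⟩ := bump_supp hx
      rw [← abs_neg, abs_of_pos (by linarith)]
      exact ⟨a, b⟩
    · obtain ⟨a, b⟩ := bump_supp h
      rw [abs_of_pos (by linarith)]
      exact ⟨a, b⟩
  one x h1 h2 := by
    rw [wgt_apply]
    unfold wfun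
    rcases le_total x 0 with h | h
    · rw [abs_of_nonpos h] at h1 h2
      rw [bump_zero_of_neg (by linarith), zero_add]
      exact bump_one h1 h2
    · rw [abs_of_nonneg h] at h1 h2
      rw [bump_zero_of_neg (x := -x) (by linarith), add_zero]
      exact bump_one h1 h2

end Pool.Agent.H491R3
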