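import Mathlib

/-!
Definitions for the ratios formula in the family of the real characters of conductor `8|d|`.
-/

set_option autoImplicit false

namespace Pool.Agent.H491R3

open Complex

/-- The set of odd squarefree integers, of either sign. -/
abbrev OddSqf : Type := {d : ℤ // Odd d ∧ Squarefree d}

/-- The Kronecker symbol `(8d/n)` for `n ≥ 1`; it vanishes for even `n`. -/
def kron8 (d : ℤ) (n : ℕ) : ℤ := if Even n then 0 else jacobiSym (8 * d) n

theorem OddSqf.ne_zero (d : OddSqf) : d.1 ≠ 0 := d.2.2.ne_zero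

instance (d : OddSqf) : NeZero (8 * d.1.natAbs) :=
  ⟨by have := Int.natAbs_pos.2 d.ne_zero; omega⟩

theorem jacobi_eight (d : ℤ) {n : ℕ} (hn : Odd n) : jacobiSym (8 * d) n = jacobiSym (2 * d) n := by
  have h : (8 * d : ℤ) = 2 ^ 2 * (2 * d) := by ring
  rw [h, jacobiSym.mul_left]
  have hc : IsCoprime (2 : ℤ) n := by
    rw [Int.isCoprime_iff_gcd_eq_one]
    have := Nat.coprime_two_left.2 hn
    simpa [Int.gcd] using this
  have h2 : jacobiSym ((2 : ℤ) ^ 2) n = 1 := by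
    apply jacobiSym.sq_one'
    rw [← Int.isCoprime_iff_gcd_eq_one]
    exact hc
  rw [h2, one_mul]

theorem kron8_mod (d : ℤ) (n : ℕ) : kron8 d (n % (8 * d.natAbs)) = kron8 d n := by
  unfold kron8
  have hpar : Even (n % (8 * d.natAbs)) ↔ Even n := by
    rw [Nat.even_iff, Nat.even_iff, Nat.mod_mod_of_dvd n (show 2 ∣ 8 * d.natAbs from
      ⟨4 * d.natAbs, by ring⟩)]
  by_cases h : Even n
  · rw [if_pos h, if_pos (hpar.2 h)]
  · rw [if_neg h, if_neg (fun h2 => h (hpar.1 h2))]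
    have ho : Odd n := Nat.not_even_iff_odd.1 h
    have ho2 : Odd (n % (8 * d.natAbs)) := Nat.not_even_iff_odd.1 (fun h2 => h (hpar.1 h2))
    rw [jacobi_eight d ho, jacobi_eight d ho2, jacobiSym.mod_right (2 * d) ho]
    congr 2
    rw [Int.natAbs_mul]
    norm_num
    ring

theorem kron8_mul (d : ℤ) (m n : ℕ) : kron8 d (m * n) = kron8 d m * kron8 d n := by
  unfold kron8
  by_cases hm : Even m
  · rw [if_pos hm, if_pos (hm.mul_right n), zero_mul]
  by_cases hn : Even n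
  · rw [if_pos hn, if_pos (hn.mul_left m), mul_zero]
  have hm' := Nat.not_even_iff_odd.1 hm
  have hn' := Nat.not_even_iff_odd.1 hn
  rw [if_neg hm, if_neg hn, if_neg (Nat.not_even_iff_odd.2 (hm'.mul hn'))]
  have : NeZero m := ⟨hm'.pos.ne'⟩
  have : NeZero n := ⟨hn'.pos.ne'⟩
  exact jacobiSym.mul_right _ _ _

theorem kron8_eq_zero (d : ℤ) (n : ℕ) (h : ¬ n.Coprime (8 * d.natAbs)) : kron8 d n = 0 := by
  unfold kron8
  by_cases hn : Even n
  · rw [if_pos hn]
  rw [if_neg hn]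
  have hn' := Nat.not_even_iff_odd.1 hn
  have : NeZero n := ⟨hn'.pos.ne'⟩
  rw [jacobiSym.eq_zero_iff_not_coprime]
  intro h2
  apply h
  rw [Int.gcd_eq_natAbs, Int.natAbs_mul] at h2
  rw [Nat.coprime_comm]
  simpa using h2

theorem kron8_one (d : ℤ) : kron8 d 1 = 1 := by
  unfold kron8
  rw [if_neg (by decide), jacobiSym.one_right]

/-- The real character `χ_{8d}` modulo `8|d|`. -/
noncomputable def chi8 (d : OddSqf) : DirichletCharacter ℂ (8 * d.1.natAbs) where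
  toFun a := (kron8 d.1 a.val : ℂ)
  map_one' := by
    have h : 1 < 8 * d.1.natAbs := by have := Int.natAbs_pos.2 d.ne_zero; omega
    have : Fact (1 < 8 * d.1.natAbs) := ⟨h⟩
    rw [ZMod.val_one, kron8_one]
    simp
  map_mul' a b := by
    rw [ZMod.val_mul, kron8_mod, kron8_mul]
    push_cast
    ring
  map_nonunit' a ha := by
    rw [kron8_eq_zero]
    · simp
    · intro h2
      apply ha
      rw [← ZMod.natCast_zmod_val a]
      exact (ZMod.isUnit_iff_coprime a.val (8 * d.1.natAbs)).2 h2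

/-- `L(s, χ_{8d})`. -/
noncomputable def L (d : OddSqf) (s : ℂ) : ℂ := DirichletCharacter.LFunction (chi8 d) s

/-- The average of `f` over the family with weights `w (d / X)`. -/
noncomputable def avg (w : ℝ → ℝ) (X : ℝ) (f : OddSqf → ℂ) : ℂ :=
  (∑' d : OddSqf, (w (d.1 / X) : ℂ) * f d) / (∑' d : OddSqf, (w (d.1 / X) : ℂ))

/-- `𝔞(d) = 0` for `d > 0` and `𝔞(d) = 1` for `d < 0`. -/
def aa (d : OddSqf) : ℂ := if 0 < d.1 then 0 else 1

/-- The factor `X_d(s)` of the functional equation. -/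
noncomputable def Xd (d : OddSqf) (s : ℂ) : ℂ :=
  (8 * |(d.1 : ℝ)| / Real.pi : ℂ) ^ (1 / 2 - s) * Gamma ((1 + aa d - s) / 2) *
    (Gamma ((aa d + s) / 2))⁻¹

/-- The arithmetic factor `A(α, γ)`. -/
noncomputable def AA (α γ : ℂ) : ℂ :=
  (1 - 2 ^ (-1 - 2 * α)) / (1 - 2 ^ (-1 - α - γ)) *
    ∏' p : Nat.Primes, if (p : ℕ) = 2 then 1 else
      (1 - ((p : ℂ) + 1)⁻¹ * (p : ℂ) ^ (-1 - 2 * α) - ((p : ℂ) + 1)⁻¹ * (p : ℂ) ^ (-α - γ)) /
        (1 - (p : ℂ) ^ (-1 - α - γ))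

/-- `Φ(α, γ) = ζ(1 + 2 α) A(α, γ) / ζ(1 + α + γ)`. -/
noncomputable def Phi (α γ : ℂ) : ℂ :=
  riemannZeta (1 + 2 * α) * AA α γ / riemannZeta (1 + α + γ)

/-- The generalized Riemann hypothesis for Dirichlet L-functions. -/
def GRH : Prop := ∀ (N : ℕ) [NeZero N] (χ : DirichletCharacter ℂ N) (s : ℂ),
  DirichletCharacter.LFunction χ s = 0 → 0 < s.re → s.re < 1 → s.re = 1 / 2

end Pool.Agent.H491R3
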