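import Pool.Agent.H491R3.FE

set_option autoImplicit false

namespace Pool.Agent.H491R3

open Complex Filter Topology

theorem gammaSeq_mono {x y t : ℝ} (hx : 0 < x) (hxy : x ≤ y) {n : ℕ} (hn : 0 < n) :
    ‖GammaSeq (x + t * I) n‖ * ‖GammaSeq (y : ℂ) n‖ ≤
      ‖GammaSeq (y + t * I) n‖ * ‖GammaSeq (x : ℂ) n‖ := by
  have hn' : (0 : ℝ) < n := by exact_mod_cast hn
  have hpos : ∀ (z : ℝ) (u : ℝ), 0 < z → ∀ j : ℕ, 0 < ‖((z : ℂ) + u * I + j)‖ := by
    intro z u hz j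
    rw [norm_pos_iff]
    intro h
    have := congrArg re h
    simp at this
    have h2 : (0 : ℝ) ≤ j := Nat.cast_nonneg j
    linarith
  have key : ∀ (z : ℝ) (u : ℝ), ‖GammaSeq (z + u * I) n‖ =
      (n : ℝ) ^ z * (Nat.factorial n : ℝ) / ∏ j ∈ Finset.range (n + 1), ‖((z : ℂ) + u * I + j)‖ := by
    intro z u
    unfold GammaSeq
    rw [norm_div, norm_mul, norm_prod]
    congr 2
    · rw [← ofReal_natCast, norm_cpow_eq_rpow_re_of_pos hn']
      simp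
    · simp
  have key0 : ∀ z : ℝ, GammaSeq (z : ℂ) n = GammaSeq (z + (0 : ℝ) * I) n := by
    intro z; simp
  rw [key0 x, key0 y, key, key, key, key]
  have hy : 0 < y := lt_of_lt_of_le hx hxy
  have P1 : ∀ (z : ℝ) (u : ℝ), 0 < z →
      0 < ∏ j ∈ Finset.range (n + 1), ‖((z : ℂ) + u * I + j)‖ := by
    intro z u hz
    exact Finset.prod_pos fun j _ => hpos z u hz j
  have hprod : (∏ j ∈ Finset.range (n + 1), ‖((y : ℂ) + t * I + j)‖) *
      (∏ j ∈ Finset.range (n + 1), ‖((x : ℂ) + (0 : ℝ) * I + j)‖) ≤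
      (∏ j ∈ Finset.range (n + 1), ‖((x : ℂ) + t * I + j)‖) *
      (∏ j ∈ Finset.range (n + 1), ‖((y : ℂ) + (0 : ℝ) * I + j)‖) := by
    rw [← Finset.prod_mul_distrib, ← Finset.prod_mul_distrib]
    apply Finset.prod_le_prod
    · intro j _; positivity
    · intro j _
      have h2 : (0 : ℝ) ≤ j := Nat.cast_nonneg j
      have e : ∀ (z u : ℝ), ‖((z : ℂ) + u * I + j)‖ = Real.sqrt ((z + j) ^ 2 + u ^ 2) := by
        intro z u
        rw [Complex.norm_eq_sqrt_sq_add_sq]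
        simp
      rw [e, e, e, e, ← Real.sqrt_mul (by positivity), ← Real.sqrt_mul (by positivity)]
      apply Real.sqrt_le_sqrt
      have h3 : (x + j) ^ 2 ≤ (y + j) ^ 2 := by
        apply pow_le_pow_left₀ (by positivity)
        linarith
      nlinarith [sq_nonneg t]
  have a1 := P1 x t hx
  have a2 := P1 y t hy
  have a3 := P1 x 0 hx
  have a4 := P1 y 0 hy
  rw [div_mul_div_comm, div_mul_div_comm, div_le_div_iff₀ (by positivity) (by positivity)]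
  have hc : 0 ≤ (n : ℝ) ^ x * (Nat.factorial n : ℝ) * ((n : ℝ) ^ y * (Nat.factorial n : ℝ)) := by
    positivity
  nlinarith [mul_le_mul_of_nonneg_left hprod hc]

theorem gamma_mono {x y t : ℝ} (hx : 0 < x) (hxy : x ≤ y) :
    ‖Gamma (x + t * I)‖ * Real.Gamma y ≤ ‖Gamma (y + t * I)‖ * Real.Gamma x := by
  have hy : 0 < y := lt_of_lt_of_le hx hxy
  have e : ∀ z : ℝ, 0 < z → ‖Gamma (z : ℂ)‖ = Real.Gamma z := by
    intro z hz
    rw [Gamma_ofReal, norm_real, Real.norm_eq_abs, abs_of_pos (Real.Gamma_pos_of_pos hz)]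
  rw [← e x hx, ← e y hy]
  have h1 := ((GammaSeq_tendsto_Gamma (x + t * I)).norm).mul ((GammaSeq_tendsto_Gamma (y : ℂ)).norm)
  have h2 := ((GammaSeq_tendsto_Gamma (y + t * I)).norm).mul ((GammaSeq_tendsto_Gamma (x : ℂ)).norm)
  exact le_of_tendsto_of_tendsto h1 h2
    ((eventually_gt_atTop 0).mono fun n hn => gammaSeq_mono hx hxy hn)

theorem gamma_half {t : ℝ} (ht : 0 ≤ t) :
    Real.sqrt Real.pi * Real.exp (-(Real.pi * t / 2)) ≤ ‖Gamma ((1 / 2 : ℝ) + t * I)‖ := by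
  have h := Gamma_mul_Gamma_one_sub (((1 / 2 : ℝ) : ℂ) + t * I)
  have h1 : (1 : ℂ) - (((1 / 2 : ℝ) : ℂ) + t * I) = (starRingEnd ℂ) (((1 / 2 : ℝ) : ℂ) + t * I) := by
    apply Complex.ext <;> simp
    norm_num
  rw [h1, Gamma_conj, mul_conj, normSq_eq_norm_sq] at h
  have h2 : sin ((Real.pi : ℂ) * (((1 / 2 : ℝ) : ℂ) + t * I)) = ((Real.cosh (Real.pi * t) : ℝ) : ℂ) := by
    have : (Real.pi : ℂ) * (((1 / 2 : ℝ) : ℂ) + t * I) = Real.pi / 2 + (Real.pi * t) * I := by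
      push_cast; ring
    rw [this, add_comm, Complex.sin_add_pi_div_two, Complex.cos_mul_I]
    push_cast
    rfl
  rw [h2] at h
  have h3 : ‖Gamma ((1 / 2 : ℝ) + t * I)‖ ^ 2 = Real.pi / Real.cosh (Real.pi * t) := by
    exact_mod_cast h
  have h4 : Real.cosh (Real.pi * t) ≤ Real.exp (Real.pi * t) := by
    rw [Real.cosh_eq]
    have : Real.exp (-(Real.pi * t)) ≤ Real.exp (Real.pi * t) := by
      apply Real.exp_le_exp.2
      have := Real.pi_pos
      nlinarith [mul_nonneg this.le ht]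
    linarith
  have h5 : 0 < Real.cosh (Real.pi * t) := Real.cosh_pos _
  apply le_of_sq_le_sq _ (norm_nonneg _)
  rw [h3, mul_pow, Real.sq_sqrt Real.pi_pos.le, ← Real.exp_nat_mul]
  have : Real.exp ((2 : ℕ) * -(Real.pi * t / 2)) = (Real.exp (Real.pi * t))⁻¹ := by
    rw [← Real.exp_neg]
    congr 1
    push_cast
    ring
  rw [this, ← div_eq_mul_inv]
  exact div_le_div_of_nonneg_left Real.pi_pos.le h5 h4

/-- the bound for `H` on the line `Re s = 7/10` -/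
theorem HH_bound : ∃ C : ℝ, 0 < C ∧ ∀ t : ℝ, 0 ≤ t → ‖HH ((7 / 10 : ℝ) + t * I)‖ ≤ C := by
  have hG : 0 < Real.Gamma (7 / 10) := Real.Gamma_pos_of_pos (by norm_num)
  refine ⟨(2 * Real.pi) ^ (7 / 10 : ℝ) / Real.Gamma (7 / 10), by positivity, fun t ht => ?_⟩
  have h1 := gamma_mono (x := 1 / 2) (y := 7 / 10) (t := t) (by norm_num) (by norm_num)
  have h2 := gamma_half ht
  have hs : Real.Gamma (1 / 2) = Real.sqrt Real.pi := Real.Gamma_one_half_eq
  rw [hs] at h1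
  have hsp : 0 < Real.sqrt Real.pi := Real.sqrt_pos.2 Real.pi_pos
  have h3 : Real.Gamma (7 / 10) * Real.exp (-(Real.pi * t / 2)) ≤
      ‖Gamma (((7 / 10 : ℝ) : ℂ) + t * I)‖ := by
    have h4 : Real.sqrt Real.pi * (Real.Gamma (7 / 10) * Real.exp (-(Real.pi * t / 2))) ≤
        Real.sqrt Real.pi * ‖Gamma (((7 / 10 : ℝ) : ℂ) + t * I)‖ := by
      calc _ = (Real.sqrt Real.pi * Real.exp (-(Real.pi * t / 2))) * Real.Gamma (7 / 10) := by ring
        _ ≤ ‖Gamma ((1 / 2 : ℝ) + t * I)‖ * Real.Gamma (7 / 10) :=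
            mul_le_mul_of_nonneg_right h2 hG.le
        _ ≤ _ := by rw [mul_comm (Real.sqrt Real.pi)]; exact h1
    exact le_of_mul_le_mul_left h4 hsp
  unfold HH
  rw [norm_mul, norm_mul, norm_inv]
  have e1 : ‖(2 * Real.pi : ℂ) ^ (((7 / 10 : ℝ) : ℂ) + t * I)‖ = (2 * Real.pi) ^ (7 / 10 : ℝ) := by
    have : (2 * Real.pi : ℂ) = ((2 * Real.pi : ℝ) : ℂ) := by push_cast; rfl
    rw [this, norm_cpow_eq_rpow_re_of_pos (by positivity)]
    simp
  have e2 : ‖exp (Real.pi * I * (((7 / 10 : ℝ) : ℂ) + t * I) / 2)‖ =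
      Real.exp (-(Real.pi * t / 2)) := by
    rw [Complex.norm_exp]
    congr 1
    have : (Real.pi : ℂ) * I * (((7 / 10 : ℝ) : ℂ) + t * I) / 2 =
        ((-(Real.pi * t / 2) : ℝ) : ℂ) + ((Real.pi * (7 / 10) / 2 : ℝ) : ℂ) * I := by
      push_cast
      ring_nf
      rw [I_sq]
      ring
    rw [this]
    simp
  have he : 0 < Real.exp (-(Real.pi * t / 2)) := Real.exp_pos _
  have h5 : 0 < ‖Gamma (((7 / 10 : ℝ) : ℂ) + t * I)‖ := lt_of_lt_of_le (by positivity) h3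
  have h6 : Real.exp (-(Real.pi * t / 2)) * ‖Gamma (((7 / 10 : ℝ) : ℂ) + t * I)‖⁻¹ ≤
      (Real.Gamma (7 / 10))⁻¹ := by
    rw [← div_eq_mul_inv, div_le_iff₀ h5, inv_mul_eq_div, le_div_iff₀ hG]
    linarith
  rw [e1, e2, mul_assoc]
  calc _ ≤ (2 * Real.pi) ^ (7 / 10 : ℝ) * (Real.Gamma (7 / 10))⁻¹ :=
        mul_le_mul_of_nonneg_left h6 (by positivity)
    _ = _ := (div_eq_mul_inv _ _).symm

end Pool.Agent.H491R3
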