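import Pool.Agent.H491R3.Setup
import Pool.Agent.H491R3.Gam

set_option autoImplicit false

namespace Pool.Agent.H491R3

open Finset Complex

/-- The ratios formula with error `O(X^(-1/2 + ε))`, uniformly on the lines
`Re α = -1/5`, `Re γ = 1/10`, with `|Im α|, |Im γ| ≤ C₀ X^(1 - ε)`. -/
def UniformRatios (w : ℝ → ℝ) (ε c₀ C₀ : ℝ) : Prop :=
  ∃ K X₀ : ℝ, ∀ X : ℝ, X₀ ≤ X → ∀ α γ : ℂ, α.re = -(1 / 5) → γ.re = 1 / 10 →
    c₀ / Real.log X ≤ γ.re → |α.im| ≤ C₀ * X ^ (1 - ε) →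
    |γ.im| ≤ C₀ * X ^ (1 - ε) →
    ‖avg w X (fun d => L d (1 / 2 + α) / L d (1 / 2 + γ)) -
      (Phi α γ + avg w X (fun d => Xd d (1 / 2 + α)) * Phi (-α) γ)‖ ≤ K * X ^ (-(1 / 2) + ε)

/-- one term of the difference -/
noncomputable def Tm (β γ : ℂ) (d : OddSqf) : ℂ :=
  Xd d (1 / 2 - β) * (W d * L d (1 / 2 + β) * (L d (1 / 2 + γ))⁻¹ - Phi β γ)

theorem avg_eq {w : ℝ → ℝ} (hw : Wt w) {X : ℝ} (hX : 0 < X) {N : ℕ} (hN : 3 / 2 * X ≤ N)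
    {β γ : ℂ} (hβ : 0 < (1 / 2 + β).re) :
    avg w X (fun d => L d (1 / 2 + -β) / L d (1 / 2 + γ)) -
      avg w X (fun d => Xd d (1 / 2 + -β)) * Phi β γ =
    (∑ d ∈ Dset N, (w (d.1 / X) : ℂ) * Tm β γ d) /
      ((∑ d ∈ Dset N, w (d.1 / X) : ℝ) : ℂ) := by
  unfold avg
  rw [wt_tsum hw hX hN, wt_tsum hw hX hN, wt_tsum' hw hX hN, div_mul_eq_mul_div, ← sub_div]
  congr 1
  rw [sum_mul, ← sum_sub_distrib]
  apply sum_congr rfl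
  intro d _
  have h := L_one_sub' d hβ
  have e : (1 : ℂ) - (1 / 2 + β) = 1 / 2 + -β := by ring
  rw [e] at h
  unfold Tm
  rw [h, sub_eq_add_neg (1 / 2 : ℂ) β]
  ring

/-- the difference at the two scales -/
theorem two_scales {w : ℝ → ℝ} (hw : Wt w) {ε c₀ C₀ : ℝ} (hε : ε = 1 / 100) (hC₀ : 0 < C₀)
    (h : UniformRatios w ε c₀ C₀) : ∃ K : ℝ, 0 ≤ K ∧ ∃ r₀ : ℕ, ∀ r ≥ r₀, ∀ t u : ℝ,
      |t| ≤ 2 * (r : ℝ) ^ 98 → |u| ≤ (r : ℝ) ^ 22 →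
      ‖∑ d ∈ Dr r, ((vv w r d : ℝ) : ℂ) * Tm ((1 / 5 : ℝ) + t * I) ((1 / 10 : ℝ) + u * I) d‖ ≤
        K * ((r : ℝ) ^ 49)⁻¹ := by
  obtain ⟨K, X₀, hK⟩ := h
  refine ⟨3 * |K|, by positivity, ?_⟩
  obtain ⟨r₁, h1⟩ := W1_lower hw
  -- eventually in `r`
  have ev : ∀ᶠ r : ℕ in Filter.atTop, (X₀ ≤ (r : ℝ) ^ 100 / 4) ∧ (c₀ / Real.log ((r : ℝ) ^ 100) ≤ 1 / 10) ∧
      (c₀ / Real.log ((r : ℝ) ^ 100 / 4) ≤ 1 / 10) ∧ (8 / C₀ ≤ (r : ℝ)) := by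
    have t0 : Filter.Tendsto (fun r : ℕ => (r : ℝ) ^ 100) Filter.atTop Filter.atTop :=
      (Filter.tendsto_pow_atTop (by norm_num)).comp tendsto_natCast_atTop_atTop
    have t1 : Filter.Tendsto (fun r : ℕ => (r : ℝ) ^ 100 / 4) Filter.atTop Filter.atTop :=
      t0.atTop_div_const (by norm_num)
    have t2 : Filter.Tendsto (fun r : ℕ => c₀ / Real.log ((r : ℝ) ^ 100)) Filter.atTop (nhds 0) :=
      (Real.tendsto_log_atTop.comp t0).const_div_atTop c₀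
    have t3 : Filter.Tendsto (fun r : ℕ => c₀ / Real.log ((r : ℝ) ^ 100 / 4)) Filter.atTop (nhds 0) :=
      (Real.tendsto_log_atTop.comp t1).const_div_atTop c₀
    filter_upwards [t1.eventually_ge_atTop X₀, t2.eventually (eventually_le_nhds (by norm_num : (0 : ℝ) < 1 / 10)),
      t3.eventually (eventually_le_nhds (by norm_num : (0 : ℝ) < 1 / 10)),
      tendsto_natCast_atTop_atTop.eventually_ge_atTop (8 / C₀)] with r a b c d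
    exact ⟨a, b, c, d⟩
  obtain ⟨r₂, h2⟩ := Filter.eventually_atTop.1 ev
  refine ⟨max r₁ r₂, fun r hr t u ht hu => ?_⟩
  obtain ⟨hW1, hW2, hr1000⟩ := h1 r (le_trans (le_max_left _ _) hr)
  obtain ⟨e1, e2, e3, e4⟩ := h2 r (le_trans (le_max_right _ _) hr)
  have hr0 : (0 : ℝ) < r := by linarith
  have hr1 : (1 : ℝ) ≤ r := by linarith
  have hX : (0 : ℝ) < (r : ℝ) ^ 100 := by positivity
  have hX4 : (0 : ℝ) < (r : ℝ) ^ 100 / 4 := by positivity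
  have hN : ((2 * r ^ 100 : ℕ) : ℝ) = 2 * (r : ℝ) ^ 100 := by push_cast; rfl
  set β : ℂ := (1 / 5 : ℝ) + t * I with hβ
  set γ : ℂ := (1 / 10 : ℝ) + u * I with hγ
  have hβre : β.re = 1 / 5 := by rw [hβ]; simp
  have hβim : β.im = t := by rw [hβ]; simp
  have hγre : γ.re = 1 / 10 := by rw [hγ]; simp
  have hγim : γ.im = u := by rw [hγ]; simp
  have hβ2 : 0 < (1 / 2 + β).re := by
    rw [add_re, hβre]
    norm_num
  have hC8 : 8 ≤ C₀ * r := by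
    rw [div_le_iff₀ hC₀] at e4
    linarith
  -- sizes
  have hpow : ∀ Y : ℝ, (r : ℝ) ^ 100 / 4 ≤ Y → 2 * (r : ℝ) ^ 98 ≤ C₀ * Y ^ (1 - ε) := by
    intro Y hY
    have h3 : ((r : ℝ) ^ 100 / 4) ^ (1 - ε) ≤ Y ^ (1 - ε) := by
      apply Real.rpow_le_rpow hX4.le hY
      rw [hε]; norm_num
    have h4 : (r : ℝ) ^ 99 / 4 ≤ ((r : ℝ) ^ 100 / 4) ^ (1 - ε) := by
      rw [Real.div_rpow hX.le (by norm_num)]
      have h5 : ((r : ℝ) ^ 100) ^ (1 - ε) = (r : ℝ) ^ 99 := by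
        rw [← Real.rpow_natCast, ← Real.rpow_mul hr0.le, hε, ← Real.rpow_natCast]
        norm_num
      rw [h5]
      have h6 : (4 : ℝ) ^ (1 - ε) ≤ 4 := by
        calc (4 : ℝ) ^ (1 - ε) ≤ (4 : ℝ) ^ (1 : ℝ) := by
              apply Real.rpow_le_rpow_of_exponent_le (by norm_num)
              rw [hε]; norm_num
          _ = 4 := Real.rpow_one 4
      gcongr
    have h7 : 2 * (r : ℝ) ^ 98 ≤ C₀ * ((r : ℝ) ^ 99 / 4) := by
      have : C₀ * ((r : ℝ) ^ 99 / 4) = (C₀ * r) * (r : ℝ) ^ 98 / 4 := by ring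
      rw [this]
      have : 0 < (r : ℝ) ^ 98 := by positivity
      nlinarith
    have h8 := mul_le_mul_of_nonneg_left (h4.trans h3) hC₀.le
    linarith
  have h22 : (r : ℝ) ^ 22 ≤ 2 * (r : ℝ) ^ 98 := by
    have : (r : ℝ) ^ 22 ≤ (r : ℝ) ^ 98 := pow_le_pow_right₀ hr1 (by norm_num)
    have : 0 < (r : ℝ) ^ 98 := by positivity
    linarith
  have bound : ∀ Y : ℝ, 0 < Y → (r : ℝ) ^ 100 / 4 ≤ Y → c₀ / Real.log Y ≤ 1 / 10 →
      ‖avg w Y (fun d => L d (1 / 2 + -β) / L d (1 / 2 + γ)) -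
      (Phi (-β) γ + avg w Y (fun d => Xd d (1 / 2 + -β)) * Phi β γ)‖ ≤ |K| * Y ^ (-(1 / 2) + ε) := by
    intro Y hY0 hY hlog
    have h9 := hK Y (e1.trans hY) (-β) γ (by rw [neg_re, hβre]) hγre (by rw [hγre]; exact hlog)
      (by rw [neg_im, abs_neg, hβim]; exact ht.trans (hpow Y hY))
      (by rw [hγim]; exact hu.trans (h22.trans (hpow Y hY)))
    rw [neg_neg] at h9
    refine h9.trans ?_
    exact mul_le_mul_of_nonneg_right (le_abs_self K) (Real.rpow_nonneg hY0.le _)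
  have b1 := bound ((r : ℝ) ^ 100) hX (by linarith) e2
  have b2 := bound ((r : ℝ) ^ 100 / 4) hX4 le_rfl e3
  have a1 := avg_eq hw hX (N := 2 * r ^ 100) (by rw [hN]; linarith) (β := β) (γ := γ) hβ2
  have a2 := avg_eq hw hX4 (N := 2 * r ^ 100) (by rw [hN]; linarith) (β := β) (γ := γ) hβ2
  have p1 : ((r : ℝ) ^ 100) ^ (-(1 / 2) + ε) = ((r : ℝ) ^ 49)⁻¹ := by
    rw [← Real.rpow_natCast, ← Real.rpow_mul hr0.le, hε, ← Real.rpow_natCast, ← Real.rpow_neg hr0.le]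
    norm_num
  have p2 : ((r : ℝ) ^ 100 / 4) ^ (-(1 / 2) + ε) ≤ 2 * ((r : ℝ) ^ 49)⁻¹ := by
    rw [Real.div_rpow hX.le (by norm_num), p1, div_eq_mul_inv, mul_comm]
    apply mul_le_mul_of_nonneg_right _ (by positivity)
    rw [← Real.rpow_neg (by norm_num)]
    calc (4 : ℝ) ^ (-(-(1 / 2) + ε)) ≤ (4 : ℝ) ^ (1 / 2 : ℝ) := by
          apply Real.rpow_le_rpow_of_exponent_le (by norm_num)
          rw [hε]; norm_num
      _ = 2 := by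
          rw [show (4 : ℝ) = 2 ^ (2 : ℝ) by norm_num, ← Real.rpow_mul (by norm_num)]
          norm_num
  have key : ∑ d ∈ Dr r, ((vv w r d : ℝ) : ℂ) * Tm β γ d =
      (avg w ((r : ℝ) ^ 100) (fun d => L d (1 / 2 + -β) / L d (1 / 2 + γ)) -
      (Phi (-β) γ + avg w ((r : ℝ) ^ 100) (fun d => Xd d (1 / 2 + -β)) * Phi β γ)) -
      (avg w ((r : ℝ) ^ 100 / 4) (fun d => L d (1 / 2 + -β) / L d (1 / 2 + γ)) -
      (Phi (-β) γ + avg w ((r : ℝ) ^ 100 / 4) (fun d => Xd d (1 / 2 + -β)) * Phi β γ)) := by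
    have e5 : ∑ d ∈ Dr r, ((vv w r d : ℝ) : ℂ) * Tm β γ d =
        (∑ d ∈ Dset (2 * r ^ 100), (w (d.1 / (r : ℝ) ^ 100) : ℂ) * Tm β γ d) /
          ((∑ d ∈ Dset (2 * r ^ 100), w (d.1 / (r : ℝ) ^ 100) : ℝ) : ℂ) -
        (∑ d ∈ Dset (2 * r ^ 100), (w (d.1 / ((r : ℝ) ^ 100 / 4)) : ℂ) * Tm β γ d) /
          ((∑ d ∈ Dset (2 * r ^ 100), w (d.1 / ((r : ℝ) ^ 100 / 4)) : ℝ) : ℂ) := by
      rw [sum_div, sum_div, ← sum_sub_distrib]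
      apply sum_congr rfl
      intro d _
      unfold vv W1 W2 Dr
      push_cast
      ring
    rw [e5, ← a1, ← a2]
    ring
  rw [key]
  refine (norm_sub_le _ _).trans ?_
  rw [p1] at b1
  have b3 := b2.trans (mul_le_mul_of_nonneg_left p2 (abs_nonneg K))
  linarith

/-- the twisted difference -/
noncomputable def E1 (w : ℝ → ℝ) (r : ℕ) (β γ : ℂ) : ℂ := ∑ d ∈ Dr r, ((vv w r d : ℝ) : ℂ) *
  (exp (β * (Real.log |(d.1 : ℝ)| : ℝ)) * ee d (1 / 2 + β) *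
    (W d * L d (1 / 2 + β) * (L d (1 / 2 + γ))⁻¹ - Phi β γ))

theorem E1_eq (w : ℝ → ℝ) (r : ℕ) {β γ : ℂ} (hβ : 0 < (1 / 2 + β).re) :
    E1 w r β γ = exp (-(β * (Real.log 8 : ℝ))) * HH (1 / 2 + β) *
      ∑ d ∈ Dr r, ((vv w r d : ℝ) : ℂ) * Tm β γ d := by
  unfold E1
  rw [mul_sum]
  apply sum_congr rfl
  intro d _
  unfold Tm
  have h := HH_mul_Xd d hβ
  have e : (1 : ℂ) - (1 / 2 + β) = 1 / 2 - β := by ring
  have e' : (1 : ℂ) / 2 + β - 1 / 2 = β := by ring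
  rw [e, e'] at h
  have hd0 : (0 : ℝ) < |(d.1 : ℝ)| := by
    have : (d.1 : ℝ) ≠ 0 := by exact_mod_cast d.2.2.ne_zero
    positivity
  have h2 : ((8 * d.1.natAbs : ℕ) : ℂ) ^ β =
      exp (β * (Real.log 8 : ℝ)) * exp (β * (Real.log |(d.1 : ℝ)| : ℝ)) := by
    rw [natAbs_cast, cpow_def_of_ne_zero (by
      have : 8 * |(d.1 : ℝ)| ≠ 0 := by positivity
      exact_mod_cast this), ← ofReal_log (by positivity), Real.log_mul (by norm_num) hd0.ne',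
      ← exp_add]
    congr 1
    push_cast
    ring
  have h3 : exp (-(β * (Real.log 8 : ℝ))) * (exp (β * (Real.log 8 : ℝ)) *
      exp (β * (Real.log |(d.1 : ℝ)| : ℝ))) = exp (β * (Real.log |(d.1 : ℝ)| : ℝ)) := by
    rw [← mul_assoc, ← exp_add]
    simp
  calc _ = ((vv w r d : ℝ) : ℂ) * ((exp (-(β * (Real.log 8 : ℝ))) * (exp (β * (Real.log 8 : ℝ)) *
      exp (β * (Real.log |(d.1 : ℝ)| : ℝ)))) * ee d (1 / 2 + β) *
        (W d * L d (1 / 2 + β) * (L d (1 / 2 + γ))⁻¹ - Phi β γ)) := by rw [h3]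
    _ = ((vv w r d : ℝ) : ℂ) * (exp (-(β * (Real.log 8 : ℝ))) * (HH (1 / 2 + β) *
        Xd d (1 / 2 - β)) *
        (W d * L d (1 / 2 + β) * (L d (1 / 2 + γ))⁻¹ - Phi β γ)) := by
        rw [h, h2]
        ring
    _ = _ := by ring

theorem E1_bound {w : ℝ → ℝ} (hw : Wt w) {ε c₀ C₀ : ℝ} (hε : ε = 1 / 100) (hC₀ : 0 < C₀)
    (h : UniformRatios w ε c₀ C₀) : ∃ K : ℝ, 0 ≤ K ∧ ∃ r₀ : ℕ, ∀ r ≥ r₀, ∀ t u : ℝ,
      0 ≤ t → t ≤ 2 * (r : ℝ) ^ 98 → |u| ≤ (r : ℝ) ^ 22 →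
      ‖E1 w r ((1 / 5 : ℝ) + t * I) ((1 / 10 : ℝ) + u * I)‖ ≤ K * ((r : ℝ) ^ 49)⁻¹ := by
  obtain ⟨K, hK, r₀, hr₀⟩ := two_scales hw hε hC₀ h
  obtain ⟨C, hC, hHH⟩ := HH_bound
  refine ⟨C * K, by positivity, r₀, fun r hr t u ht0 ht hu => ?_⟩
  have h1 := hr₀ r hr t u (by rwa [abs_of_nonneg ht0]) hu
  rw [E1_eq w r (by simp; norm_num), norm_mul, norm_mul]
  have h2 : ‖exp (-(((1 / 5 : ℝ) + t * I) * (Real.log 8 : ℝ)))‖ ≤ 1 := by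
    rw [Complex.norm_exp]
    have : (-((((1 / 5 : ℝ) : ℂ) + t * I) * ((Real.log 8 : ℝ) : ℂ))).re = -((1 / 5) * Real.log 8) := by
      rw [neg_re, re_mul_ofReal]
      simp
    rw [this, Real.exp_le_one_iff]
    have : 0 < Real.log 8 := Real.log_pos (by norm_num)
    linarith
  have h3 : ‖HH (1 / 2 + ((1 / 5 : ℝ) + t * I))‖ ≤ C := by
    have e : (1 / 2 + (((1 / 5 : ℝ) : ℂ) + t * I)) = ((7 / 10 : ℝ) : ℂ) + t * I := by
      push_cast; ring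
    rw [e]
    exact hHH t ht0
  calc _ ≤ 1 * C * (K * ((r : ℝ) ^ 49)⁻¹) := by gcongr
    _ = _ := by ring

end Pool.Agent.H491R3
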