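import Pool.Agent.H491R3.Parity

set_option autoImplicit false

namespace Pool.Agent.H491R3

open Complex

/-- the root number -/
noncomputable def W (d : OddSqf) : ℂ := DirichletCharacter.rootNumber (chi8 d)

theorem completed_one_sub (d : OddSqf) (s : ℂ) :
    DirichletCharacter.completedLFunction (chi8 d) (1 - s) =
      ((8 * d.1.natAbs : ℕ) : ℂ) ^ (s - 1 / 2) * W d *
        DirichletCharacter.completedLFunction (chi8 d) s := by
  have h := (chi8_primitive d).completedLFunction_one_sub s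
  rw [chi8_inv] at h
  exact h

theorem one_lt_N (d : OddSqf) : 1 < 8 * d.1.natAbs := by
  have := Int.natAbs_pos.2 d.ne_zero; omega

theorem gammaFactor_ne_zero (d : OddSqf) {s : ℂ} (hs : 0 < s.re) :
    DirichletCharacter.gammaFactor (chi8 d) s ≠ 0 := by
  by_cases hd : 0 < d.1
  · rw [(chi8_even hd).gammaFactor_def]
    exact Gammaℝ_ne_zero_of_re_pos hs
  · rw [(chi8_odd hd).gammaFactor_def]
    apply Gammaℝ_ne_zero_of_re_pos
    simp
    linarith

theorem L_eq (d : OddSqf) (s : ℂ) : L d s =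
    DirichletCharacter.completedLFunction (chi8 d) s / DirichletCharacter.gammaFactor (chi8 d) s :=
  DirichletCharacter.LFunction_eq_completed_div_gammaFactor _ _ (Or.inr (one_lt_N d).ne')

theorem L_two_ne_zero (d : OddSqf) : L d 2 ≠ 0 :=
  DirichletCharacter.LFunction_ne_zero_of_one_le_re (chi8 d) (Or.inl (chi8_ne_one d)) (by simp)

theorem W_sq (d : OddSqf) : W d * W d = 1 := by
  set N := ((8 * d.1.natAbs : ℕ) : ℂ) with hN
  have hN0 : N ≠ 0 := by
    rw [hN]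
    exact_mod_cast (NeZero.ne (8 * d.1.natAbs))
  set c := DirichletCharacter.completedLFunction (chi8 d) with hc
  have h1 := completed_one_sub d 2
  have h2 := completed_one_sub d (1 - 2)
  rw [sub_sub_cancel, h1] at h2
  have hc2 : c 2 ≠ 0 := by
    have h3 := L_two_ne_zero d
    rw [L_eq] at h3
    intro h4
    have h4' : DirichletCharacter.completedLFunction (chi8 d) 2 = 0 := h4
    rw [h4', zero_div] at h3
    exact h3 rfl
  have h5 : N ^ ((1 : ℂ) - 2 - 1 / 2) * N ^ ((2 : ℂ) - 1 / 2) = 1 := by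
    rw [← cpow_add _ _ hN0]
    norm_num
  have h6 : c 2 = (W d * W d) * c 2 := by
    calc c 2 = N ^ ((1 : ℂ) - 2 - 1 / 2) * W d * (N ^ ((2 : ℂ) - 1 / 2) * W d * c 2) := h2
      _ = (N ^ ((1 : ℂ) - 2 - 1 / 2) * N ^ ((2 : ℂ) - 1 / 2)) * ((W d * W d) * c 2) := by ring
      _ = _ := by rw [h5, one_mul]
  have h7 := mul_right_cancel₀ hc2 ((one_mul (c 2)).trans h6)
  exact h7.symm

theorem W_eq (d : OddSqf) : W d = 1 ∨ W d = -1 := by
  have h := W_sq d
  exact mul_self_eq_one_iff.1 h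

theorem ne_neg_nat {s : ℂ} (hs : 0 < s.re) (n : ℕ) : s ≠ -(n : ℂ) := by
  rintro rfl
  simp at hs
  have : (0 : ℝ) ≤ n := Nat.cast_nonneg n
  linarith

/-- `cos (π s / 2)` or `sin (π s / 2)` -/
noncomputable def trig (d : OddSqf) (s : ℂ) : ℂ :=
  if 0 < d.1 then cos (Real.pi * s / 2) else sin (Real.pi * s / 2)

theorem L_one_sub (d : OddSqf) {s : ℂ} (hs : 0 < s.re) :
    L d (1 - s) = W d * (((8 * d.1.natAbs : ℕ) : ℂ) ^ (s - 1 / 2) * (Gammaℂ s * trig d s)) *
      L d s := by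
  rw [L_eq d (1 - s), completed_one_sub, L_eq d s]
  have hg := gammaFactor_ne_zero d hs
  have key : (DirichletCharacter.gammaFactor (chi8 d) (1 - s))⁻¹ =
      Gammaℂ s * trig d s * (DirichletCharacter.gammaFactor (chi8 d) s)⁻¹ := by
    unfold trig
    split_ifs with hd
    · rw [(chi8_even hd).gammaFactor_def, (chi8_even hd).gammaFactor_def]
      exact inv_Gammaℝ_one_sub (ne_neg_nat hs)
    · rw [(chi8_odd hd).gammaFactor_def, (chi8_odd hd).gammaFactor_def,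
        show (1 : ℂ) - s + 1 = 2 - s by ring]
      exact inv_Gammaℝ_two_sub (ne_neg_nat hs)
  rw [div_eq_mul_inv, key]
  field_simp

theorem natAbs_cast (d : OddSqf) : (((8 * d.1.natAbs : ℕ) : ℂ)) = ((8 * |(d.1 : ℝ)| : ℝ) : ℂ) := by
  have : ((d.1.natAbs : ℕ) : ℝ) = |(d.1 : ℝ)| := by
    rw [Nat.cast_natAbs]; push_cast; rfl
  rw [← this]
  push_cast
  rfl

theorem Xd_one_sub (d : OddSqf) {s : ℂ} (hs : 0 < s.re) :
    Xd d (1 - s) = ((8 * d.1.natAbs : ℕ) : ℂ) ^ (s - 1 / 2) * (Gammaℂ s * trig d s) := by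
  have hpi : (Real.pi : ℂ) ≠ 0 := by exact_mod_cast Real.pi_pos.ne'
  have hd0 : 0 < 8 * |(d.1 : ℝ)| := by
    have : (d.1 : ℝ) ≠ 0 := by exact_mod_cast d.ne_zero
    positivity
  have h1 : (8 * |(d.1 : ℝ)| / Real.pi : ℂ) ^ (1 / 2 - (1 - s)) =
      ((8 * |(d.1 : ℝ)| : ℝ) : ℂ) ^ (s - 1 / 2) * (Real.pi : ℂ) ^ (1 / 2 - s) := by
    have e : (8 * |(d.1 : ℝ)| / Real.pi : ℂ) = ((8 * |(d.1 : ℝ)| : ℝ) : ℂ) * ((Real.pi⁻¹ : ℝ) : ℂ) := by
      push_cast
      rw [div_eq_mul_inv]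
    rw [e, mul_cpow_ofReal_nonneg hd0.le (by positivity)]
    have e2 : (1 : ℂ) / 2 - (1 - s) = s - 1 / 2 := by ring
    rw [e2]
    congr 1
    rw [ofReal_inv, inv_cpow _ _ (by rw [arg_ofReal_of_nonneg Real.pi_pos.le]; exact Real.pi_pos.ne),
      ← cpow_neg]
    congr 1
    ring
  have key : (Real.pi : ℂ) ^ (1 / 2 - s) * (Gamma ((1 + aa d - (1 - s)) / 2) *
      (Gamma ((aa d + (1 - s)) / 2))⁻¹) = Gammaℂ s * trig d s := by
    unfold trig aa
    split_ifs with hd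
    · have h := inv_Gammaℝ_one_sub (ne_neg_nat hs)
      have h2 : Gammaℂ s * cos (Real.pi * s / 2) = Gammaℝ s * (Gammaℝ (1 - s))⁻¹ := by
        rw [h]
        have := Gammaℝ_ne_zero_of_re_pos hs
        field_simp
      rw [h2, Gammaℝ_def, Gammaℝ_def, mul_inv, ← cpow_neg]
      have e1 : ((1 : ℂ) + 0 - (1 - s)) / 2 = s / 2 := by ring
      have e2 : ((0 : ℂ) + (1 - s)) / 2 = (1 - s) / 2 := by ring
      rw [e1, e2]
      have e3 : (Real.pi : ℂ) ^ (1 / 2 - s) = (Real.pi : ℂ) ^ (-s / 2) *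
          (Real.pi : ℂ) ^ (-(-(1 - s) / 2)) := by
        rw [← cpow_add _ _ hpi]
        congr 1
        ring
      rw [e3]
      ring
    · have h := inv_Gammaℝ_two_sub (ne_neg_nat hs)
      have h2 : Gammaℂ s * sin (Real.pi * s / 2) = Gammaℝ (s + 1) * (Gammaℝ (2 - s))⁻¹ := by
        rw [h]
        have : Gammaℝ (s + 1) ≠ 0 := Gammaℝ_ne_zero_of_re_pos (by simp; linarith)
        field_simp
      rw [h2, Gammaℝ_def, Gammaℝ_def, mul_inv, ← cpow_neg]
      have e1 : ((1 : ℂ) + 1 - (1 - s)) / 2 = (s + 1) / 2 := by ring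
      have e2 : ((1 : ℂ) + (1 - s)) / 2 = (2 - s) / 2 := by ring
      rw [e1, e2]
      have e3 : (Real.pi : ℂ) ^ (1 / 2 - s) = (Real.pi : ℂ) ^ (-(s + 1) / 2) *
          (Real.pi : ℂ) ^ (-(-(2 - s) / 2)) := by
        rw [← cpow_add _ _ hpi]
        congr 1
        ring
      rw [e3]
      ring
  unfold Xd
  rw [h1, natAbs_cast, mul_assoc, mul_assoc, key]

/-- the factor `1 + e^(π i s)` or `i (1 - e^(π i s))` -/
noncomputable def ee (d : OddSqf) (s : ℂ) : ℂ :=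
  if 0 < d.1 then 1 + exp (Real.pi * I * s) else I * (1 - exp (Real.pi * I * s))

/-- the entire function `(2 π)^s e^(π i s / 2) / Γ(s)` -/
noncomputable def HH (s : ℂ) : ℂ :=
  (2 * Real.pi : ℂ) ^ s * exp (Real.pi * I * s / 2) * (Gamma s)⁻¹

theorem HH_mul_Xd (d : OddSqf) {s : ℂ} (hs : 0 < s.re) :
    HH s * Xd d (1 - s) = ((8 * d.1.natAbs : ℕ) : ℂ) ^ (s - 1 / 2) * ee d s := by
  have hpi : (2 * Real.pi : ℂ) ≠ 0 := by
    have : (Real.pi : ℂ) ≠ 0 := by exact_mod_cast Real.pi_pos.ne'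
    simp
  rw [Xd_one_sub d hs]
  unfold HH
  have hG : Gamma s ≠ 0 := Gamma_ne_zero_of_re_pos hs
  have h1 : (2 * Real.pi : ℂ) ^ s * (Gamma s)⁻¹ * Gammaℂ s = 2 := by
    rw [Gammaℂ_def]
    have : (2 * Real.pi : ℂ) ^ s * (2 * Real.pi : ℂ) ^ (-s) = 1 := by
      rw [← cpow_add _ _ hpi]; simp
    calc _ = ((2 * Real.pi : ℂ) ^ s * (2 * Real.pi : ℂ) ^ (-s)) * 2 * ((Gamma s)⁻¹ * Gamma s) := by
          ring
      _ = _ := by rw [this, inv_mul_cancel₀ hG]; ring
  have h2 : 2 * exp (Real.pi * I * s / 2) * trig d s = ee d s := by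
    have e1 : exp (Real.pi * I * s / 2) * exp (Real.pi * I * s / 2) = exp (Real.pi * I * s) := by
      rw [← exp_add]; congr 1; ring
    have e2 : exp (Real.pi * I * s / 2) * exp (-(Real.pi * I * s / 2)) = 1 := by
      rw [← exp_add]; simp
    unfold trig ee
    split_ifs with hd
    · rw [cos]
      have a1 : (Real.pi : ℂ) * s / 2 * I = Real.pi * I * s / 2 := by ring
      have a2 : -((Real.pi : ℂ) * s / 2) * I = -(Real.pi * I * s / 2) := by ring
      rw [a1, a2]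
      linear_combination e1 + e2
    · rw [sin]
      have a1 : (Real.pi : ℂ) * s / 2 * I = Real.pi * I * s / 2 := by ring
      have a2 : -((Real.pi : ℂ) * s / 2) * I = -(Real.pi * I * s / 2) := by ring
      rw [a1, a2]
      linear_combination (-I) * e1 + I * e2
  calc _ = ((2 * Real.pi : ℂ) ^ s * (Gamma s)⁻¹ * Gammaℂ s) * exp (Real.pi * I * s / 2) *
        trig d s * ((8 * d.1.natAbs : ℕ) : ℂ) ^ (s - 1 / 2) := by ring
    _ = (2 * exp (Real.pi * I * s / 2) * trig d s) * ((8 * d.1.natAbs : ℕ) : ℂ) ^ (s - 1 / 2) := by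
        rw [h1]
    _ = _ := by rw [h2]; ring

theorem L_one_sub' (d : OddSqf) {s : ℂ} (hs : 0 < s.re) :
    L d (1 - s) = W d * Xd d (1 - s) * L d s := by
  rw [L_one_sub d hs, Xd_one_sub d hs]

end Pool.Agent.H491R3
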