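import Pool.Agent.H491R3.Lower

set_option autoImplicit false

namespace Pool.Agent.H491R3

open Finset Complex

theorem vv_window {w : ℝ → ℝ} (hw : Wt w) {r : ℕ} (hr : 1 ≤ r) {e : OddSqf} (he : e ∈ Sr r) :
    vv w r e = w (e.1 / (r : ℝ) ^ 100) / W1 w r := by
  have hX : (0 : ℝ) < (r : ℝ) ^ 100 := by
    have : (0 : ℝ) < r := by exact_mod_cast hr
    positivity
  unfold vv
  have h : w (e.1 / ((r : ℝ) ^ 100 / 4)) = 0 := by
    by_contra h
    obtain ⟨-, h2⟩ := hw.supp _ h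
    obtain ⟨-, -, h3, -⟩ := Sr_window he
    rw [abs_div, abs_of_pos (show (0 : ℝ) < (r : ℝ) ^ 100 / 4 by positivity),
      div_lt_iff₀ (by positivity)] at h2
    linarith
  rw [h, zero_div, sub_zero]

theorem part_two {w : ℝ → ℝ} (hw : Wt w) {r : ℕ} (hr : 1 ≤ r) {d e : OddSqf} (he : e ∈ Sr r)
    (hd : w (d.1 / ((r : ℝ) ^ 100 / 4)) ≠ 0) :
    Real.exp (-(((r : ℝ) ^ 96) ^ 2 * (ll d e) ^ 2 / 4)) ≤
      Real.exp (-(((r : ℝ) ^ 96) ^ 2 / 16)) := by
  have hX : (0 : ℝ) < (r : ℝ) ^ 100 := by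
    have : (0 : ℝ) < r := by exact_mod_cast hr
    positivity
  obtain ⟨-, h2⟩ := hw.supp _ hd
  obtain ⟨-, -, h3, -⟩ := Sr_window he
  rw [abs_div, abs_of_pos (show (0 : ℝ) < (r : ℝ) ^ 100 / 4 by positivity),
    div_lt_iff₀ (by positivity)] at h2
  have hd0 : 0 < |(d.1 : ℝ)| := by
    have : (d.1 : ℝ) ≠ 0 := by exact_mod_cast d.2.2.ne_zero
    positivity
  have he0 : 0 < |(e.1 : ℝ)| := by linarith
  have h4 := Real.one_sub_inv_le_log_of_pos (show 0 < |(e.1 : ℝ)| / |(d.1 : ℝ)| by positivity)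
  rw [Real.log_div he0.ne' hd0.ne', inv_div] at h4
  have h5 : |(d.1 : ℝ)| / |(e.1 : ℝ)| ≤ 1 / 2 := by
    rw [div_le_iff₀ he0]
    linarith
  have h6 : 1 / 2 ≤ -ll d e := by unfold ll; linarith
  have h7 : 1 / 4 ≤ (ll d e) ^ 2 := by nlinarith
  apply Real.exp_le_exp.2
  have h8 : ((r : ℝ) ^ 96) ^ 2 * (1 / 4) ≤ ((r : ℝ) ^ 96) ^ 2 * (ll d e) ^ 2 := by gcongr
  linarith

theorem off_le_two {w : ℝ → ℝ} (hw : Wt w) {r : ℕ} (hr : 1 ≤ r) {d : OddSqf}
    (hd : w (d.1 / ((r : ℝ) ^ 100 / 4)) ≠ 0) :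
    ∑ e ∈ Sr r, off r d e ≤
      (r : ℝ) ^ 100 * (#(PQ r) * Real.exp (-(((r : ℝ) ^ 96) ^ 2 / 16))) := by
  have h1 : ∀ e ∈ Sr r, off r d e ≤ #(PQ r) * Real.exp (-(((r : ℝ) ^ 96) ^ 2 / 16)) := by
    intro e he
    unfold off
    split_ifs
    · positivity
    · exact mul_le_mul (GG_le r d e) (part_two hw hr he hd) (Real.exp_pos _).le (Nat.cast_nonneg _)
  refine (sum_le_sum h1).trans ?_
  rw [sum_const, nsmul_eq_mul]
  exact mul_le_mul_of_nonneg_right (Sr_card r) (by positivity)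

theorem lower_main {w : ℝ → ℝ} (hw : Wt w) {r : ℕ} (hr : 3 ≤ r)
    (hW1 : (r : ℝ) ^ 100 / 100 ≤ W1 w r) (hW2 : (r : ℝ) ^ 100 / 400 ≤ W2 w r) :
    ((#(PQ r) : ℝ) - 10) / 2 - (13600 * (r : ℝ) ^ 4 * Real.sqrt #(PQ r) +
      400 * (r : ℝ) ^ 100 * #(PQ r) * kg ((r : ℝ) ^ 4) ((r : ℝ) ^ 10) +
      (r : ℝ) ^ 100 * #(PQ r) * Real.exp (-(((r : ℝ) ^ 96) ^ 2 / 16))) ≤
    ‖∑ p ∈ PQ r, mm w r p‖ := by
  classical
  have hr0 : (0 : ℝ) < r := by exact_mod_cast (by omega : 0 < r)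
  have hX : (0 : ℝ) < (r : ℝ) ^ 100 := by positivity
  have hW1p : 0 < W1 w r := lt_of_lt_of_le (by positivity) hW1
  have hW2p : 0 < W2 w r := lt_of_lt_of_le (by positivity) hW2
  refine le_trans ?_ (re_le_norm _)
  rw [sum_mm, re_sum]
  simp_rw [re_sum]
  have hlow : ∑ d ∈ Dr r, ∑ e ∈ Sr r, ((if d = e then vv w r d * GG r d d else 0) -
      |vv w r d| * off r d e) ≤ ∑ d ∈ Dr r, ∑ e ∈ Sr r,
      (((vv w r d * Wr d * Wr e * GG r d e : ℝ) : ℂ) *
      (sg d * Kap ((r : ℝ) ^ 96) ((r : ℝ) ^ 98) (ll d e))).re := by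
    apply sum_le_sum
    intro d _
    apply sum_le_sum
    intro e he
    refine le_trans (le_of_eq ?_) (term_lower w r (Sr_window he).2.1)
    congr 1
    unfold off
    split_ifs
    · rw [mul_zero]
    · ring
  refine le_trans ?_ hlow
  simp_rw [sum_sub_distrib]
  -- the diagonal
  have hdiag : ((#(PQ r) : ℝ) - 10) / 2 ≤
      ∑ d ∈ Dr r, ∑ e ∈ Sr r, (if d = e then vv w r d * GG r d d else 0) := by
    rw [sum_comm]
    have h1 : ∀ e ∈ Sr r, w (e.1 / (r : ℝ) ^ 100) * (((#(PQ r) : ℝ) - 10) / W1 w r) ≤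
        ∑ d ∈ Dr r, (if d = e then vv w r d * GG r d d else 0) := by
      intro e he
      have heD : e ∈ Dr r := (mem_Sr.1 he).1
      rw [sum_ite_eq', if_pos heD, vv_window hw (by omega) he]
      have h2 := GG_diag hr heD
      have h3 := hw.nonneg (e.1 / (r : ℝ) ^ 100)
      calc w (e.1 / (r : ℝ) ^ 100) * (((#(PQ r) : ℝ) - 10) / W1 w r) =
          w (e.1 / (r : ℝ) ^ 100) / W1 w r * ((#(PQ r) : ℝ) - 10) := by ring
        _ ≤ _ := mul_le_mul_of_nonneg_left h2 (div_nonneg h3 hW1p.le)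
    refine le_trans (le_of_eq ?_) (sum_le_sum h1)
    rw [← sum_mul, half_weight hw (by omega)]
    field_simp
  -- the off-diagonal part
  have hoff : ∑ d ∈ Dr r, ∑ e ∈ Sr r, |vv w r d| * off r d e ≤
      13600 * (r : ℝ) ^ 4 * Real.sqrt #(PQ r) +
      400 * (r : ℝ) ^ 100 * #(PQ r) * kg ((r : ℝ) ^ 4) ((r : ℝ) ^ 10) +
      (r : ℝ) ^ 100 * #(PQ r) * Real.exp (-(((r : ℝ) ^ 96) ^ 2 / 16)) := by
    simp_rw [← mul_sum]
    set S : OddSqf → ℝ := fun d => ∑ e ∈ Sr r, off r d e with hS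
    have hS0 : ∀ d, 0 ≤ S d := fun d => sum_nonneg fun e _ => off_nonneg r d e
    have hv : ∀ d, |vv w r d| ≤ w (d.1 / (r : ℝ) ^ 100) / W1 w r +
        w (d.1 / ((r : ℝ) ^ 100 / 4)) / W2 w r := by
      intro d
      unfold vv
      refine (abs_sub _ _).trans ?_
      rw [abs_of_nonneg (div_nonneg (hw.nonneg _) hW1p.le),
        abs_of_nonneg (div_nonneg (hw.nonneg _) hW2p.le)]
    have h1 : ∑ d ∈ Dr r, |vv w r d| * S d ≤ ∑ d ∈ Dr r, w (d.1 / (r : ℝ) ^ 100) / W1 w r * S d +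
        ∑ d ∈ Dr r, w (d.1 / ((r : ℝ) ^ 100 / 4)) / W2 w r * S d := by
      rw [← sum_add_distrib]
      apply sum_le_sum
      intro d _
      rw [← add_mul]
      exact mul_le_mul_of_nonneg_right (hv d) (hS0 d)
    -- first block
    have h2 : ∑ d ∈ Dr r, w (d.1 / (r : ℝ) ^ 100) / W1 w r * S d ≤
        (∑ n ∈ Ico (r ^ 100) (2 * r ^ 100), HP r 1 n +
         ∑ n ∈ Ico (r ^ 100) (2 * r ^ 100), HP r (-1) n) / W1 w r := by
      set A := (Dr r).filter (fun d => w (d.1 / (r : ℝ) ^ 100) ≠ 0 ∧ 0 < d.1) with hA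
      set B := (Dr r).filter (fun d => w (d.1 / (r : ℝ) ^ 100) ≠ 0 ∧ ¬ 0 < d.1) with hB
      have hwin : ∀ d : OddSqf, w (d.1 / (r : ℝ) ^ 100) ≠ 0 →
          (r : ℝ) ^ 100 < |(d.1 : ℝ)| ∧ |(d.1 : ℝ)| < 3 / 2 * (r : ℝ) ^ 100 := by
        intro d hd
        obtain ⟨a, b⟩ := hw.supp _ hd
        rw [abs_div, abs_of_pos hX] at a b
        rw [lt_div_iff₀ hX] at a
        rw [div_lt_iff₀ hX] at b
        exact ⟨by linarith, b⟩
      have hwin2 : ∀ d : OddSqf, w (d.1 / (r : ℝ) ^ 100) ≠ 0 →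
          d.1.natAbs ∈ Ico (r ^ 100) (2 * r ^ 100) := by
        intro d hd
        obtain ⟨a, b⟩ := hwin d hd
        rw [abs_natAbs] at a b
        rw [mem_Ico]
        constructor
        · exact_mod_cast a.le
        · have : ((d.1.natAbs : ℕ) : ℝ) < ((2 * r ^ 100 : ℕ) : ℝ) := by push_cast; linarith
          exact_mod_cast this
      have h3 : ∑ d ∈ Dr r, w (d.1 / (r : ℝ) ^ 100) / W1 w r * S d ≤
          ∑ d ∈ A, HP r 1 d.1.natAbs / W1 w r + ∑ d ∈ B, HP r (-1) d.1.natAbs / W1 w r := by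
        rw [hA, hB, sum_filter, sum_filter, ← sum_add_distrib]
        apply sum_le_sum
        intro d _
        by_cases hz : w (d.1 / (r : ℝ) ^ 100) = 0
        · rw [hz, zero_div, zero_mul, if_neg (by simp), if_neg (by simp), add_zero]
        · obtain ⟨a, b⟩ := hwin d hz
          have hle : w (d.1 / (r : ℝ) ^ 100) / W1 w r ≤ 1 / W1 w r := by
            exact div_le_div_of_nonneg_right (hw.le_one (d.1 / (r : ℝ) ^ 100)) hW1p.le
          by_cases hpos : 0 < d.1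
          · rw [if_pos ⟨hz, hpos⟩, if_neg (by tauto), add_zero]
            have hσ : d.1 = 1 * d.1.natAbs := by omega
            have h4 := off_sum_le (r := r) (by omega) hσ (by linarith)
            calc w (d.1 / (r : ℝ) ^ 100) / W1 w r * S d ≤ 1 / W1 w r * HP r 1 d.1.natAbs :=
                  mul_le_mul hle h4 (hS0 d) (div_nonneg zero_le_one hW1p.le)
              _ = _ := by ring
          · rw [if_neg (by tauto), if_pos ⟨hz, hpos⟩, zero_add]
            have hσ : d.1 = (-1) * d.1.natAbs := by omega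
            have h4 := off_sum_le (r := r) (by omega) hσ (by linarith)
            calc w (d.1 / (r : ℝ) ^ 100) / W1 w r * S d ≤ 1 / W1 w r * HP r (-1) d.1.natAbs :=
                  mul_le_mul hle h4 (hS0 d) (div_nonneg zero_le_one hW1p.le)
              _ = _ := by ring
      refine h3.trans ?_
      rw [add_div]
      have hAsum := sum_inj A (Ico (r ^ 100) (2 * r ^ 100)) (fun n => HP r 1 n / W1 w r)
        (fun n => div_nonneg (HP_nonneg _ _ _) hW1p.le)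
        (fun d hd => hwin2 d (by rw [hA, mem_filter] at hd; exact hd.2.1))
        (Or.inl fun d hd => by rw [hA, mem_filter] at hd; exact hd.2.2)
      have hBsum := sum_inj B (Ico (r ^ 100) (2 * r ^ 100)) (fun n => HP r (-1) n / W1 w r)
        (fun n => div_nonneg (HP_nonneg _ _ _) hW1p.le)
        (fun d hd => hwin2 d (by rw [hB, mem_filter] at hd; exact hd.2.1))
        (Or.inr fun d hd => by
          rw [hB, mem_filter] at hd
          have h5 := hd.2.2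
          have h6 := OddSqf.ne_zero d
          omega)
      simp only [← sum_div] at hAsum hBsum ⊢
      exact add_le_add hAsum hBsum
    have h4 : (∑ n ∈ Ico (r ^ 100) (2 * r ^ 100), HP r 1 n +
         ∑ n ∈ Ico (r ^ 100) (2 * r ^ 100), HP r (-1) n) / W1 w r ≤
         13600 * (r : ℝ) ^ 4 * Real.sqrt #(PQ r) +
         400 * (r : ℝ) ^ 100 * #(PQ r) * kg ((r : ℝ) ^ 4) ((r : ℝ) ^ 10) := by
      have a1 := HP_sum (r := r) (by omega) 1
      have a2 := HP_sum (r := r) (by omega) (-1)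
      set Z := 68 * (r : ℝ) ^ 4 * (r : ℝ) ^ 100 * Real.sqrt #(PQ r) +
        2 * ((r : ℝ) ^ 100) ^ 2 * #(PQ r) * kg ((r : ℝ) ^ 4) ((r : ℝ) ^ 10) with hZ
      have hZ0 : 0 ≤ Z := by
        have := kg_pos ((r : ℝ) ^ 4) ((r : ℝ) ^ 10)
        positivity
      calc _ ≤ (Z + Z) / ((r : ℝ) ^ 100 / 100) :=
            div_le_div₀ (add_nonneg hZ0 hZ0) (add_le_add a1 a2) (by positivity) hW1
        _ = _ := by
          rw [hZ]
          field_simp
          ring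
    -- second block
    have h5 : ∑ d ∈ Dr r, w (d.1 / ((r : ℝ) ^ 100 / 4)) / W2 w r * S d ≤
        (r : ℝ) ^ 100 * #(PQ r) * Real.exp (-(((r : ℝ) ^ 96) ^ 2 / 16)) := by
      have h6 : ∀ d ∈ Dr r, w (d.1 / ((r : ℝ) ^ 100 / 4)) / W2 w r * S d ≤
          w (d.1 / ((r : ℝ) ^ 100 / 4)) *
          ((r : ℝ) ^ 100 * (#(PQ r) * Real.exp (-(((r : ℝ) ^ 96) ^ 2 / 16))) / W2 w r) := by
        intro d _
        by_cases hz : w (d.1 / ((r : ℝ) ^ 100 / 4)) = 0
        · rw [hz]; simp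
        · have h7 := off_le_two hw (by omega) hz
          have h8 := hw.nonneg (d.1 / ((r : ℝ) ^ 100 / 4))
          calc w (d.1 / ((r : ℝ) ^ 100 / 4)) / W2 w r * S d ≤ w (d.1 / ((r : ℝ) ^ 100 / 4)) / W2 w r *
              ((r : ℝ) ^ 100 * (#(PQ r) * Real.exp (-(((r : ℝ) ^ 96) ^ 2 / 16)))) :=
                mul_le_mul_of_nonneg_left h7 (div_nonneg h8 hW2p.le)
            _ = _ := by ring
      refine (sum_le_sum h6).trans (le_of_eq ?_)
      rw [← sum_mul]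
      have : ∑ d ∈ Dr r, w (d.1 / ((r : ℝ) ^ 100 / 4)) = W2 w r := rfl
      rw [this]
      field_simp
    linarith
  linarith

end Pool.Agent.H491R3
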