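import Pool.Agent.H491R3.Setup

set_option autoImplicit false

namespace Pool.Agent.H491R3

open Finset

theorem PQ_card_lower : ∀ r : ℕ, 20000 ≤ r → (r : ℝ) ^ 19 ≤ #(PQ r) := by
  intro r hr
  have hr' : (20000 : ℝ) ≤ r := by exact_mod_cast hr
  have hr0 : (0 : ℝ) < r := by linarith
  have hr1 : (1 : ℝ) ≤ r := by linarith
  have h1 := Chebyshev.pi_ge (r ^ 20)
  have hlog : Real.log r ≤ r / 60 := by
    have h2 := Real.log_le_sub_one_of_pos (Real.sqrt_pos.2 hr0)
    have h3 : Real.log (Real.sqrt r) = Real.log r / 2 := Real.log_sqrt hr0.le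
    have h4 : Real.sqrt r * Real.sqrt r = r := Real.mul_self_sqrt hr0.le
    have h5 : 120 ≤ Real.sqrt r := by
      apply Real.le_sqrt_of_sq_le
      linarith
    nlinarith
  have hlogpos : 0 < Real.log r := Real.log_pos (by linarith)
  have hlog20 : Real.log ((r ^ 20 : ℕ) : ℝ) = 20 * Real.log r := by
    push_cast
    rw [Real.log_pow]
    push_cast
    ring
  have hcast : ((r ^ 20 : ℕ) : ℝ) = (r : ℝ) ^ 20 := by push_cast; rfl
  have hlog1 : Real.log (((r ^ 20 : ℕ) : ℝ) + 1) ≤ 1 / 100 * (r : ℝ) ^ 20 := by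
    have h2 : Real.log (((r ^ 20 : ℕ) : ℝ) + 1) ≤ Real.log ((r : ℝ) ^ 21) := by
      apply Real.log_le_log (by positivity)
      rw [hcast]
      have : 1 ≤ (r : ℝ) ^ 20 := one_le_pow₀ hr1
      calc (r : ℝ) ^ 20 + 1 ≤ r * (r : ℝ) ^ 20 := by nlinarith
        _ = (r : ℝ) ^ 21 := by ring
    rw [Real.log_pow] at h2
    push_cast at h2
    have h3 : (r : ℝ) ^ 2 ≤ (r : ℝ) ^ 20 := pow_le_pow_right₀ hr1 (by norm_num)
    push_cast
    nlinarith
  have hlog2 : 0.69 < Real.log 2 := by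
    have := Real.log_two_gt_d9
    linarith
  have h20 : 0 < (r : ℝ) ^ 20 := by positivity
  have hnum : 0.68 * (r : ℝ) ^ 20 ≤
      ((r ^ 20 : ℕ) : ℝ) * Real.log 2 - Real.log (((r ^ 20 : ℕ) : ℝ) + 1) := by
    rw [hcast] at hlog1 ⊢
    nlinarith
  have hmain : 2 * (r : ℝ) ^ 19 ≤ (Nat.primeCounting (r ^ 20) : ℝ) := by
    refine le_trans ?_ h1
    rw [hlog20, le_div_iff₀ (by positivity)]
    refine le_trans ?_ hnum
    have : (r : ℝ) ^ 20 = (r : ℝ) ^ 19 * r := by ring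
    rw [this]
    have h19 : 0 < (r : ℝ) ^ 19 := by positivity
    nlinarith [mul_le_mul_of_nonneg_left hlog h19.le]
  -- the primes in the interval
  have hcard : Nat.primeCounting (r ^ 20) ≤ #(PQ r) + r ^ 10 := by
    have e1 : Nat.primeCounting (r ^ 20) = #(Nat.primesLE (r ^ 20)) := by simp
    rw [e1]
    have hsub : Nat.primesLE (r ^ 20) ⊆ PQ r ∪ Ioc 0 (r ^ 10) := by
      intro p hp
      rw [Nat.mem_primesLE] at hp
      rw [mem_union]
      by_cases h : p ≤ r ^ 10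
      · right
        rw [mem_Ioc]
        exact ⟨hp.2.pos, h⟩
      · left
        unfold PQ
        rw [mem_filter, mem_Ioc]
        exact ⟨⟨by omega, hp.1⟩, hp.2⟩
    refine (card_le_card hsub).trans ((card_union_le _ _).trans ?_)
    rw [Nat.card_Ioc, Nat.sub_zero]
  have hcard' : (Nat.primeCounting (r ^ 20) : ℝ) ≤ #(PQ r) + (r : ℝ) ^ 10 := by exact_mod_cast hcard
  have h10 : (r : ℝ) ^ 10 ≤ (r : ℝ) ^ 19 := pow_le_pow_right₀ hr1 (by norm_num)
  linarith

end Pool.Agent.H491R3
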