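import Mathlib

set_option autoImplicit false

namespace Pool.Agent.H491R3

open Real

theorem exp_half_le : exp (1 / 2) ≤ 2 := by
  have h3 : exp (1 / 2) ^ 2 ≤ 2 ^ 2 := by
    rw [← exp_nat_mul]
    norm_num
    have := exp_one_lt_d9
    linarith
  exact le_of_sq_le_sq h3 (by norm_num)

theorem geo_small {r : ℝ} (hr : 0 ≤ r) : (3 / 2 : ℝ) ^ r * (2 : ℝ) ^ (-r) ≤ exp (-(r / 4)) := by
  rw [rpow_def_of_pos (by norm_num), rpow_def_of_pos (by norm_num), ← exp_add]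
  apply exp_le_exp.2
  have h1 : log (3 / 2) - log 2 = -log (4 / 3) := by
    rw [← log_div (by norm_num) (by norm_num), ← log_inv]
    norm_num
  have h2 := one_sub_inv_le_log_of_pos (show (0 : ℝ) < 4 / 3 by norm_num)
  have h3 : (1 : ℝ) / 4 ≤ log (4 / 3) := by
    refine le_trans ?_ h2
    norm_num
  nlinarith

theorem three_half_le {r : ℝ} (hr : 0 ≤ r) : (3 / 2 : ℝ) ^ r ≤ exp (r / 2) := by
  rw [rpow_def_of_pos (by norm_num)]
  apply exp_le_exp.2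
  have h2 := log_le_sub_one_of_pos (show (0 : ℝ) < 3 / 2 by norm_num)
  have h3 : log (3 / 2) ≤ 1 / 2 := by linarith
  nlinarith

theorem beta_err {r C M : ℝ} (hr : 1000 ≤ r) (hC0 : 0 ≤ C) (hM0 : 0 ≤ M)
    (hC : C ≤ r * (2 : ℝ) ^ (-r)) (hM : M ≤ r ^ 199) :
    2 * r ^ 97 * (exp (r ^ 2 / (r ^ 96) ^ 2) * 2 * (3 / 2) ^ r * C) +
      2 * ((r - 1 / 5) * (exp ((r ^ 2 - (r ^ 97) ^ 2) / (r ^ 96) ^ 2) * 2 * (3 / 2) ^ r * M)) +
      2 * r ^ 97 * (exp ((1 / 5) ^ 2 / (r ^ 96) ^ 2) * exp (-(π * (r ^ 98 - r ^ 97))) *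
        (3 / 2) ^ (1 / 5 : ℝ)) +
      exp ((1 / 5) ^ 2 / (r ^ 96) ^ 2) * (3 / 2) ^ (1 / 5 : ℝ) *
        exp (-((r ^ 97) ^ 2 / (2 * (r ^ 96) ^ 2))) * (sqrt (2 * π) * r ^ 96) ≤
    r ^ 202 * exp (-(r / 4)) := by
  have hr0 : 0 < r := by linarith
  have hr1 : 1 ≤ r := by linarith
  set τ := exp (-(r / 4)) with hτ
  have hτ0 : 0 < τ := exp_pos _
  have e1 : exp (r ^ 2 / (r ^ 96) ^ 2) ≤ 2 := by
    refine le_trans (exp_le_exp.2 ?_) exp_half_le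
    rw [div_le_iff₀ (by positivity)]
    have h1 : r ^ 2 * 1000 ≤ (r ^ 96) ^ 2 := by
      calc r ^ 2 * 1000 ≤ r ^ 2 * r := by gcongr
        _ = r ^ 3 := by ring
        _ ≤ r ^ 192 := pow_le_pow_right₀ hr1 (by norm_num)
        _ = (r ^ 96) ^ 2 := by ring
    have h2 : 0 < r ^ 2 := by positivity
    linarith
  have e2 : exp ((1 / 5) ^ 2 / (r ^ 96) ^ 2) ≤ 2 := by
    refine le_trans (exp_le_exp.2 ?_) exp_half_le
    rw [div_le_iff₀ (by positivity)]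
    have : (1 : ℝ) ≤ (r ^ 96) ^ 2 := by
      rw [← pow_mul]; exact one_le_pow₀ hr1
    linarith
  have e3 : (3 / 2 : ℝ) ^ (1 / 5 : ℝ) ≤ 2 := by
    calc (3 / 2 : ℝ) ^ (1 / 5 : ℝ) ≤ (3 / 2 : ℝ) ^ (1 : ℝ) :=
          rpow_le_rpow_of_exponent_le (by norm_num) (by norm_num)
      _ = 3 / 2 := rpow_one _
      _ ≤ 2 := by norm_num
  have e4 : exp ((r ^ 2 - (r ^ 97) ^ 2) / (r ^ 96) ^ 2) * (3 / 2) ^ r ≤ 2 * τ := by
    have h1 : (r ^ 2 - (r ^ 97) ^ 2) / (r ^ 96) ^ 2 = r ^ 2 / (r ^ 96) ^ 2 + -(r ^ 2) := by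
      field_simp
      ring
    rw [h1, exp_add]
    have h2 := three_half_le hr0.le
    calc exp (r ^ 2 / (r ^ 96) ^ 2) * exp (-(r ^ 2)) * (3 / 2) ^ r ≤
        2 * exp (-(r ^ 2)) * exp (r / 2) := by gcongr
      _ = 2 * exp (-(r ^ 2) + r / 2) := by rw [exp_add]; ring
      _ ≤ 2 * τ := by
        rw [hτ]
        have : -(r ^ 2) + r / 2 ≤ -(r / 4) := by nlinarith
        have := exp_le_exp.2 this
        linarith
  have e5 : exp (-(π * (r ^ 98 - r ^ 97))) ≤ τ := by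
    apply exp_le_exp.2
    have h1 : r ^ 98 - r ^ 97 = r ^ 97 * (r - 1) := by ring
    have h2 : r ≤ r ^ 97 := by
      calc r = r ^ 1 := (pow_one r).symm
        _ ≤ r ^ 97 := pow_le_pow_right₀ hr1 (by norm_num)
    have h3 : r ≤ r ^ 97 * (r - 1) := by nlinarith
    have h4 : 3 < π := pi_gt_three
    rw [h1]
    nlinarith
  have e6 : exp (-((r ^ 97) ^ 2 / (2 * (r ^ 96) ^ 2))) ≤ τ := by
    apply exp_le_exp.2
    have h1 : (r ^ 97) ^ 2 / (2 * (r ^ 96) ^ 2) = r ^ 2 / 2 := by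
      field_simp
    rw [h1]
    nlinarith
  have e7 : sqrt (2 * π) ≤ 3 := by
    rw [sqrt_le_left (by norm_num)]
    have := pi_lt_d2
    linarith
  have t1 : 2 * r ^ 97 * (exp (r ^ 2 / (r ^ 96) ^ 2) * 2 * (3 / 2) ^ r * C) ≤ 8 * r ^ 200 * τ := by
    calc 2 * r ^ 97 * (exp (r ^ 2 / (r ^ 96) ^ 2) * 2 * (3 / 2) ^ r * C) ≤
        2 * r ^ 97 * (2 * 2 * (3 / 2) ^ r * (r * (2 : ℝ) ^ (-r))) := by gcongr
      _ = 8 * r ^ 98 * ((3 / 2) ^ r * (2 : ℝ) ^ (-r)) := by ring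
      _ ≤ 8 * r ^ 98 * τ := by
        have := geo_small hr0.le
        gcongr
      _ ≤ 8 * r ^ 200 * τ := by
        have : r ^ 98 ≤ r ^ 200 := pow_le_pow_right₀ hr1 (by norm_num)
        gcongr
  have t2 : 2 * ((r - 1 / 5) * (exp ((r ^ 2 - (r ^ 97) ^ 2) / (r ^ 96) ^ 2) * 2 * (3 / 2) ^ r * M)) ≤
      8 * r ^ 200 * τ := by
    calc 2 * ((r - 1 / 5) * (exp ((r ^ 2 - (r ^ 97) ^ 2) / (r ^ 96) ^ 2) * 2 * (3 / 2) ^ r * M)) =
        4 * (r - 1 / 5) * ((exp ((r ^ 2 - (r ^ 97) ^ 2) / (r ^ 96) ^ 2) * (3 / 2) ^ r) * M) := by ring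
      _ ≤ 4 * r * ((2 * τ) * r ^ 199) := by
        apply mul_le_mul _ _ (by positivity) (by positivity)
        · linarith
        · exact mul_le_mul e4 hM hM0 (by positivity)
      _ = _ := by ring
  have t3 : 2 * r ^ 97 * (exp ((1 / 5) ^ 2 / (r ^ 96) ^ 2) * exp (-(π * (r ^ 98 - r ^ 97))) *
        (3 / 2) ^ (1 / 5 : ℝ)) ≤ 8 * r ^ 200 * τ := by
    calc _ ≤ 2 * r ^ 97 * (2 * τ * 2) := by gcongr
      _ = 8 * r ^ 97 * τ := by ring
      _ ≤ 8 * r ^ 200 * τ := by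
        have : r ^ 97 ≤ r ^ 200 := pow_le_pow_right₀ hr1 (by norm_num)
        gcongr
  have t4 : exp ((1 / 5) ^ 2 / (r ^ 96) ^ 2) * (3 / 2) ^ (1 / 5 : ℝ) *
        exp (-((r ^ 97) ^ 2 / (2 * (r ^ 96) ^ 2))) * (sqrt (2 * π) * r ^ 96) ≤ 12 * r ^ 200 * τ := by
    calc _ ≤ 2 * 2 * τ * (3 * r ^ 96) := by gcongr
      _ = 12 * r ^ 96 * τ := by ring
      _ ≤ 12 * r ^ 200 * τ := by
        have : r ^ 96 ≤ r ^ 200 := pow_le_pow_right₀ hr1 (by norm_num)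
        gcongr
  have t5 : 36 * r ^ 200 * τ ≤ r ^ 202 * τ := by
    apply mul_le_mul_of_nonneg_right _ hτ0.le
    have : 36 * r ^ 200 ≤ r ^ 2 * r ^ 200 := by
      have h1 : 36 ≤ r ^ 2 := by nlinarith
      have h2 : 0 < r ^ 200 := by positivity
      nlinarith
    calc 36 * r ^ 200 ≤ r ^ 2 * r ^ 200 := this
      _ = r ^ 202 := by ring
  linarith

theorem gamma_err {r p S B : ℝ} (hr : 1000 ≤ r) (hp0 : 1 ≤ p) (hp : p ≤ r ^ 20) (hS0 : 0 ≤ S)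
    (hS : S ≤ r) (hB0 : 0 ≤ B) (hB : B ≤ r ^ 6889) :
    p ^ 2 * (8 * r ^ 21) * (exp (-((r ^ 21) ^ 2 / (32 * p ^ 2))) +
        exp (-((r ^ 22) ^ 2 / (2 * (r ^ 21) ^ 2)))) * S +
      4 * (exp ((4 - (r ^ 22) ^ 2) / (r ^ 21) ^ 2) * p ^ 2 * B) ≤ r ^ 7000 * exp (-(r / 4)) := by
  have hr0 : 0 < r := by linarith
  have hr1 : 1 ≤ r := by linarith
  set τ := exp (-(r / 4)) with hτ
  have hτ0 : 0 < τ := exp_pos _
  have hp2 : p ^ 2 ≤ r ^ 40 := by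
    calc p ^ 2 ≤ (r ^ 20) ^ 2 := pow_le_pow_left₀ (by linarith) hp 2
      _ = r ^ 40 := by ring
  have e1 : exp (-((r ^ 21) ^ 2 / (32 * p ^ 2))) ≤ τ := by
    apply exp_le_exp.2
    have h1 : r ^ 2 / 32 ≤ (r ^ 21) ^ 2 / (32 * p ^ 2) := by
      rw [div_le_div_iff₀ (by norm_num) (by positivity)]
      calc r ^ 2 * (32 * p ^ 2) ≤ r ^ 2 * (32 * r ^ 40) := by gcongr
        _ = (r ^ 21) ^ 2 * 32 := by ring
    have h2 : r / 4 ≤ r ^ 2 / 32 := by nlinarith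
    linarith
  have e2 : exp (-((r ^ 22) ^ 2 / (2 * (r ^ 21) ^ 2))) ≤ τ := by
    apply exp_le_exp.2
    have h1 : (r ^ 22) ^ 2 / (2 * (r ^ 21) ^ 2) = r ^ 2 / 2 := by
      field_simp
    rw [h1]
    nlinarith
  have e3 : exp ((4 - (r ^ 22) ^ 2) / (r ^ 21) ^ 2) ≤ 2 * τ := by
    have h1 : (4 - (r ^ 22) ^ 2) / (r ^ 21) ^ 2 = 4 / (r ^ 21) ^ 2 + -(r ^ 2) := by
      field_simp
      ring
    rw [h1, exp_add]
    have h2 : exp (4 / (r ^ 21) ^ 2) ≤ 2 := by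
      refine le_trans (exp_le_exp.2 ?_) exp_half_le
      rw [div_le_iff₀ (by positivity)]
      have h3 : 1000 ≤ (r ^ 21) ^ 2 := by
        calc (1000 : ℝ) ≤ r := hr
          _ = r ^ 1 := (pow_one r).symm
          _ ≤ r ^ 42 := pow_le_pow_right₀ hr1 (by norm_num)
          _ = (r ^ 21) ^ 2 := by ring
      linarith
    have h4 : exp (-(r ^ 2)) ≤ τ := by
      apply exp_le_exp.2
      nlinarith
    gcongr
  have t1 : p ^ 2 * (8 * r ^ 21) * (exp (-((r ^ 21) ^ 2 / (32 * p ^ 2))) +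
        exp (-((r ^ 22) ^ 2 / (2 * (r ^ 21) ^ 2)))) * S ≤ 16 * r ^ 6929 * τ := by
    calc _ ≤ r ^ 40 * (8 * r ^ 21) * (τ + τ) * r := by gcongr
      _ = 16 * r ^ 62 * τ := by ring
      _ ≤ 16 * r ^ 6929 * τ := by
        have : r ^ 62 ≤ r ^ 6929 := pow_le_pow_right₀ hr1 (by norm_num)
        gcongr
  have t2 : 4 * (exp ((4 - (r ^ 22) ^ 2) / (r ^ 21) ^ 2) * p ^ 2 * B) ≤ 8 * r ^ 6929 * τ := by
    calc _ ≤ 4 * ((2 * τ) * r ^ 40 * r ^ 6889) := by gcongr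
      _ = 8 * r ^ 6929 * τ := by ring
  have t3 : 24 * r ^ 6929 * τ ≤ r ^ 7000 * τ := by
    apply mul_le_mul_of_nonneg_right _ hτ0.le
    calc 24 * r ^ 6929 ≤ r * r ^ 6929 := by
          have : 0 < r ^ 6929 := by positivity
          nlinarith
      _ = r ^ 6930 := by ring
      _ ≤ r ^ 7000 := pow_le_pow_right₀ hr1 (by norm_num)
  linarith

/-- the error for the constant integral -/
theorem const_err {r p : ℝ} (hr : 1000 ≤ r) (hp0 : 3 ≤ p) (hp : p ≤ r ^ 20) :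
    sqrt π * r ^ 21 * exp (-((r ^ 21) ^ 2 * (log p) ^ 2 / 4)) +
      exp ((1 / 10) ^ 2 / (r ^ 21) ^ 2 + 1 / 10 * log p) *
        exp (-((r ^ 22) ^ 2 / (2 * (r ^ 21) ^ 2))) * (sqrt (2 * π) * r ^ 21) ≤
    r ^ 7000 * exp (-(r / 4)) := by
  have hr0 : 0 < r := by linarith
  have hr1 : 1 ≤ r := by linarith
  have hpp : 0 < p := by linarith
  set τ := exp (-(r / 4)) with hτ
  have hτ0 : 0 < τ := exp_pos _
  have hlog : 1 ≤ log p := by
    rw [le_log_iff_exp_le hpp]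
    have := exp_one_lt_d9
    linarith
  have e1 : exp (-((r ^ 21) ^ 2 * (log p) ^ 2 / 4)) ≤ τ := by
    apply exp_le_exp.2
    have h1 : r ≤ (r ^ 21) ^ 2 := by
      calc r = r ^ 1 := (pow_one r).symm
        _ ≤ r ^ 42 := pow_le_pow_right₀ hr1 (by norm_num)
        _ = (r ^ 21) ^ 2 := by ring
    have h2 : 1 ≤ (log p) ^ 2 := by nlinarith
    have h3 : r ≤ (r ^ 21) ^ 2 * (log p) ^ 2 := by nlinarith
    linarith
  have e2 : exp (-((r ^ 22) ^ 2 / (2 * (r ^ 21) ^ 2))) ≤ τ := by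
    apply exp_le_exp.2
    have h1 : (r ^ 22) ^ 2 / (2 * (r ^ 21) ^ 2) = r ^ 2 / 2 := by
      field_simp
    rw [h1]
    nlinarith
  have e3 : exp ((1 / 10) ^ 2 / (r ^ 21) ^ 2 + 1 / 10 * log p) ≤ 2 * r ^ 2 := by
    rw [exp_add]
    have h1 : exp ((1 / 10) ^ 2 / (r ^ 21) ^ 2) ≤ 2 := by
      refine le_trans (exp_le_exp.2 ?_) exp_half_le
      rw [div_le_iff₀ (by positivity)]
      have : (1 : ℝ) ≤ (r ^ 21) ^ 2 := by
        rw [← pow_mul]; exact one_le_pow₀ hr1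
      linarith
    have h2 : exp (1 / 10 * log p) ≤ r ^ 2 := by
      have h3 : log p ≤ 20 * log r := by
        have := log_le_log hpp hp
        rw [log_pow] at this
        exact_mod_cast this
      calc exp (1 / 10 * log p) ≤ exp (2 * log r) := exp_le_exp.2 (by linarith)
        _ = r ^ 2 := by
          rw [mul_comm, exp_mul, exp_log hr0]
          norm_num
    gcongr
  have e4 : sqrt (2 * π) ≤ 3 := by
    rw [sqrt_le_left (by norm_num)]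
    have := pi_lt_d2
    linarith
  have e5 : sqrt π ≤ 2 := by
    rw [sqrt_le_left (by norm_num)]
    have := pi_lt_d2
    linarith
  calc _ ≤ 2 * r ^ 21 * τ + 2 * r ^ 2 * τ * (3 * r ^ 21) := by gcongr
    _ = (2 * r ^ 21 + 6 * r ^ 23) * τ := by ring
    _ ≤ r ^ 7000 * τ := by
      apply mul_le_mul_of_nonneg_right _ hτ0.le
      have h1 : r ^ 21 ≤ r ^ 23 := pow_le_pow_right₀ hr1 (by norm_num)
      have h2 : 0 < r ^ 23 := by positivity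
      calc 2 * r ^ 21 + 6 * r ^ 23 ≤ r * r ^ 23 := by nlinarith
        _ = r ^ 24 := by ring
        _ ≤ r ^ 7000 := pow_le_pow_right₀ hr1 (by norm_num)

/-- polynomial times exponential is small -/
theorem ev_small (N : ℕ) (δ : ℝ) (hδ : 0 < δ) :
    ∀ᶠ r : ℕ in Filter.atTop, (r : ℝ) ^ N * exp (-((r : ℝ) / 4)) ≤ δ := by
  have h1 : Filter.Tendsto (fun x : ℝ => x ^ N * exp (-x)) Filter.atTop (nhds 0) :=
    tendsto_pow_mul_exp_neg_atTop_nhds_zero N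
  have h2 : Filter.Tendsto (fun r : ℕ => (r : ℝ) / 4) Filter.atTop Filter.atTop :=
    tendsto_natCast_atTop_atTop.atTop_div_const (by norm_num)
  have h3 := (h1.comp h2).const_mul ((4 : ℝ) ^ N)
  rw [mul_zero] at h3
  filter_upwards [h3.eventually (eventually_le_nhds hδ)] with r hr
  simp only [Function.comp] at hr
  calc (r : ℝ) ^ N * exp (-((r : ℝ) / 4)) = (4 : ℝ) ^ N * (((r : ℝ) / 4) ^ N * exp (-((r : ℝ) / 4))) := by
        rw [div_pow]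
        field_simp
    _ ≤ δ := hr

end Pool.Agent.H491R3
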