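import Pool.Agent.H491R3.GPart
import Pool.Agent.H491R3.Tiny
import Pool.Agent.H491R3.PrimeCnt
import Pool.Agent.H491R3.LowerMain

set_option autoImplicit false

namespace Pool.Agent.H491R3

open Finset Complex MeasureTheory

theorem vv_le_two {w : ℝ → ℝ} (hw : Wt w) {r : ℕ} (hr : 1000 ≤ (r : ℝ))
    (hW1 : (r : ℝ) ^ 100 / 100 ≤ W1 w r) (hW2 : (r : ℝ) ^ 100 / 400 ≤ W2 w r) (d : OddSqf) :
    |vv w r d| ≤ 2 := by
  have h100 : (1000 : ℝ) ≤ (r : ℝ) ^ 100 := by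
    calc (1000 : ℝ) ≤ r := hr
      _ = (r : ℝ) ^ 1 := (pow_one _).symm
      _ ≤ (r : ℝ) ^ 100 := pow_le_pow_right₀ (by linarith) (by norm_num)
  have h1 : 1 ≤ W1 w r := by linarith
  have h2 : 1 ≤ W2 w r := by linarith
  unfold vv
  refine (abs_sub _ _).trans ?_
  rw [abs_of_nonneg (div_nonneg (hw.nonneg _) (by linarith)),
    abs_of_nonneg (div_nonneg (hw.nonneg _) (by linarith))]
  have a1 : w (d.1 / (r : ℝ) ^ 100) / W1 w r ≤ 1 := by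
    rw [div_le_one (by linarith)]
    exact (hw.le_one _).trans h1
  have a2 : w (d.1 / ((r : ℝ) ^ 100 / 4)) / W2 w r ≤ 1 := by
    rw [div_le_one (by linarith)]
    exact (hw.le_one _).trans h2
  linarith

theorem ll_le {w : ℝ → ℝ} (hw : Wt w) {r : ℕ} (hr : 1 ≤ r) {d e : OddSqf} (he : e ∈ Sr r)
    (hv : vv w r d ≠ 0) : ll d e ≤ Real.log (3 / 2) := by
  have hX : (0 : ℝ) < (r : ℝ) ^ 100 := by
    have : (0 : ℝ) < r := by exact_mod_cast hr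
    positivity
  have hd : |(d.1 : ℝ)| < 3 / 2 * (r : ℝ) ^ 100 := by
    by_contra hge
    push Not at hge
    apply hv
    unfold vv
    have h1 : w (d.1 / (r : ℝ) ^ 100) = 0 := by
      by_contra h
      obtain ⟨-, h2⟩ := hw.supp _ h
      rw [abs_div, abs_of_pos hX, div_lt_iff₀ hX] at h2
      linarith
    have h3 : w (d.1 / ((r : ℝ) ^ 100 / 4)) = 0 := by
      by_contra h
      obtain ⟨-, h2⟩ := hw.supp _ h
      rw [abs_div, abs_of_pos (show (0 : ℝ) < (r : ℝ) ^ 100 / 4 by positivity),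
        div_lt_iff₀ (by positivity)] at h2
      linarith
    rw [h1, h3, zero_div, zero_div, sub_zero]
  obtain ⟨-, -, h3, -⟩ := Sr_window he
  have hd0 : 0 < |(d.1 : ℝ)| := by
    have : (d.1 : ℝ) ≠ 0 := by exact_mod_cast d.2.2.ne_zero
    positivity
  have he0 : 0 < |(e.1 : ℝ)| := by linarith
  unfold ll
  rw [← Real.log_div hd0.ne' he0.ne']
  apply Real.log_le_log (by positivity)
  rw [div_le_iff₀ he0]
  linarith

theorem qq_le {r : ℕ} {d : OddSqf} (hd : d ∈ Dr r) : qq d ≤ 16 * (r : ℝ) ^ 100 := by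
  unfold Dr at hd
  rw [abs_cast_le, abs_natAbs] at hd
  unfold qq
  push_cast at hd ⊢
  linarith

theorem inv_bound (hG : GRH) {r : ℕ} (hr : 1000 ≤ (r : ℝ)) {d : OddSqf} (hd : d ∈ Dr r) {s : ℂ}
    (hs : 3 / 5 ≤ s.re) (him : |s.im| ≤ (r : ℝ) ^ 22) : ‖(L d s)⁻¹‖ ≤ (r : ℝ) ^ 6889 := by
  have h1 := inv_L_bound hG d hs
  have hq := qq_le hd
  have hq0 := qq_pos d
  have hr0 : (0 : ℝ) < r := by linarith
  have hr1 : (1 : ℝ) ≤ r := by linarith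
  have h22 : (5 : ℝ) ≤ (r : ℝ) ^ 22 := by
    calc (5 : ℝ) ≤ r := by linarith
      _ = (r : ℝ) ^ 1 := (pow_one _).symm
      _ ≤ (r : ℝ) ^ 22 := pow_le_pow_right₀ hr1 (by norm_num)
  have hbase : 16 * qq d * (|s.im| + 5) ≤ (r : ℝ) ^ 123 := by
    calc 16 * qq d * (|s.im| + 5) ≤ 16 * (16 * (r : ℝ) ^ 100) * ((r : ℝ) ^ 22 + (r : ℝ) ^ 22) := by
          gcongr
      _ = 512 * (r : ℝ) ^ 122 := by ring
      _ ≤ r * (r : ℝ) ^ 122 := by gcongr; linarith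
      _ = (r : ℝ) ^ 123 := by ring
  have hbase0 : 0 ≤ 16 * qq d * (|s.im| + 5) := by
    have := abs_nonneg s.im
    positivity
  calc ‖(L d s)⁻¹‖ ≤ 4 * (16 * qq d * (|s.im| + 5)) ^ (56 : ℝ) := h1
    _ ≤ 4 * ((r : ℝ) ^ 123) ^ (56 : ℝ) := by
        have := Real.rpow_le_rpow hbase0 hbase (show (0 : ℝ) ≤ 56 by norm_num)
        linarith
    _ = 4 * (r : ℝ) ^ 6888 := by
        congr 1
        have : (56 : ℝ) = ((56 : ℕ) : ℝ) := by norm_num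
        rw [this, Real.rpow_natCast, ← pow_mul]
    _ ≤ r * (r : ℝ) ^ 6888 := by gcongr; linarith
    _ = (r : ℝ) ^ 6889 := by ring

/-- the `β`-integral for general `F` -/
theorem beta_gen {w : ℝ → ℝ} (hw : Wt w) {r : ℕ} (hr : 1000 ≤ (r : ℝ)) {d e : OddSqf}
    (he : e ∈ Sr r) (hv : vv w r d ≠ 0) {F : ℂ → ℂ} (hF : DifferentiableOn ℂ F {z | 0 < z.re})
    (hM : ∀ x ∈ Set.Icc (1 / 5 : ℝ) r, ∀ y ∈ Set.Icc ((r : ℝ) ^ 98 - (r : ℝ) ^ 97)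
      ((r : ℝ) ^ 98 + (r : ℝ) ^ 97), ‖F (x + y * I) - 1‖ ≤ (r : ℝ) ^ 199)
    (hC : ∀ y ∈ Set.Icc ((r : ℝ) ^ 98 - (r : ℝ) ^ 97) ((r : ℝ) ^ 98 + (r : ℝ) ^ 97),
      ‖F ((r : ℝ) + y * I) - 1‖ ≤ r * (2 : ℝ) ^ (-(r : ℝ))) :
    ‖(∫ t in ((r : ℝ) ^ 98 - (r : ℝ) ^ 97)..((r : ℝ) ^ 98 + (r : ℝ) ^ 97),
        KK ((r : ℝ) ^ 96) ((r : ℝ) ^ 98) ((1 / 5 : ℝ) + t * I) *
        ee d (1 / 2 + ((1 / 5 : ℝ) + t * I)) * exp (((1 / 5 : ℝ) + t * I) * (ll d e : ℝ)) *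
        F ((1 / 5 : ℝ) + t * I)) -
      sg d * (((Real.sqrt Real.pi * (r : ℝ) ^ 96 : ℝ) : ℂ) *
        Kap ((r : ℝ) ^ 96) ((r : ℝ) ^ 98) (ll d e))‖ ≤
      (r : ℝ) ^ 7000 * Real.exp (-((r : ℝ) / 4)) := by
  have hr0 : (0 : ℝ) < r := by linarith
  have hr1 : (1 : ℝ) ≤ r := by linarith
  have hrn : 1 ≤ r := by exact_mod_cast hr1
  have h := beta_ext d (U := (r : ℝ) ^ 96) (V := (r : ℝ) ^ 97) (T := (r : ℝ) ^ 98) (b := (r : ℝ))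
    (C := r * (2 : ℝ) ^ (-(r : ℝ))) (M := (r : ℝ) ^ 199) (l := ll d e) (by positivity)
    (by positivity) (pow_le_pow_right₀ hr1 (by norm_num)) (by linarith) (ll_le hw hrn he hv) hF hM
    hC
  have h2 := beta_err (r := (r : ℝ)) (C := r * (2 : ℝ) ^ (-(r : ℝ))) (M := (r : ℝ) ^ 199) hr
    (by positivity) (by positivity) le_rfl le_rfl
  have h3 : (r : ℝ) ^ 202 * Real.exp (-((r : ℝ) / 4)) ≤
      (r : ℝ) ^ 7000 * Real.exp (-((r : ℝ) / 4)) := by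
    have : (r : ℝ) ^ 202 ≤ (r : ℝ) ^ 7000 := pow_le_pow_right₀ hr1 (by norm_num)
    have := Real.exp_pos (-((r : ℝ) / 4))
    gcongr
  unfold Kap
  rw [← mul_assoc (((Real.sqrt Real.pi * (r : ℝ) ^ 96 : ℝ) : ℂ))]
  exact h.trans (h2.trans h3)

theorem beta_L {w : ℝ → ℝ} (hw : Wt w) {r : ℕ} (hr : 1000 ≤ (r : ℝ)) {d e : OddSqf}
    (hd : d ∈ Dr r) (he : e ∈ Sr r) (hv : vv w r d ≠ 0) :
    ‖(∫ t in ((r : ℝ) ^ 98 - (r : ℝ) ^ 97)..((r : ℝ) ^ 98 + (r : ℝ) ^ 97),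
        KK ((r : ℝ) ^ 96) ((r : ℝ) ^ 98) ((1 / 5 : ℝ) + t * I) *
        ee d (1 / 2 + ((1 / 5 : ℝ) + t * I)) * exp (((1 / 5 : ℝ) + t * I) * (ll d e : ℝ)) *
        L d (1 / 2 + ((1 / 5 : ℝ) + t * I))) -
      sg d * (((Real.sqrt Real.pi * (r : ℝ) ^ 96 : ℝ) : ℂ) *
        Kap ((r : ℝ) ^ 96) ((r : ℝ) ^ 98) (ll d e))‖ ≤
      (r : ℝ) ^ 7000 * Real.exp (-((r : ℝ) / 4)) := by
  have hr0 : (0 : ℝ) < r := by linarith
  have hr1 : (1 : ℝ) ≤ r := by linarith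
  have hq := qq_le hd
  have hq0 := qq_pos d
  have h9798 : (r : ℝ) ^ 97 ≤ (r : ℝ) ^ 98 := pow_le_pow_right₀ hr1 (by norm_num)
  have h1_98 : (r : ℝ) ≤ (r : ℝ) ^ 98 := by
    calc (r : ℝ) = (r : ℝ) ^ 1 := (pow_one _).symm
      _ ≤ (r : ℝ) ^ 98 := pow_le_pow_right₀ hr1 (by norm_num)
  have h1_100 : (r : ℝ) ≤ (r : ℝ) ^ 100 := by
    calc (r : ℝ) = (r : ℝ) ^ 1 := (pow_one _).symm
      _ ≤ (r : ℝ) ^ 100 := pow_le_pow_right₀ hr1 (by norm_num)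
  refine beta_gen hw hr he hv (F := fun z => L d (1 / 2 + z)) ?_ ?_ ?_
  · exact ((L_diff d).comp (by fun_prop : Differentiable ℂ fun z : ℂ => 1 / 2 + z)).differentiableOn
  · intro x hx y hy
    have hre : (1 / 2 + ((x : ℂ) + y * I)).re = 1 / 2 + x := by simp
    have him : (1 / 2 + ((x : ℂ) + y * I)).im = y := by simp
    have h2 := L_growth d (s := 1 / 2 + ((x : ℂ) + y * I)) (by rw [hre]; linarith [hx.1])
    rw [hre] at h2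
    have h3 : ‖1 / 2 + ((x : ℂ) + y * I)‖ ≤ 4 * (r : ℝ) ^ 98 := by
      refine (norm_le_abs_re_add_abs_im _).trans ?_
      rw [hre, him, abs_of_pos (by linarith [hx.1]), abs_of_nonneg (by linarith [hy.1])]
      linarith [hx.2, hy.2]
    have h4 : (qq d + 1) / (1 / 2 + x) ≤ 34 * (r : ℝ) ^ 100 := by
      rw [div_le_iff₀ (by linarith [hx.1])]
      have : 0 < (r : ℝ) ^ 100 := by positivity
      nlinarith [hx.1]
    have h5 : ‖L d (1 / 2 + ((x : ℂ) + y * I))‖ ≤ (4 * (r : ℝ) ^ 98) * (34 * (r : ℝ) ^ 100) := by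
      refine h2.trans (mul_le_mul h3 h4 ?_ (by positivity))
      apply div_nonneg (by linarith) (by linarith [hx.1])
    refine (norm_sub_le _ _).trans ?_
    rw [norm_one]
    have h6 : (4 * (r : ℝ) ^ 98) * (34 * (r : ℝ) ^ 100) + 1 ≤ (r : ℝ) ^ 199 := by
      have h7 : 1 ≤ (r : ℝ) ^ 198 := one_le_pow₀ hr1
      calc (4 * (r : ℝ) ^ 98) * (34 * (r : ℝ) ^ 100) + 1 = 136 * (r : ℝ) ^ 198 + 1 := by ring
        _ ≤ r * (r : ℝ) ^ 198 := by nlinarith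
        _ = (r : ℝ) ^ 199 := by ring
    linarith
  · intro y hy
    have hre : (1 / 2 + (((r : ℝ) : ℂ) + y * I)).re = 1 / 2 + (r : ℝ) := by simp
    have h2 := L_sub_one d (s := 1 / 2 + (((r : ℝ) : ℂ) + y * I)) (by rw [hre]; linarith)
    rw [hre] at h2
    refine h2.trans ?_
    have h3 : (2 : ℝ) ^ (2 - (1 / 2 + (r : ℝ))) ≤ 4 * (2 : ℝ) ^ (-(r : ℝ)) := by
      have e4 : (4 : ℝ) = (2 : ℝ) ^ (2 : ℝ) := by norm_num
      rw [e4, ← Real.rpow_add (by norm_num)]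
      apply Real.rpow_le_rpow_of_exponent_le (by norm_num)
      linarith
    have h4 : 0 < (2 : ℝ) ^ (-(r : ℝ)) := by positivity
    nlinarith

theorem beta_Phi {w : ℝ → ℝ} (hw : Wt w) {r : ℕ} (hr : 1000 ≤ (r : ℝ)) {d e : OddSqf}
    (he : e ∈ Sr r) (hv : vv w r d ≠ 0) {γ : ℂ} (hγ : γ.re = 1 / 10) {C : ℝ} (hCr : C ≤ r)
    (h1 : ∀ α γ : ℂ, 1 / 5 ≤ α.re → γ.re = 1 / 10 → ‖Phi α γ - 1‖ ≤ C)
    (h2 : ∀ α γ : ℂ, 2 ≤ α.re → γ.re = 1 / 10 → ‖Phi α γ - 1‖ ≤ C * (2 : ℝ) ^ (-α.re)) :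
    ‖(∫ t in ((r : ℝ) ^ 98 - (r : ℝ) ^ 97)..((r : ℝ) ^ 98 + (r : ℝ) ^ 97),
        KK ((r : ℝ) ^ 96) ((r : ℝ) ^ 98) ((1 / 5 : ℝ) + t * I) *
        ee d (1 / 2 + ((1 / 5 : ℝ) + t * I)) * exp (((1 / 5 : ℝ) + t * I) * (ll d e : ℝ)) *
        Phi ((1 / 5 : ℝ) + t * I) γ) -
      sg d * (((Real.sqrt Real.pi * (r : ℝ) ^ 96 : ℝ) : ℂ) *
        Kap ((r : ℝ) ^ 96) ((r : ℝ) ^ 98) (ll d e))‖ ≤
      (r : ℝ) ^ 7000 * Real.exp (-((r : ℝ) / 4)) := by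
  have hr1 : (1 : ℝ) ≤ r := by linarith
  refine beta_gen hw hr he hv (F := fun z => Phi z γ) (Phi_diff (by rw [hγ]; norm_num)) ?_ ?_
  · intro x hx y _
    refine (h1 _ γ (by simpa using hx.1) hγ).trans (hCr.trans ?_)
    calc (r : ℝ) = (r : ℝ) ^ 1 := (pow_one _).symm
      _ ≤ (r : ℝ) ^ 199 := pow_le_pow_right₀ hr1 (by norm_num)
  · intro y _
    have hre : (((r : ℝ) : ℂ) + y * I).re = r := by simp
    have h3 := h2 (((r : ℝ) : ℂ) + y * I) γ (by rw [hre]; linarith) hγ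
    rw [hre] at h3
    refine h3.trans ?_
    have h4 : 0 < (2 : ℝ) ^ (-(r : ℝ)) := by positivity
    exact mul_le_mul_of_nonneg_right hCr h4.le

end Pool.Agent.H491R3
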