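import Pool.Agent.H491R3.SBound

set_option autoImplicit false

namespace Pool.Agent.H491R3

open Finset Complex MeasureTheory

theorem L_cont_gamma (hG : GRH) (d : OddSqf) :
    Continuous (fun u : ℝ => (L d (1 / 2 + ((1 / 10 : ℝ) + u * I)))⁻¹) := by
  have h1 : Continuous (fun u : ℝ => L d (1 / 2 + ((1 / 10 : ℝ) + u * I))) :=
    (L_diff d).continuous.comp (by fun_prop)
  refine h1.inv₀ fun u => L_ne_zero hG d ?_
  simp

theorem mm_abstract (hG : GRH) {w : ℝ → ℝ} {r p : ℕ} (hr : 1 ≤ r) (hp : p.Prime) {Z τ : ℝ}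
    (hZ : 0 ≤ Z) (hτ : 0 ≤ τ) (hv : ∀ d, |vv w r d| ≤ 2)
    (hS : ∀ u : ℝ, |u| ≤ (r : ℝ) ^ 22 → ‖SS w r p ((1 / 10 : ℝ) + u * I)‖ ≤ Z)
    (hA : ∀ d ∈ Dr r, ‖(∫ u in (-(r : ℝ) ^ 22)..((r : ℝ) ^ 22),
      KK ((r : ℝ) ^ 21) 0 ((1 / 10 : ℝ) + u * I) *
      exp (((1 / 10 : ℝ) + u * I) * (Real.log p : ℝ)) * (L d (1 / 2 + ((1 / 10 : ℝ) + u * I)))⁻¹) -
      mc d p * (p : ℂ) ^ (-(1 / 2) : ℂ) * (Real.sqrt Real.pi * (r : ℝ) ^ 21 : ℝ)‖ ≤ τ)
    (hC : ‖∫ u in (-(r : ℝ) ^ 22)..((r : ℝ) ^ 22),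
      KK ((r : ℝ) ^ 21) 0 ((1 / 10 : ℝ) + u * I) *
      exp (((1 / 10 : ℝ) + u * I) * (Real.log p : ℝ))‖ ≤ τ) :
    (Real.sqrt Real.pi * (r : ℝ) ^ 96) * (Real.sqrt Real.pi * (r : ℝ) ^ 21) *
      (p : ℝ) ^ (-(1 / 2) : ℝ) * ‖mm w r p‖ ≤
    2 * (p : ℝ) ^ (1 / 10 : ℝ) * Z * (Real.sqrt Real.pi * (r : ℝ) ^ 21) +
      20 * (r : ℝ) ^ 200 * (Real.sqrt Real.pi * (r : ℝ) ^ 96) * τ := by
  have hr1 : (1 : ℝ) ≤ r := by exact_mod_cast hr
  have hr0 : (0 : ℝ) < r := by linarith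
  have hp0 : (0 : ℝ) < p := by exact_mod_cast hp.pos
  set U := (r : ℝ) ^ 21 with hU
  set V := (r : ℝ) ^ 22 with hV
  have hU0 : 0 < U := by positivity
  have hV0 : 0 < V := by positivity
  set ω : ℝ := Real.sqrt Real.pi * (r : ℝ) ^ 96 with hω
  have hω0 : 0 ≤ ω := by positivity
  set f1 : OddSqf → ℝ → ℂ := fun d u => KK U 0 ((1 / 10 : ℝ) + u * I) *
      exp (((1 / 10 : ℝ) + u * I) * (Real.log p : ℝ)) *
      (L d (1 / 2 + ((1 / 10 : ℝ) + u * I)))⁻¹ with hf1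
  set f2 : ℝ → ℂ := fun u => KK U 0 ((1 / 10 : ℝ) + u * I) *
      exp (((1 / 10 : ℝ) + u * I) * (Real.log p : ℝ)) with hf2
  have hpath : Continuous (fun t : ℝ => (((1 / 10 : ℝ) : ℂ) + t * I)) := by fun_prop
  have hcK : Continuous (fun t : ℝ => KK U 0 ((1 / 10 : ℝ) + t * I)) :=
    (KK_diff U 0).continuous.comp hpath
  have hc2 : Continuous f2 := hcK.mul (by fun_prop)
  have hc1 : ∀ d, Continuous (f1 d) := fun d => hc2.mul (L_cont_gamma hG d)
  have hexpand : ∀ u : ℝ, f2 u * SS w r p ((1 / 10 : ℝ) + u * I) =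
      ∑ d ∈ Dr r, ∑ e ∈ Sr r, (aco w r p d e * (sg d * ((ω : ℂ) *
        Kap ((r : ℝ) ^ 96) ((r : ℝ) ^ 98) (ll d e))) * W d * f1 d u -
        aco w r p d e * (sg d * ((ω : ℂ) *
        Kap ((r : ℝ) ^ 96) ((r : ℝ) ^ 98) (ll d e))) * f2 u) := by
    intro u
    unfold SS
    rw [mul_sum]
    apply sum_congr rfl
    intro d _
    rw [mul_sum]
    apply sum_congr rfl
    intro e _
    simp only [hf1, hf2]
    ring
  set J := ∫ u in (-V)..V, f2 u * SS w r p ((1 / 10 : ℝ) + u * I) with hJ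
  have hJ2 : J = ∑ d ∈ Dr r, ∑ e ∈ Sr r, (aco w r p d e * (sg d * ((ω : ℂ) *
        Kap ((r : ℝ) ^ 96) ((r : ℝ) ^ 98) (ll d e))) * W d * (∫ u in (-V)..V, f1 d u) -
        aco w r p d e * (sg d * ((ω : ℂ) *
        Kap ((r : ℝ) ^ 96) ((r : ℝ) ^ 98) (ll d e))) * ∫ u in (-V)..V, f2 u) := by
    rw [hJ]
    simp_rw [hexpand]
    rw [intervalIntegral.integral_finsetSum]
    · apply sum_congr rfl
      intro d _
      rw [intervalIntegral.integral_finsetSum]
      · apply sum_congr rfl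
        intro e _
        rw [intervalIntegral.integral_sub, intervalIntegral.integral_const_mul,
          intervalIntegral.integral_const_mul]
        · exact (continuous_const.mul (hc1 d)).intervalIntegrable _ _
        · exact (continuous_const.mul hc2).intervalIntegrable _ _
      · intro e _
        exact ((continuous_const.mul (hc1 d)).sub
          (continuous_const.mul hc2)).intervalIntegrable _ _
    · intro d _
      exact (continuous_finsetSum _ fun e _ => (continuous_const.mul (hc1 d)).sub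
          (continuous_const.mul hc2)).intervalIntegrable _ _
  -- upper bound for `J`
  have hJ3 : ‖J‖ ≤ 2 * (p : ℝ) ^ (1 / 10 : ℝ) * Z * (Real.sqrt Real.pi * U) := by
    obtain ⟨g1, g2⟩ := gauss_one hU0 0
    have hle : -V ≤ V := by linarith
    have h1 : ‖J‖ ≤ ∫ u in (-V)..V, (2 * (p : ℝ) ^ (1 / 10 : ℝ) * Z) *
        Real.exp (-((u - 0) ^ 2 / U ^ 2)) := by
      apply intervalIntegral.norm_integral_le_of_norm_le hle
      · refine Filter.Eventually.of_forall fun u hu => ?_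
        have e1 := KK_le hr (k := 21) (a := 1 / 10) (T := 0) (t := u) (by
          rw [abs_of_pos (by norm_num)]; norm_num)
        have e2 : ‖exp (((1 / 10 : ℝ) + u * I) * (Real.log p : ℝ))‖ = (p : ℝ) ^ (1 / 10 : ℝ) := by
          rw [exp_xy_norm (1 / 10) u (Real.log p), mul_comm, Real.exp_mul, Real.exp_log hp0]
        have e3 := hS u (abs_le.2 ⟨hu.1.le, hu.2⟩)
        simp only [hf2]
        rw [norm_mul, norm_mul, e2]
        calc _ ≤ (2 * Real.exp (-((u - 0) ^ 2 / U ^ 2))) * (p : ℝ) ^ (1 / 10 : ℝ) * Z := by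
              gcongr
          _ = _ := by ring
      · exact (g1.const_mul _).intervalIntegrable
    refine h1.trans ?_
    rw [intervalIntegral.integral_const_mul, intervalIntegral.integral_of_le hle]
    have h2 : ∫ u in Set.Ioc (-V) V, Real.exp (-((u - 0) ^ 2 / U ^ 2)) ≤
        ∫ u, Real.exp (-((u - 0) ^ 2 / U ^ 2)) :=
      setIntegral_le_integral g1 (Filter.Eventually.of_forall fun t => (Real.exp_pos _).le)
    rw [g2] at h2
    exact mul_le_mul_of_nonneg_left h2 (by positivity)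
  -- the main term
  set m : ℂ := (ω : ℂ) * ((Real.sqrt Real.pi * U : ℝ) : ℂ) * (p : ℂ) ^ (-(1 / 2) : ℂ) * mm w r p
    with hm
  have hmnorm : ‖m‖ = ω * (Real.sqrt Real.pi * U) * (p : ℝ) ^ (-(1 / 2) : ℝ) * ‖mm w r p‖ := by
    rw [hm, norm_mul, norm_mul, norm_mul, norm_real, norm_real, Real.norm_eq_abs, Real.norm_eq_abs,
      abs_of_nonneg hω0, abs_of_nonneg (show 0 ≤ Real.sqrt Real.pi * U by positivity),
      norm_natCast_cpow_of_pos hp.pos]
    congr 3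
    simp
  have hdiff : ‖J + m‖ ≤ 5 * (r : ℝ) ^ 200 * (4 * ω * τ) := by
    rw [hJ2, hm]
    unfold mm
    rw [mul_sum, ← sum_add_distrib]
    simp_rw [mul_sum, ← sum_add_distrib]
    refine (norm_sum_le _ _).trans ?_
    refine (sum_le_sum fun d _ => norm_sum_le _ _).trans ?_
    apply pairs_le hr (by positivity)
    intro d hd e he
    have h1 := hA d hd
    rw [mc_prime d hp, chi_kr] at h1
    have h5 : ‖W d‖ = 1 := by
      rw [W_real, norm_real, Real.norm_eq_abs, Wr_abs]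
    set kap := sg d * ((ω : ℂ) * Kap ((r : ℝ) ^ 96) ((r : ℝ) ^ 98) (ll d e)) with hkap
    have hkapn : ‖kap‖ ≤ ω := by
      rw [hkap, norm_mul, norm_mul, sg_norm, one_mul, Kap_norm, norm_real, Real.norm_eq_abs,
        abs_of_nonneg hω0]
      have : Real.exp (-(((r : ℝ) ^ 96) ^ 2 * (ll d e) ^ 2 / 4)) ≤ 1 := by
        rw [Real.exp_le_one_iff]
        have : 0 ≤ ((r : ℝ) ^ 96) ^ 2 * (ll d e) ^ 2 / 4 := by positivity
        linarith
      calc ω * _ ≤ ω * 1 := mul_le_mul_of_nonneg_left this hω0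
        _ = ω := mul_one ω
    set q : ℂ := (p : ℂ) ^ (-(1 / 2) : ℂ) * ((Real.sqrt Real.pi * U : ℝ) : ℂ) with hq
    have e1 : aco w r p d e * kap * W d * (∫ u in (-V)..V, f1 d u) -
        aco w r p d e * kap * (∫ u in (-V)..V, f2 u) +
        (ω : ℂ) * ((Real.sqrt Real.pi * U : ℝ) : ℂ) * (p : ℂ) ^ (-(1 / 2) : ℂ) *
        (((vv w r d * (Wr d * kr d p) * (Wr e * kr e p) : ℝ) : ℂ) *
          (sg d * Kap ((r : ℝ) ^ 96) ((r : ℝ) ^ 98) (ll d e))) =
        aco w r p d e * kap * (W d * ((∫ u in (-V)..V, f1 d u) -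
          -(kr d p : ℂ) * (p : ℂ) ^ (-(1 / 2) : ℂ) * ((Real.sqrt Real.pi * U : ℝ) : ℂ)) -
          ∫ u in (-V)..V, f2 u) := by
      rw [hkap, W_real d]
      unfold aco
      push_cast
      ring
    rw [e1, norm_mul, norm_mul]
    have h6 : ‖W d * ((∫ u in (-V)..V, f1 d u) -
          -(kr d p : ℂ) * (p : ℂ) ^ (-(1 / 2) : ℂ) * ((Real.sqrt Real.pi * U : ℝ) : ℂ)) -
          ∫ u in (-V)..V, f2 u‖ ≤ 2 * τ := by
      refine (norm_sub_le _ _).trans ?_
      rw [norm_mul, h5, one_mul]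
      linarith
    calc _ ≤ 2 * ω * (2 * τ) := by
          have := aco_norm hv p d e
          gcongr
      _ = 4 * ω * τ := by ring
  rw [← hmnorm]
  have e2 : m = (J + m) - J := by ring
  rw [e2]
  refine (norm_sub_le _ _).trans ?_
  linarith

end Pool.Agent.H491R3
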