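import Pool.Agent.H491R3.FE
import Pool.Agent.H370R2.DirGood

set_option autoImplicit false

namespace Pool.Agent.H491R3

open Complex MeasureTheory Set Metric

theorem L_diff (d : OddSqf) : Differentiable ℂ (L d) :=
  DirichletCharacter.differentiable_LFunction (chi8_ne_one d)

/-- the conductor as a real number -/
noncomputable def qq (d : OddSqf) : ℝ := ((8 * d.1.natAbs : ℕ) : ℝ)

theorem qq_pos (d : OddSqf) : 1 < qq d := by
  unfold qq; exact_mod_cast one_lt_N d

theorem L_growth (d : OddSqf) {s : ℂ} (hs : 0 < s.re) :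
    ‖L d s‖ ≤ ‖s‖ * ((qq d + 1) / s.re) := by
  have hA : ∀ u : ℝ, ‖∑ k ∈ Finset.Icc 1 ⌊u⌋₊, chi8 d (k : ZMod (8 * d.1.natAbs))‖ ≤ (qq d + 1 : ℝ) :=
    fun u => H370.DL.norm_sum_Icc_le (chi8_ne_one d) _
  unfold L
  rw [H370.DL.L_integral (chi8_ne_one d) hs, norm_mul]
  have h4 := H370.DL.J_bound hA hs
  exact mul_le_mul_of_nonneg_left h4 (norm_nonneg s)

/-- `∑ n^(-2)` over `n ≥ 2` is at most `3/4` -/
theorem L_sub_one (d : OddSqf) {s : ℂ} (hs : 2 ≤ s.re) :
    ‖L d s - 1‖ ≤ 3 / 4 * (2 : ℝ) ^ (2 - s.re) := by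
  have hre : 1 < s.re := by linarith
  unfold L
  rw [DirichletCharacter.LFunction_eq_LSeries _ hre]
  have hsum : LSeriesSummable (fun n : ℕ => chi8 d (n : ZMod (8 * d.1.natAbs))) s :=
    DirichletCharacter.LSeriesSummable_of_one_lt_re _ hre
  unfold LSeries
  have h0 : LSeries.term (fun n : ℕ => chi8 d (n : ZMod (8 * d.1.natAbs))) s 0 = 0 := by
    simp
  have h1 : LSeries.term (fun n : ℕ => chi8 d (n : ZMod (8 * d.1.natAbs))) s 1 = 1 := by
    rw [LSeries.term_of_ne_zero one_ne_zero]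
    simp
  have hsplit := hsum.sum_add_tsum_nat_add 2
  rw [Finset.sum_range_succ, Finset.sum_range_one, h0, h1, zero_add] at hsplit
  rw [← hsplit, add_sub_cancel_left]
  have hZ : HasSum (fun n : ℕ => 1 / ((n : ℝ)) ^ 2) (Real.pi ^ 2 / 6) := hasSum_zeta_two
  have hZ2 := (hasSum_nat_add_iff' 2).2 hZ
  have e : Real.pi ^ 2 / 6 - ∑ i ∈ Finset.range 2, 1 / ((i : ℝ)) ^ 2 = Real.pi ^ 2 / 6 - 1 := by
    rw [Finset.sum_range_succ, Finset.sum_range_one]; norm_num
  rw [e] at hZ2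
  have hZ3 := hZ2.mul_right ((2 : ℝ) ^ (2 - s.re))
  have hb : ‖∑' n : ℕ, LSeries.term (fun n : ℕ => chi8 d (n : ZMod (8 * d.1.natAbs))) s (n + 2)‖ ≤
      (Real.pi ^ 2 / 6 - 1) * (2 : ℝ) ^ (2 - s.re) := by
    apply tsum_of_norm_bounded hZ3
    intro n
    have hn : (0 : ℝ) < ((n + 2 : ℕ) : ℝ) := by positivity
    rw [LSeries.term_of_ne_zero (by omega), norm_div, norm_natCast_cpow_of_pos (by omega)]
    have h5 : ‖chi8 d ((n + 2 : ℕ) : ZMod (8 * d.1.natAbs))‖ ≤ 1 :=
      DirichletCharacter.norm_le_one _ _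
    have h6 : ((n + 2 : ℕ) : ℝ) ^ (2 : ℝ) * (2 : ℝ) ^ (s.re - 2) ≤ ((n + 2 : ℕ) : ℝ) ^ s.re := by
      have : s.re = 2 + (s.re - 2) := by ring
      conv_rhs => rw [this, Real.rpow_add hn]
      apply mul_le_mul_of_nonneg_left _ (by positivity)
      apply Real.rpow_le_rpow (by norm_num) _ (by linarith)
      push_cast
      have : (0 : ℝ) ≤ n := Nat.cast_nonneg n
      linarith
    calc ‖chi8 d ((n + 2 : ℕ) : ZMod (8 * d.1.natAbs))‖ / ((n + 2 : ℕ) : ℝ) ^ s.re ≤
        1 / (((n + 2 : ℕ) : ℝ) ^ (2 : ℝ) * (2 : ℝ) ^ (s.re - 2)) :=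
          div_le_div₀ zero_le_one h5 (by positivity) h6
      _ = 1 / ((n + 2 : ℕ) : ℝ) ^ 2 * (2 : ℝ) ^ (2 - s.re) := by
          rw [show 2 - s.re = -(s.re - 2) by ring, Real.rpow_neg (by norm_num)]
          have : ((n + 2 : ℕ) : ℝ) ^ (2 : ℝ) = ((n + 2 : ℕ) : ℝ) ^ 2 := by
            rw [← Real.rpow_natCast]; norm_num
          rw [this, one_div, one_div, mul_inv]
  refine hb.trans (mul_le_mul_of_nonneg_right ?_ (by positivity))
  have : Real.pi < 3.15 := Real.pi_lt_d2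
  have h0 := Real.pi_pos
  nlinarith

theorem L_lower_two (d : OddSqf) {s : ℂ} (hs : 2 ≤ s.re) : 1 / 4 ≤ ‖L d s‖ := by
  have h := L_sub_one d hs
  have h2 : (2 : ℝ) ^ (2 - s.re) ≤ 1 := Real.rpow_le_one_of_one_le_of_nonpos (by norm_num) (by linarith)
  have h3 : ‖(1 : ℂ)‖ - ‖L d s - 1‖ ≤ ‖L d s‖ := by
    have := norm_sub_norm_le (1 : ℂ) (1 - L d s)
    rw [sub_sub_cancel, norm_sub_rev] at this
    exact this
  rw [norm_one] at h3
  nlinarith

theorem L_ne_zero (hG : GRH) (d : OddSqf) {s : ℂ} (hs : 1 / 2 < s.re) : L d s ≠ 0 := by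
  intro h
  rcases lt_or_ge s.re 1 with h1 | h1
  · have := hG (8 * d.1.natAbs) (chi8 d) s h (by linarith) h1
    linarith
  · exact DirichletCharacter.LFunction_ne_zero_of_one_le_re (chi8 d) (Or.inl (chi8_ne_one d)) h1 h

/-- a lower bound for non-vanishing functions on a disc -/
theorem lower_of_nonvanishing {f : ℂ → ℂ} {R M : ℝ} (hR : 0 < R) (hM : 1 < M)
    (hf : DifferentiableOn ℂ f (ball 0 R)) (h0 : ∀ z ∈ ball (0 : ℂ) R, f z ≠ 0)
    (hb : ∀ z ∈ ball (0 : ℂ) R, ‖f z‖ ≤ M * ‖f 0‖) {z : ℂ} (hz : z ∈ ball (0 : ℂ) R) :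
    ‖f 0‖ * Real.exp (-(2 * Real.log M * ‖z‖ / (R - ‖z‖))) ≤ ‖f z‖ := by
  have hopen : IsOpen (ball (0 : ℂ) R) := isOpen_ball
  have hz0 : (0 : ℂ) ∈ ball (0 : ℂ) R := mem_ball_self hR
  have hfd : DifferentiableOn ℂ (fun z => deriv f z / f z) (ball 0 R) :=
    (hf.deriv hopen).div hf h0
  obtain ⟨g, hg0, hg⟩ := (hfd.isExactOn_ball).with_val_at 0 0
  have hgd : DifferentiableOn ℂ g (ball 0 R) := fun z hz =>
    (hg z hz).differentiableAt.differentiableWithinAt
  -- `f = f 0 * exp g`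
  have hconst : ∀ z ∈ ball (0 : ℂ) R, f z * exp (-g z) = f 0 := by
    intro z hz
    have hd : ∀ w ∈ ball (0 : ℂ) R, HasDerivWithinAt (fun w => f w * exp (-g w)) 0 (ball 0 R) w := by
      intro w hw
      have h1 : HasDerivAt f (deriv f w) w :=
        (hf.differentiableAt (hopen.mem_nhds hw)).hasDerivAt
      have h2 : HasDerivAt (fun w => exp (-g w)) (exp (-g w) * -(deriv f w / f w)) w :=
        ((hg w hw).neg).cexp
      have h3 := h1.mul h2
      have e : deriv f w * exp (-g w) + f w * (exp (-g w) * -(deriv f w / f w)) = 0 := by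
        have := h0 w hw
        field_simp
        ring
      rw [e] at h3
      exact h3.hasDerivWithinAt
    have := (convex_ball (0 : ℂ) R).norm_image_sub_le_of_norm_hasDerivWithin_le
      (C := 0) hd (by simp) hz0 hz
    rw [zero_mul] at this
    have h4 := norm_le_zero_iff.1 this
    rw [sub_eq_zero] at h4
    simpa [hg0] using h4
  have hfe : ∀ z ∈ ball (0 : ℂ) R, f z = f 0 * exp (g z) := by
    intro z hz
    rw [← hconst z hz, mul_assoc, ← exp_add, neg_add_cancel, exp_zero, mul_one]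
  have hf0 : 0 < ‖f 0‖ := norm_pos_iff.2 (h0 0 hz0)
  have hlogM : 0 < Real.log M := Real.log_pos hM
  have hmaps : MapsTo g (ball 0 R) {z | z.re ≤ Real.log M} := by
    intro w hw
    have h1 := hb w hw
    rw [hfe w hw, norm_mul, Complex.norm_exp, mul_comm] at h1
    have h2 : Real.exp (g w).re ≤ M := le_of_mul_le_mul_right h1 hf0
    exact (Real.le_log_iff_exp_le (by linarith)).2 h2
  have hBC := Complex.borelCaratheodory_zero hlogM hgd hmaps hR hz hg0
  rw [hfe z hz, norm_mul, Complex.norm_exp]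
  apply mul_le_mul_of_nonneg_left _ hf0.le
  apply Real.exp_le_exp.2
  have := (abs_re_le_norm (g z)).trans hBC
  exact (abs_le.1 this).1

/-- under GRH, `1/L` has polynomial growth to the right of `Re s = 3/5` -/
theorem inv_L_bound (hG : GRH) (d : OddSqf) {s : ℂ} (hs : 3 / 5 ≤ s.re) :
    ‖(L d s)⁻¹‖ ≤ 4 * (16 * qq d * (|s.im| + 5)) ^ (56 : ℝ) := by
  have hq := qq_pos d
  have him : 0 ≤ |s.im| := abs_nonneg _
  have hbase : 1 ≤ 16 * qq d * (|s.im| + 5) := by nlinarith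
  rcases le_or_gt 2 s.re with h2 | h2
  · have h3 := L_lower_two d h2
    rw [norm_inv]
    calc ‖L d s‖⁻¹ ≤ (1 / 4)⁻¹ := inv_anti₀ (by norm_num) h3
      _ = 4 * 1 := by norm_num
      _ ≤ _ := by
        apply mul_le_mul_of_nonneg_left _ (by norm_num)
        exact Real.one_le_rpow hbase (by norm_num)
  · set z0 : ℂ := 2 + s.im * I with hz0
    set f : ℂ → ℂ := fun z => L d (z0 + z) with hf
    have hf0 : 1 / 4 ≤ ‖f 0‖ := by
      simp only [hf, add_zero]
      exact L_lower_two d (by simp [hz0])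
    set M := 16 * qq d * (|s.im| + 5) with hM
    have hre : ∀ z ∈ ball (0 : ℂ) (29 / 20), 11 / 20 < (z0 + z).re ∧ ‖z0 + z‖ ≤ |s.im| + 5 := by
      intro z hz
      rw [mem_ball_zero_iff] at hz
      constructor
      · have : |z.re| ≤ ‖z‖ := abs_re_le_norm z
        have := (abs_le.1 this).1
        simp [hz0]
        linarith
      · calc ‖z0 + z‖ ≤ ‖z0‖ + ‖z‖ := norm_add_le _ _
          _ ≤ (2 + |s.im|) + 29 / 20 := by
            gcongr
            calc ‖z0‖ ≤ ‖(2 : ℂ)‖ + ‖(s.im : ℂ) * I‖ := norm_add_le _ _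
              _ = 2 + |s.im| := by simp
          _ ≤ _ := by linarith
    have hdiff : DifferentiableOn ℂ f (ball 0 (29 / 20)) := by
      intro z _
      exact ((L_diff d).comp (differentiable_const z0 |>.add differentiable_id)).differentiableAt.differentiableWithinAt
    have hnv : ∀ z ∈ ball (0 : ℂ) (29 / 20), f z ≠ 0 := by
      intro z hz
      exact L_ne_zero hG d (by linarith [(hre z hz).1])
    have hbd : ∀ z ∈ ball (0 : ℂ) (29 / 20), ‖f z‖ ≤ M * ‖f 0‖ := by
      intro z hz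
      obtain ⟨h3, h4⟩ := hre z hz
      have h5 := L_growth d (s := z0 + z) (by linarith)
      have h6 : (qq d + 1) / (z0 + z).re ≤ 4 * qq d := by
        rw [div_le_iff₀ (by linarith)]
        nlinarith
      calc ‖f z‖ ≤ ‖z0 + z‖ * ((qq d + 1) / (z0 + z).re) := h5
        _ ≤ (|s.im| + 5) * (4 * qq d) := mul_le_mul h4 h6 (by
            apply div_nonneg <;> linarith) (by linarith)
        _ = M * (1 / 4) := by rw [hM]; ring
        _ ≤ M * ‖f 0‖ := mul_le_mul_of_nonneg_left hf0 (by linarith)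
    have hM1 : 1 < M := by rw [hM]; nlinarith
    have hzs : ((s.re - 2 : ℝ) : ℂ) ∈ ball (0 : ℂ) (29 / 20) := by
      rw [mem_ball_zero_iff, norm_real, Real.norm_eq_abs, abs_lt]
      constructor <;> linarith
    have hlow := lower_of_nonvanishing (by norm_num) hM1 hdiff hnv hbd hzs
    have hfs : f ((s.re - 2 : ℝ) : ℂ) = L d s := by
      simp only [hf, hz0]
      congr 1
      apply Complex.ext <;> simp
    rw [hfs] at hlow
    have hn : ‖((s.re - 2 : ℝ) : ℂ)‖ = 2 - s.re := by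
      rw [norm_real, Real.norm_eq_abs, abs_of_neg (by linarith)]
      ring
    rw [hn] at hlow
    have hexp : 2 * Real.log M * (2 - s.re) / (29 / 20 - (2 - s.re)) ≤ Real.log M * 56 := by
      have hl : 0 < Real.log M := Real.log_pos hM1
      rw [div_le_iff₀ (by linarith)]
      nlinarith
    have hlow2 : 1 / 4 * M ^ (-(56 : ℝ)) ≤ ‖L d s‖ := by
      refine le_trans ?_ hlow
      apply mul_le_mul hf0 _ (by positivity) (by linarith)
      rw [Real.rpow_def_of_pos (by linarith)]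
      apply Real.exp_le_exp.2
      linarith
    rw [norm_inv]
    have hMp : 0 < M ^ (56 : ℝ) := Real.rpow_pos_of_pos (by linarith) _
    calc ‖L d s‖⁻¹ ≤ (1 / 4 * M ^ (-(56 : ℝ)))⁻¹ := inv_anti₀ (by positivity) hlow2
      _ = 4 * M ^ (56 : ℝ) := by
        rw [Real.rpow_neg (by linarith), mul_inv, inv_inv]
        norm_num

end Pool.Agent.H491R3
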