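import Pool.Agent.H491R3.Defs

set_option autoImplicit false

namespace Pool.Agent.H491R3

open Complex Filter Topology Set

/-- Dirichlet series with bounded coefficients, far to the right -/
theorem lseries_sub_one {f : ℕ → ℂ} (hf : ∀ n, ‖f n‖ ≤ 1) (hf1 : f 1 = 1) {s : ℂ}
    (hs : 2 ≤ s.re) : ‖LSeries f s - 1‖ ≤ 3 / 4 * (2 : ℝ) ^ (2 - s.re) := by
  have hre : 1 < s.re := by linarith
  have hsum : LSeriesSummable f s :=
    LSeriesSummable_of_bounded_of_one_lt_re (m := 1) (fun n _ => hf n) hre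
  unfold LSeries
  have h0 : LSeries.term f s 0 = 0 := by simp
  have h1 : LSeries.term f s 1 = 1 := by
    rw [LSeries.term_of_ne_zero one_ne_zero, hf1]
    simp
  have hsplit := hsum.sum_add_tsum_nat_add 2
  rw [Finset.sum_range_succ, Finset.sum_range_one, h0, h1, zero_add] at hsplit
  rw [← hsplit, add_sub_cancel_left]
  have hZ : HasSum (fun n : ℕ => 1 / ((n : ℝ)) ^ 2) (Real.pi ^ 2 / 6) := hasSum_zeta_two
  have hZ2 := (hasSum_nat_add_iff' 2).2 hZ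
  have e : Real.pi ^ 2 / 6 - ∑ i ∈ Finset.range 2, 1 / ((i : ℝ)) ^ 2 = Real.pi ^ 2 / 6 - 1 := by
    rw [Finset.sum_range_succ, Finset.sum_range_one]; norm_num
  rw [e] at hZ2
  have hZ3 := hZ2.mul_right ((2 : ℝ) ^ (2 - s.re))
  have hb : ‖∑' n : ℕ, LSeries.term f s (n + 2)‖ ≤
      (Real.pi ^ 2 / 6 - 1) * (2 : ℝ) ^ (2 - s.re) := by
    apply tsum_of_norm_bounded hZ3
    intro n
    have hn : (0 : ℝ) < ((n + 2 : ℕ) : ℝ) := by positivity
    rw [LSeries.term_of_ne_zero (by omega), norm_div, norm_natCast_cpow_of_pos (by omega)]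
    have h5 : ‖f (n + 2)‖ ≤ 1 := hf _
    have h6 : ((n + 2 : ℕ) : ℝ) ^ (2 : ℝ) * (2 : ℝ) ^ (s.re - 2) ≤ ((n + 2 : ℕ) : ℝ) ^ s.re := by
      have : s.re = 2 + (s.re - 2) := by ring
      conv_rhs => rw [this, Real.rpow_add hn]
      apply mul_le_mul_of_nonneg_left _ (by positivity)
      apply Real.rpow_le_rpow (by norm_num) _ (by linarith)
      push_cast
      have : (0 : ℝ) ≤ n := Nat.cast_nonneg n
      linarith
    calc ‖f (n + 2)‖ / ((n + 2 : ℕ) : ℝ) ^ s.re ≤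
        1 / (((n + 2 : ℕ) : ℝ) ^ (2 : ℝ) * (2 : ℝ) ^ (s.re - 2)) :=
          div_le_div₀ zero_le_one h5 (by positivity) h6
      _ = 1 / ((n + 2 : ℕ) : ℝ) ^ 2 * (2 : ℝ) ^ (2 - s.re) := by
          rw [show 2 - s.re = -(s.re - 2) by ring, Real.rpow_neg (by norm_num)]
          have : ((n + 2 : ℕ) : ℝ) ^ (2 : ℝ) = ((n + 2 : ℕ) : ℝ) ^ 2 := by
            rw [← Real.rpow_natCast]; norm_num
          rw [this, one_div, one_div, mul_inv]
  refine hb.trans (mul_le_mul_of_nonneg_right ?_ (by positivity))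
  have : Real.pi < 3.15 := Real.pi_lt_d2
  have h0 := Real.pi_pos
  nlinarith

theorem lseries_le {f : ℕ → ℂ} (hf : ∀ n, ‖f n‖ ≤ 1) {δ : ℝ} (hδ : 1 < δ) {s : ℂ}
    (hs : δ ≤ s.re) : ‖LSeries f s‖ ≤ ∑' n : ℕ, 1 / (n : ℝ) ^ δ := by
  have hS : Summable (fun n : ℕ => 1 / (n : ℝ) ^ δ) := Real.summable_one_div_nat_rpow.2 hδ
  unfold LSeries
  apply tsum_of_norm_bounded hS.hasSum
  intro n
  rcases Nat.eq_zero_or_pos n with h | h
  · subst h
    rw [LSeries.term_zero, norm_zero]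
    positivity
  · rw [LSeries.term_of_ne_zero h.ne', norm_div, norm_natCast_cpow_of_pos h]
    have h1 : (n : ℝ) ^ δ ≤ (n : ℝ) ^ s.re := by
      apply Real.rpow_le_rpow_of_exponent_le _ hs
      exact_mod_cast h
    have : (0 : ℝ) < n := by exact_mod_cast h
    exact div_le_div₀ zero_le_one (hf n) (by positivity) h1

theorem zeta_series {s : ℂ} (hs : 1 < s.re) : riemannZeta s = LSeries (fun _ => (1 : ℂ)) s := by
  have h := LSeries_one_eq_riemannZeta hs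
  rw [← h]
  rfl

/-- the Moebius function as a complex-valued function -/
noncomputable def mu (n : ℕ) : ℂ := ((ArithmeticFunction.moebius n : ℤ) : ℂ)

theorem mu_norm (n : ℕ) : ‖mu n‖ ≤ 1 := by
  unfold mu
  rw [Complex.norm_intCast]
  exact_mod_cast ArithmeticFunction.abs_moebius_le_one

theorem mu_one : mu 1 = 1 := by
  unfold mu; simp

theorem zeta_inv_series {s : ℂ} (hs : 1 < s.re) : (riemannZeta s)⁻¹ = LSeries mu s := by
  have h := ArithmeticFunction.LSeries_zeta_mul_Lseries_moebius hs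
  rw [ArithmeticFunction.LSeries_zeta_eq_riemannZeta hs] at h
  have h2 : riemannZeta s * LSeries mu s = 1 := h
  exact inv_eq_of_mul_eq_one_right h2

theorem prime_cpow_norm (p : Nat.Primes) (z : ℂ) : ‖((p : ℕ) : ℂ) ^ z‖ = ((p : ℕ) : ℝ) ^ z.re :=
  norm_natCast_cpow_of_pos p.2.pos z

theorem two_cpow_norm (z : ℂ) : ‖(2 : ℂ) ^ z‖ = (2 : ℝ) ^ z.re := by
  have := norm_natCast_cpow_of_pos (n := 2) (by norm_num) z
  simpa using this

/-- the deviation of the factor at `p` from `1` -/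
noncomputable def gp (p : Nat.Primes) (α γ : ℂ) : ℂ :=
  if (p : ℕ) = 2 then 0 else
    ((p : ℂ) ^ (-1 - α - γ) - (p : ℂ) ^ (-1 - 2 * α)) /
      (((p : ℂ) + 1) * (1 - (p : ℂ) ^ (-1 - α - γ)))

theorem xy_le (p : Nat.Primes) {α γ : ℂ} (hα : 0 ≤ α.re) (hγ : 0 ≤ γ.re) :
    ‖((p : ℕ) : ℂ) ^ (-1 - α - γ)‖ ≤ ((p : ℕ) : ℝ) ^ (-1 - α.re) ∧
    ‖((p : ℕ) : ℂ) ^ (-1 - 2 * α)‖ ≤ ((p : ℕ) : ℝ) ^ (-1 - α.re) ∧
    ‖((p : ℕ) : ℂ) ^ (-1 - α - γ)‖ ≤ 1 / 2 := by
  have hp : (1 : ℝ) ≤ ((p : ℕ) : ℝ) := by exact_mod_cast p.2.one_lt.le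
  have hp2 : (2 : ℝ) ≤ ((p : ℕ) : ℝ) := by exact_mod_cast p.2.two_le
  have h1 : ‖((p : ℕ) : ℂ) ^ (-1 - α - γ)‖ ≤ ((p : ℕ) : ℝ) ^ (-1 - α.re) := by
    rw [prime_cpow_norm]
    apply Real.rpow_le_rpow_of_exponent_le hp
    simp
    linarith
  refine ⟨h1, ?_, ?_⟩
  · rw [prime_cpow_norm]
    apply Real.rpow_le_rpow_of_exponent_le hp
    simp
    linarith
  · refine h1.trans ?_
    calc ((p : ℕ) : ℝ) ^ (-1 - α.re) ≤ ((p : ℕ) : ℝ) ^ (-1 : ℝ) :=
          Real.rpow_le_rpow_of_exponent_le hp (by linarith)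
      _ = (((p : ℕ) : ℝ))⁻¹ := Real.rpow_neg_one _
      _ ≤ (2 : ℝ)⁻¹ := inv_anti₀ (by norm_num) hp2
      _ = 1 / 2 := by norm_num

theorem one_sub_ge (p : Nat.Primes) {α γ : ℂ} (hα : 0 ≤ α.re) (hγ : 0 ≤ γ.re) :
    1 / 2 ≤ ‖1 - ((p : ℕ) : ℂ) ^ (-1 - α - γ)‖ := by
  obtain ⟨-, -, h⟩ := xy_le p hα hγ
  have := norm_sub_norm_le (1 : ℂ) (((p : ℕ) : ℂ) ^ (-1 - α - γ))
  rw [norm_one] at this
  linarith

theorem gp_norm (p : Nat.Primes) {α γ : ℂ} (hα : 0 ≤ α.re) (hγ : 0 ≤ γ.re) :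
    ‖gp p α γ‖ ≤ 4 * ((p : ℕ) : ℝ) ^ (-2 - α.re) := by
  have hp : (0 : ℝ) < ((p : ℕ) : ℝ) := by exact_mod_cast p.2.pos
  unfold gp
  split_ifs with h
  · rw [norm_zero]; positivity
  · obtain ⟨h1, h2, -⟩ := xy_le p hα hγ
    have h3 := one_sub_ge p hα hγ
    have h4 : ‖((p : ℕ) : ℂ) + 1‖ = ((p : ℕ) : ℝ) + 1 := by
      have : ((p : ℕ) : ℂ) + 1 = ((((p : ℕ) : ℝ) + 1 : ℝ) : ℂ) := by push_cast; rfl
      rw [this, norm_real, Real.norm_eq_abs, abs_of_pos (by positivity)]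
    rw [norm_div, norm_mul, h4]
    have h5 : ((p : ℕ) : ℝ) ^ (-1 - α.re) = ((p : ℕ) : ℝ) * ((p : ℕ) : ℝ) ^ (-2 - α.re) := by
      rw [show -1 - α.re = 1 + (-2 - α.re) by ring, Real.rpow_add hp, Real.rpow_one]
    have h6 : ‖((p : ℕ) : ℂ) ^ (-1 - α - γ) - ((p : ℕ) : ℂ) ^ (-1 - 2 * α)‖ ≤
        2 * ((p : ℕ) : ℝ) ^ (-1 - α.re) := by
      refine (norm_sub_le _ _).trans ?_
      linarith
    rw [div_le_iff₀ (by positivity)]
    refine h6.trans ?_
    rw [h5]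
    have h7 : 0 < ((p : ℕ) : ℝ) ^ (-2 - α.re) := by positivity
    have h8 : ((p : ℕ) : ℝ) / 2 ≤ (((p : ℕ) : ℝ) + 1) * ‖1 - ((p : ℕ) : ℂ) ^ (-1 - α - γ)‖ := by
      nlinarith
    nlinarith [mul_le_mul_of_nonneg_left h8 h7.le]

theorem summable_primes_two : Summable (fun p : Nat.Primes => ((p : ℕ) : ℝ) ^ (-2 : ℝ)) :=
  Nat.Primes.summable_rpow.2 (by norm_num)

/-- the sum of `p^(-2)` over the primes -/
noncomputable def SP : ℝ := ∑' p : Nat.Primes, ((p : ℕ) : ℝ) ^ (-2 : ℝ)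

theorem SP_nonneg : 0 ≤ SP := tsum_nonneg fun p => by positivity

theorem gp_norm' (p : Nat.Primes) {α γ : ℂ} (hα : 0 ≤ α.re) (hγ : 0 ≤ γ.re) :
    ‖gp p α γ‖ ≤ 4 * (2 : ℝ) ^ (-α.re) * ((p : ℕ) : ℝ) ^ (-2 : ℝ) := by
  have hp : (0 : ℝ) < ((p : ℕ) : ℝ) := by exact_mod_cast p.2.pos
  have hp2 : (2 : ℝ) ≤ ((p : ℕ) : ℝ) := by exact_mod_cast p.2.two_le
  refine (gp_norm p hα hγ).trans ?_
  rw [show -2 - α.re = -α.re + -2 by ring, Real.rpow_add hp, mul_assoc]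
  have h : ((p : ℕ) : ℝ) ^ (-α.re) ≤ (2 : ℝ) ^ (-α.re) :=
    Real.rpow_le_rpow_of_nonpos (by norm_num) hp2 (by linarith)
  gcongr

theorem factor_eq (p : Nat.Primes) {α γ : ℂ} (hα : 0 ≤ α.re) (hγ : 0 ≤ γ.re) :
    (if (p : ℕ) = 2 then 1 else
      (1 - ((p : ℂ) + 1)⁻¹ * (p : ℂ) ^ (-1 - 2 * α) - ((p : ℂ) + 1)⁻¹ * (p : ℂ) ^ (-α - γ)) /
        (1 - (p : ℂ) ^ (-1 - α - γ))) = 1 + gp p α γ := by
  unfold gp
  split_ifs with h
  · simp
  · have hp0 : ((p : ℕ) : ℂ) ≠ 0 := by exact_mod_cast p.2.ne_zero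
    have hp1 : ((p : ℕ) : ℂ) + 1 ≠ 0 := by exact_mod_cast Nat.succ_ne_zero (p : ℕ)
    have h3 := one_sub_ge p hα hγ
    have h4 : 1 - ((p : ℕ) : ℂ) ^ (-1 - α - γ) ≠ 0 := by
      intro h5
      rw [h5, norm_zero] at h3
      norm_num at h3
    have h5 : ((p : ℕ) : ℂ) ^ (-α - γ) = (p : ℕ) * ((p : ℕ) : ℂ) ^ (-1 - α - γ) := by
      rw [show -α - γ = 1 + (-1 - α - γ) by ring, cpow_add _ _ hp0, cpow_one]
    rw [h5]
    field_simp
    ring

/-- the product over odd primes -/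
noncomputable def PP (α γ : ℂ) : ℂ := ∏' p : Nat.Primes, (1 + gp p α γ)

theorem AA_eq {α γ : ℂ} (hα : 0 ≤ α.re) (hγ : 0 ≤ γ.re) :
    AA α γ = (1 - 2 ^ (-1 - 2 * α)) / (1 - 2 ^ (-1 - α - γ)) * PP α γ := by
  unfold AA PP
  congr 1
  exact tprod_congr fun p => factor_eq p hα hγ

theorem gp_summable {α γ : ℂ} (hα : 0 ≤ α.re) (hγ : 0 ≤ γ.re) :
    Summable (fun p : Nat.Primes => ‖gp p α γ‖) := by
  refine Summable.of_nonneg_of_le (fun _ => norm_nonneg _) (fun p => gp_norm' p hα hγ) ?_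
  exact summable_primes_two.mul_left _

theorem PP_sub_one {α γ : ℂ} (hα : 0 ≤ α.re) (hγ : 0 ≤ γ.re) :
    ‖PP α γ - 1‖ ≤ Real.exp (4 * (2 : ℝ) ^ (-α.re) * SP) - 1 := by
  have hm : Multipliable (fun p : Nat.Primes => 1 + gp p α γ) :=
    multipliable_one_add_of_summable (gp_summable hα hγ)
  have ht : Tendsto (fun s : Finset Nat.Primes => ‖∏ p ∈ s, (1 + gp p α γ) - 1‖) atTop
      (𝓝 ‖PP α γ - 1‖) := (hm.hasProd.sub_const 1).norm
  refine le_of_tendsto' ht fun s => ?_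
  refine (s.norm_prod_one_add_sub_one_le _).trans ?_
  gcongr
  calc ∑ p ∈ s, ‖gp p α γ‖ ≤ ∑ p ∈ s, 4 * (2 : ℝ) ^ (-α.re) * ((p : ℕ) : ℝ) ^ (-2 : ℝ) :=
        Finset.sum_le_sum fun p _ => gp_norm' p hα hγ
    _ ≤ ∑' p : Nat.Primes, 4 * (2 : ℝ) ^ (-α.re) * ((p : ℕ) : ℝ) ^ (-2 : ℝ) :=
        (summable_primes_two.mul_left _).sum_le_tsum _ (fun p _ => by positivity)
    _ = _ := by rw [tsum_mul_left]; rfl

theorem two_rpow_le_one {x : ℝ} (hx : 0 ≤ x) : (2 : ℝ) ^ (-x) ≤ 1 :=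
  Real.rpow_le_one_of_one_le_of_nonpos (by norm_num) (by linarith)

theorem PP_sub_one' {α γ : ℂ} (hα : 0 ≤ α.re) (hγ : 0 ≤ γ.re) :
    ‖PP α γ - 1‖ ≤ 4 * SP * Real.exp (4 * SP) * (2 : ℝ) ^ (-α.re) := by
  refine (PP_sub_one hα hγ).trans ?_
  set x := 4 * (2 : ℝ) ^ (-α.re) * SP with hx
  have hx0 : 0 ≤ x := by have := SP_nonneg; positivity
  have h1 : Real.exp x - 1 ≤ x * Real.exp x := by
    have := Real.one_sub_le_exp_neg x
    have h2 : Real.exp x * Real.exp (-x) = 1 := by rw [← Real.exp_add]; simp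
    nlinarith [Real.exp_pos x]
  have h2 : x ≤ 4 * SP := by
    have := two_rpow_le_one hα
    have := SP_nonneg
    nlinarith
  calc Real.exp x - 1 ≤ x * Real.exp x := h1
    _ ≤ x * Real.exp (4 * SP) := by gcongr
    _ = _ := by rw [hx]; ring

theorem PP_diff {γ : ℂ} (hγ : 0 ≤ γ.re) : DifferentiableOn ℂ (fun α => PP α γ) {z | 0 < z.re} := by
  have hopen : IsOpen {z : ℂ | 0 < z.re} := isOpen_lt continuous_const continuous_re
  have hd : ∀ p : Nat.Primes, DifferentiableOn ℂ (fun α => gp p α γ) {z | 0 < z.re} := by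
    intro p
    have hp0 : ((p : ℕ) : ℂ) ≠ 0 := by exact_mod_cast p.2.ne_zero
    have hp1 : ((p : ℕ) : ℂ) + 1 ≠ 0 := by exact_mod_cast Nat.succ_ne_zero (p : ℕ)
    unfold gp
    split_ifs with h
    · exact differentiableOn_const 0
    · intro z hz
      have hz' : 0 ≤ z.re := le_of_lt hz
      have h3 := one_sub_ge p hz' hγ
      have h4 : 1 - ((p : ℕ) : ℂ) ^ (-1 - z - γ) ≠ 0 := by
        intro h5
        rw [h5, norm_zero] at h3
        norm_num at h3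
      apply DifferentiableAt.differentiableWithinAt
      apply DifferentiableAt.div
      · apply DifferentiableAt.sub
        · exact DifferentiableAt.const_cpow (by fun_prop) (Or.inl hp0)
        · exact DifferentiableAt.const_cpow (by fun_prop) (Or.inl hp0)
      · apply DifferentiableAt.mul (by fun_prop)
        apply DifferentiableAt.sub (by fun_prop)
        exact DifferentiableAt.const_cpow (by fun_prop) (Or.inl hp0)
      · exact mul_ne_zero hp1 h4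
  have hu : Summable (fun p : Nat.Primes => 4 * ((p : ℕ) : ℝ) ^ (-2 : ℝ)) :=
    summable_primes_two.mul_left _
  have h := hu.hasProdLocallyUniformlyOn_one_add (f := fun p α => gp p α γ) hopen
    (Eventually.of_forall fun p z hz => by
      have hz' : 0 ≤ z.re := le_of_lt hz
      refine (gp_norm' p hz' hγ).trans ?_
      have := two_rpow_le_one hz'
      gcongr
      linarith) (fun p => (hd p).continuousOn)
  refine h.differentiableOn (Eventually.of_forall fun s => ?_) hopen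
  have : DifferentiableOn ℂ (fun α => ∏ p ∈ s, (1 + gp p α γ)) {z | 0 < z.re} :=
    DifferentiableOn.fun_finsetProd fun p _ => (differentiableOn_const 1).add (hd p)
  exact this

theorem mul_close {a b : ℂ} {c c' x : ℝ} (hx : 0 ≤ x) (hx1 : x ≤ 1) (hc : 0 ≤ c)
    (ha : ‖a - 1‖ ≤ c * x) (hb : ‖b - 1‖ ≤ c' * x) : ‖a * b - 1‖ ≤ (c + c' + c * c') * x := by
  have h1 : a * b - 1 = (a - 1) * (b - 1) + (a - 1) + (b - 1) := by ring
  have h2 : ‖a * b - 1‖ ≤ ‖a - 1‖ * ‖b - 1‖ + ‖a - 1‖ + ‖b - 1‖ := by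
    rw [h1, ← norm_mul]
    exact norm_add₃_le
  have h3 : ‖a - 1‖ * ‖b - 1‖ ≤ (c * x) * (c' * x) :=
    mul_le_mul ha hb (norm_nonneg _) (by positivity)
  have hc' : 0 ≤ c' * x := (norm_nonneg _).trans hb
  have h4 : (c * x) * (c' * x) ≤ c * (c' * x) := by
    have := mul_le_mul_of_nonneg_left hx1 (mul_nonneg hc hc')
    nlinarith
  nlinarith

theorem Phi_eq {α γ : ℂ} (hα : 0 ≤ α.re) (hγ : 0 ≤ γ.re) :
    Phi α γ = riemannZeta (1 + 2 * α) * ((1 - 2 ^ (-1 - 2 * α)) / (1 - 2 ^ (-1 - α - γ)) *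
      PP α γ) * (riemannZeta (1 + α + γ))⁻¹ := by
  unfold Phi
  rw [AA_eq hα hγ, div_eq_mul_inv (riemannZeta (1 + 2 * α) * _)]

theorem two_fac {α γ : ℂ} (hα : 0 ≤ α.re) (hγ : 0 ≤ γ.re) :
    1 / 2 ≤ ‖(1 : ℂ) - 2 ^ (-1 - α - γ)‖ := by
  have h : ‖(2 : ℂ) ^ (-1 - α - γ)‖ ≤ 1 / 2 := by
    rw [two_cpow_norm]
    calc (2 : ℝ) ^ (-1 - α - γ).re ≤ (2 : ℝ) ^ (-1 : ℝ) := by
          apply Real.rpow_le_rpow_of_exponent_le (by norm_num)
          simp
          linarith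
      _ = 1 / 2 := by rw [Real.rpow_neg_one]; norm_num
  have := norm_sub_norm_le (1 : ℂ) ((2 : ℂ) ^ (-1 - α - γ))
  rw [norm_one] at this
  linarith

theorem Phi_diff {γ : ℂ} (hγ : 0 ≤ γ.re) :
    DifferentiableOn ℂ (fun α => Phi α γ) {z | 0 < z.re} := by
  have h2 : (2 : ℂ) ≠ 0 := by norm_num
  have h : DifferentiableOn ℂ (fun α => riemannZeta (1 + 2 * α) *
      ((1 - 2 ^ (-1 - 2 * α)) / (1 - 2 ^ (-1 - α - γ)) * PP α γ) *
      (riemannZeta (1 + α + γ))⁻¹) {z | 0 < z.re} := by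
    apply DifferentiableOn.mul
    · apply DifferentiableOn.mul
      · intro z hz
        have hz' : 0 < z.re := hz
        apply DifferentiableAt.differentiableWithinAt
        have h1 : (1 : ℂ) + 2 * z ≠ 1 := by
          intro h
          have := congrArg Complex.re h
          simp at this
          linarith
        exact (differentiableAt_riemannZeta h1).comp z (by fun_prop)
      · apply DifferentiableOn.mul _ (PP_diff hγ)
        intro z hz
        have hz' : 0 ≤ z.re := le_of_lt hz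
        apply DifferentiableAt.differentiableWithinAt
        apply DifferentiableAt.div
        · apply DifferentiableAt.sub (by fun_prop)
          exact DifferentiableAt.const_cpow (by fun_prop) (Or.inl h2)
        · apply DifferentiableAt.sub (by fun_prop)
          exact DifferentiableAt.const_cpow (by fun_prop) (Or.inl h2)
        · intro h5
          have := two_fac hz' hγ
          rw [h5, norm_zero] at this
          norm_num at this
    · intro z hz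
      have hz' : 0 < z.re := hz
      apply DifferentiableAt.differentiableWithinAt
      have hre : 1 < (1 + z + γ).re := by simp; linarith
      have h1 : (1 : ℂ) + z + γ ≠ 1 := by
        intro h
        rw [h] at hre
        simp at hre
      have h3 : riemannZeta (1 + z + γ) ≠ 0 := riemannZeta_ne_zero_of_one_lt_re hre
      have h4 : DifferentiableAt ℂ (fun z => riemannZeta (1 + z + γ)) z :=
        (differentiableAt_riemannZeta h1).comp z (by fun_prop)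
      exact h4.inv h3
  refine h.congr fun z hz => ?_
  exact Phi_eq (le_of_lt hz) hγ

theorem Phi_bound : ∃ C : ℝ, 0 ≤ C ∧ ∀ α γ : ℂ, 1 / 5 ≤ α.re → γ.re = 1 / 10 →
    ‖Phi α γ - 1‖ ≤ C := by
  set Z1 := ∑' n : ℕ, 1 / (n : ℝ) ^ (7 / 5 : ℝ) with hZ1
  set Z2 := ∑' n : ℕ, 1 / (n : ℝ) ^ (13 / 10 : ℝ) with hZ2
  have hZ1' : 0 ≤ Z1 := tsum_nonneg fun n => by positivity
  have hZ2' : 0 ≤ Z2 := tsum_nonneg fun n => by positivity
  refine ⟨Z1 * (4 * Real.exp (4 * SP)) * Z2 + 1, by positivity, ?_⟩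
  intro α γ hα hγ
  have hα0 : 0 ≤ α.re := by linarith
  have hγ0 : 0 ≤ γ.re := by rw [hγ]; norm_num
  have h1 : ‖riemannZeta (1 + 2 * α)‖ ≤ Z1 := by
    have hre : 7 / 5 ≤ (1 + 2 * α).re := by simp; linarith
    rw [zeta_series (by linarith)]
    exact lseries_le (fun _ => by simp) (by norm_num) hre
  have h2 : ‖(riemannZeta (1 + α + γ))⁻¹‖ ≤ Z2 := by
    have hre : 13 / 10 ≤ (1 + α + γ).re := by simp; linarith
    rw [zeta_inv_series (by linarith)]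
    exact lseries_le mu_norm (by norm_num) hre
  have h3 : ‖PP α γ‖ ≤ Real.exp (4 * SP) := by
    have h := PP_sub_one hα0 hγ0
    have h4 : Real.exp (4 * (2 : ℝ) ^ (-α.re) * SP) ≤ Real.exp (4 * SP) := by
      apply Real.exp_le_exp.2
      have := two_rpow_le_one hα0
      have := SP_nonneg
      nlinarith
    have h5 : ‖PP α γ‖ ≤ ‖PP α γ - 1‖ + ‖(1 : ℂ)‖ := by
      have := norm_add_le (PP α γ - 1) 1
      rwa [sub_add_cancel] at this
    rw [norm_one] at h5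
    linarith
  have h4 : ‖(1 : ℂ) - 2 ^ (-1 - 2 * α)‖ ≤ 2 := by
    refine (norm_sub_le _ _).trans ?_
    rw [two_cpow_norm, norm_one]
    have : (2 : ℝ) ^ (-1 - 2 * α).re ≤ 1 := by
      apply Real.rpow_le_one_of_one_le_of_nonpos (by norm_num)
      simp
      linarith
    linarith
  have h5 := two_fac hα0 hγ0
  have h6 : ‖((1 : ℂ) - 2 ^ (-1 - 2 * α)) / (1 - 2 ^ (-1 - α - γ))‖ ≤ 4 := by
    rw [norm_div, div_le_iff₀ (by linarith)]
    linarith
  refine (norm_sub_le _ _).trans ?_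
  rw [norm_one, Phi_eq hα0 hγ0, norm_mul, norm_mul, norm_mul]
  gcongr

theorem Phi_far : ∃ C : ℝ, 0 ≤ C ∧ ∀ α γ : ℂ, 2 ≤ α.re → γ.re = 1 / 10 →
    ‖Phi α γ - 1‖ ≤ C * (2 : ℝ) ^ (-α.re) := by
  set c : ℝ := 4 * SP * Real.exp (4 * SP) with hc
  have hc0 : 0 ≤ c := by have := SP_nonneg; positivity
  set c1 : ℝ := 2 + c + 2 * c with hc1
  set c2 : ℝ := 2 + c1 + 2 * c1 with hc2
  have hc10 : 0 ≤ c1 := by positivity
  have hc20 : 0 ≤ c2 := by positivity
  refine ⟨c2 + 2 + c2 * 2, by positivity, ?_⟩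
  intro α γ hα hγ
  have hα0 : 0 ≤ α.re := by linarith
  have hγ0 : 0 ≤ γ.re := by rw [hγ]; norm_num
  set x : ℝ := (2 : ℝ) ^ (-α.re) with hx
  have hx0 : 0 ≤ x := by positivity
  have hx1 : x ≤ 1 := two_rpow_le_one hα0
  have h1 : ‖riemannZeta (1 + 2 * α) - 1‖ ≤ 2 * x := by
    have hre : 2 ≤ (1 + 2 * α).re := by simp; linarith
    rw [zeta_series (by linarith)]
    refine (lseries_sub_one (fun _ => by simp) rfl hre).trans ?_
    have : (2 : ℝ) ^ (2 - (1 + 2 * α).re) ≤ 2 * x := by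
      have e : 2 * x = (2 : ℝ) ^ (1 + -α.re) := by
        rw [Real.rpow_add (by norm_num), Real.rpow_one]
      rw [e]
      apply Real.rpow_le_rpow_of_exponent_le (by norm_num)
      simp
      linarith
    nlinarith
  have h2 : ‖(riemannZeta (1 + α + γ))⁻¹ - 1‖ ≤ 2 * x := by
    have hre : 2 ≤ (1 + α + γ).re := by simp; linarith
    rw [zeta_inv_series (by linarith)]
    refine (lseries_sub_one mu_norm mu_one hre).trans ?_
    have : (2 : ℝ) ^ (2 - (1 + α + γ).re) ≤ 2 * x := by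
      have e : 2 * x = (2 : ℝ) ^ (1 + -α.re) := by
        rw [Real.rpow_add (by norm_num), Real.rpow_one]
      rw [e]
      apply Real.rpow_le_rpow_of_exponent_le (by norm_num)
      simp
      linarith
    nlinarith
  have h3 : ‖PP α γ - 1‖ ≤ c * x := PP_sub_one' hα0 hγ0
  have h5 := two_fac hα0 hγ0
  have h4 : ‖((1 : ℂ) - 2 ^ (-1 - 2 * α)) / (1 - 2 ^ (-1 - α - γ)) - 1‖ ≤ 2 * x := by
    have hne : (1 : ℂ) - 2 ^ (-1 - α - γ) ≠ 0 := by
      intro h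
      rw [h, norm_zero] at h5
      norm_num at h5
    rw [div_sub_one hne, norm_div, div_le_iff₀ (by linarith)]
    have e : (1 : ℂ) - 2 ^ (-1 - 2 * α) - (1 - 2 ^ (-1 - α - γ)) =
        2 ^ (-1 - α - γ) - 2 ^ (-1 - 2 * α) := by ring
    rw [e]
    have a1 : ‖(2 : ℂ) ^ (-1 - α - γ)‖ ≤ x / 2 := by
      rw [two_cpow_norm, hx]
      calc (2 : ℝ) ^ (-1 - α - γ).re ≤ (2 : ℝ) ^ (-α.re - 1) := by
            apply Real.rpow_le_rpow_of_exponent_le (by norm_num)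
            simp
            linarith
        _ = _ := by rw [Real.rpow_sub_one (by norm_num)]
    have a2 : ‖(2 : ℂ) ^ (-1 - 2 * α)‖ ≤ x / 2 := by
      rw [two_cpow_norm, hx]
      calc (2 : ℝ) ^ (-1 - 2 * α).re ≤ (2 : ℝ) ^ (-α.re - 1) := by
            apply Real.rpow_le_rpow_of_exponent_le (by norm_num)
            simp
            linarith
        _ = _ := by rw [Real.rpow_sub_one (by norm_num)]
    have a3 := norm_sub_le ((2 : ℂ) ^ (-1 - α - γ)) ((2 : ℂ) ^ (-1 - 2 * α))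
    nlinarith
  have m1 := mul_close hx0 hx1 (by norm_num) h4 h3
  have m2 := mul_close hx0 hx1 (by norm_num) h1 (show _ ≤ c1 * x from m1)
  have m3 := mul_close hx0 hx1 hc20 (show _ ≤ c2 * x from m2) h2
  rw [Phi_eq hα0 hγ0]
  exact m3

end Pool.Agent.H491R3
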