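import Pool.Agent.H491R3.Gauss

set_option autoImplicit false

namespace Pool.Agent.H491R3

open Complex MeasureTheory Set

theorem l2_bound {ι : Type*} (S : Finset ι) (c : ι → ℂ) (l : ι → ℝ) {U : ℝ} (hU : 0 < U) (T : ℝ) :
    Integrable (fun t : ℝ => Real.exp (-((t - T) ^ 2 / U ^ 2)) *
      ‖∑ a ∈ S, c a * exp (-(t * l a * I))‖ ^ 2) ∧
    ∫ t : ℝ, Real.exp (-((t - T) ^ 2 / U ^ 2)) * ‖∑ a ∈ S, c a * exp (-(t * l a * I))‖ ^ 2 ≤
      Real.sqrt Real.pi * U * ∑ a ∈ S, ∑ b ∈ S, ‖c a‖ * ‖c b‖ *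
        Real.exp (-(U ^ 2 * (l b - l a) ^ 2 / 4)) := by
  set F : ι → ι → ℝ → ℂ := fun a b t => c a * (starRingEnd ℂ) (c b) *
    (KK U T ((0 : ℝ) + t * I) * exp (((0 : ℝ) + t * I) * ((l b - l a : ℝ) : ℂ))) with hF
  set g : ℝ → ℝ := fun t => Real.exp (-((t - T) ^ 2 / U ^ 2)) *
      ‖∑ a ∈ S, c a * exp (-(t * l a * I))‖ ^ 2 with hg
  have hK : ∀ t : ℝ, KK U T ((0 : ℝ) + t * I) = ((Real.exp (-((t - T) ^ 2 / U ^ 2)) : ℝ) : ℂ) := by
    intro t
    unfold KK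
    rw [ofReal_exp]
    congr 1
    push_cast
    have : ((0 : ℂ) + t * I - T * I) ^ 2 = (t - T) ^ 2 * I ^ 2 := by ring
    rw [this, I_sq]
    ring
  have hpt : ∀ t : ℝ, ((g t : ℝ) : ℂ) = ∑ a ∈ S, ∑ b ∈ S, F a b t := by
    intro t
    simp only [hg, hF]
    rw [ofReal_mul, ← hK t]
    have h1 : (((‖∑ a ∈ S, c a * exp (-(t * l a * I))‖ ^ 2 : ℝ)) : ℂ) =
        (∑ a ∈ S, c a * exp (-(t * l a * I))) *
        (starRingEnd ℂ) (∑ a ∈ S, c a * exp (-(t * l a * I))) := by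
      rw [mul_conj, normSq_eq_norm_sq]
    rw [h1, map_sum, Finset.sum_mul_sum, Finset.mul_sum]
    apply Finset.sum_congr rfl
    intro a _
    rw [Finset.mul_sum]
    apply Finset.sum_congr rfl
    intro b _
    rw [map_mul, ← exp_conj]
    have h2 : (starRingEnd ℂ) (-(t * l b * I)) = t * l b * I := by
      simp only [map_neg, map_mul, conj_ofReal, conj_I]
      ring
    rw [h2]
    have h3 : exp (((0 : ℝ) + t * I) * ((l b - l a : ℝ) : ℂ)) =
        exp (-(t * l a * I)) * exp (t * l b * I) := by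
      rw [← exp_add]
      congr 1
      push_cast
      ring
    rw [h3]
    ring
  have hint : ∀ a b, Integrable (F a b) := fun a b =>
    (gauss_integrable hU 0 T (l b - l a)).const_mul _
  have hcint : Integrable (fun t => ((g t : ℝ) : ℂ)) := by
    have : (fun t => ((g t : ℝ) : ℂ)) = fun t => ∑ a ∈ S, ∑ b ∈ S, F a b t := funext hpt
    rw [this]
    exact integrable_finsetSum _ fun a _ => integrable_finsetSum _ fun b _ => hint a b
  have hgi : Integrable g := by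
    have := hcint.re
    simpa using this
  refine ⟨hgi, ?_⟩
  have hg0 : 0 ≤ ∫ t, g t := integral_nonneg fun t => by positivity
  have h4 : ((∫ t, g t : ℝ) : ℂ) = ∑ a ∈ S, ∑ b ∈ S, c a * (starRingEnd ℂ) (c b) *
      ((Real.sqrt Real.pi * U : ℝ) * exp (T * ((l b - l a : ℝ) : ℂ) * I) *
        (Real.exp (-(U ^ 2 * (l b - l a) ^ 2 / 4)) : ℝ)) := by
    rw [← integral_complex_ofReal]
    have : (fun t => ((g t : ℝ) : ℂ)) = fun t => ∑ a ∈ S, ∑ b ∈ S, F a b t := funext hpt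
    rw [this, integral_finsetSum _ fun a _ => integrable_finsetSum _ fun b _ => hint a b]
    apply Finset.sum_congr rfl
    intro a _
    rw [integral_finsetSum _ fun b _ => hint a b]
    apply Finset.sum_congr rfl
    intro b _
    simp only [hF]
    rw [integral_const_mul, gauss_full hU 0 T (l b - l a)]
  have h5 : ∫ t, g t = ‖((∫ t, g t : ℝ) : ℂ)‖ := by
    rw [norm_real, Real.norm_eq_abs, abs_of_nonneg hg0]
  rw [h5, h4, Finset.mul_sum]
  refine (norm_sum_le _ _).trans (Finset.sum_le_sum fun a _ => ?_)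
  rw [Finset.mul_sum]
  refine (norm_sum_le _ _).trans (Finset.sum_le_sum fun b _ => ?_)
  rw [norm_mul, norm_mul, norm_mul, norm_mul, RCLike.norm_conj, norm_real, norm_real]
  have h6 : ‖exp (T * ((l b - l a : ℝ) : ℂ) * I)‖ = 1 := by
    rw [← ofReal_mul]
    exact norm_exp_ofReal_mul_I _
  rw [h6, Real.norm_eq_abs, Real.norm_eq_abs, abs_of_pos (Real.exp_pos _),
    abs_of_nonneg (by positivity)]
  exact le_of_eq (by ring)

theorem gauss_one {U : ℝ} (hU : 0 < U) (T : ℝ) :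
    Integrable (fun t : ℝ => Real.exp (-((t - T) ^ 2 / U ^ 2))) ∧
    ∫ t : ℝ, Real.exp (-((t - T) ^ 2 / U ^ 2)) = Real.sqrt Real.pi * U := by
  have hU2 : 0 < U / Real.sqrt 2 := by positivity
  obtain ⟨h1, h2⟩ := gauss_real hU2 T
  have hs : Real.sqrt 2 ^ 2 = 2 := Real.sq_sqrt (by norm_num)
  have e : (fun t : ℝ => Real.exp (-((t - T) ^ 2 / (2 * (U / Real.sqrt 2) ^ 2)))) =
      fun t : ℝ => Real.exp (-((t - T) ^ 2 / U ^ 2)) := by
    funext t
    congr 3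
    rw [div_pow, hs]
    ring
  rw [e] at h1 h2
  refine ⟨h1, ?_⟩
  rw [h2, Real.sqrt_mul (by norm_num)]
  have : Real.sqrt 2 ≠ 0 := by positivity
  field_simp

/-- the first moment of the polynomial against the Gaussian weight -/
theorem l1_bound {ι : Type*} (S : Finset ι) (c : ι → ℂ) (l : ι → ℝ) {U : ℝ} (hU : 0 < U) (T : ℝ)
    {lam : ℝ} (hlam : 0 < lam) (hb : ∑ a ∈ S, ∑ b ∈ S, ‖c a‖ * ‖c b‖ *
        Real.exp (-(U ^ 2 * (l b - l a) ^ 2 / 4)) ≤ lam ^ 2) :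
    Integrable (fun t : ℝ => Real.exp (-((t - T) ^ 2 / U ^ 2)) *
      ‖∑ a ∈ S, c a * exp (-(t * l a * I))‖) ∧
    ∫ t : ℝ, Real.exp (-((t - T) ^ 2 / U ^ 2)) * ‖∑ a ∈ S, c a * exp (-(t * l a * I))‖ ≤
      Real.sqrt Real.pi * U * lam := by
  obtain ⟨g1, g2⟩ := l2_bound S c l hU T
  obtain ⟨h1, h2⟩ := gauss_one hU T
  set ψ : ℝ → ℝ := fun t => ‖∑ a ∈ S, c a * exp (-(t * l a * I))‖ with hψ
  have hpt : ∀ t : ℝ, Real.exp (-((t - T) ^ 2 / U ^ 2)) * ψ t ≤
      (lam / 2) * Real.exp (-((t - T) ^ 2 / U ^ 2)) +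
      (1 / (2 * lam)) * (Real.exp (-((t - T) ^ 2 / U ^ 2)) * ψ t ^ 2) := by
    intro t
    have h3 : ψ t ≤ lam / 2 + (1 / (2 * lam)) * ψ t ^ 2 := by
      have : lam / 2 + (1 / (2 * lam)) * ψ t ^ 2 - ψ t = (lam - ψ t) ^ 2 / (2 * lam) := by
        field_simp
        ring
      have h0 : 0 ≤ (lam - ψ t) ^ 2 / (2 * lam) := by positivity
      linarith
    have := mul_le_mul_of_nonneg_left h3 (Real.exp_pos (-((t - T) ^ 2 / U ^ 2))).le
    linarith
  have hi2 : Integrable (fun t : ℝ => (lam / 2) * Real.exp (-((t - T) ^ 2 / U ^ 2)) +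
      (1 / (2 * lam)) * (Real.exp (-((t - T) ^ 2 / U ^ 2)) * ψ t ^ 2)) :=
    (h1.const_mul _).add (g1.const_mul _)
  have hcont : Continuous (fun t : ℝ => Real.exp (-((t - T) ^ 2 / U ^ 2)) * ψ t) := by
    simp only [hψ]
    fun_prop
  have hi1 : Integrable (fun t : ℝ => Real.exp (-((t - T) ^ 2 / U ^ 2)) * ψ t) := by
    refine hi2.mono' hcont.aestronglyMeasurable (Filter.Eventually.of_forall fun t => ?_)
    rw [Real.norm_eq_abs, abs_of_nonneg (by positivity)]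
    exact hpt t
  refine ⟨hi1, ?_⟩
  calc ∫ t : ℝ, Real.exp (-((t - T) ^ 2 / U ^ 2)) * ψ t ≤
      ∫ t : ℝ, ((lam / 2) * Real.exp (-((t - T) ^ 2 / U ^ 2)) +
      (1 / (2 * lam)) * (Real.exp (-((t - T) ^ 2 / U ^ 2)) * ψ t ^ 2)) :=
        integral_mono hi1 hi2 hpt
    _ = (lam / 2) * (Real.sqrt Real.pi * U) +
        (1 / (2 * lam)) * ∫ t : ℝ, Real.exp (-((t - T) ^ 2 / U ^ 2)) * ψ t ^ 2 := by
        rw [integral_add (h1.const_mul _) (g1.const_mul _), integral_const_mul, integral_const_mul, h2]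
    _ ≤ (lam / 2) * (Real.sqrt Real.pi * U) +
        (1 / (2 * lam)) * (Real.sqrt Real.pi * U * lam ^ 2) := by
        have h5 := g2.trans (mul_le_mul_of_nonneg_left hb (by positivity))
        gcongr
    _ = _ := by
        field_simp
        ring

end Pool.Agent.H491R3
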