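import Pool.Agent.H491R3.Setup

set_option autoImplicit false

namespace Pool.Agent.H491R3

open Finset Complex

/-- the correlation of two characters over the primes -/
noncomputable def GG (r : ℕ) (d e : OddSqf) : ℝ := ∑ p ∈ PQ r, kr d p * kr e p

theorem sum_mm (w : ℝ → ℝ) (r : ℕ) : ∑ p ∈ PQ r, mm w r p = ∑ d ∈ Dr r, ∑ e ∈ Sr r,
    ((vv w r d * Wr d * Wr e * GG r d e : ℝ) : ℂ) *
    (sg d * Kap ((r : ℝ) ^ 96) ((r : ℝ) ^ 98) (ll d e)) := by
  unfold mm
  rw [sum_comm]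
  apply sum_congr rfl
  intro d _
  rw [sum_comm]
  apply sum_congr rfl
  intro e _
  rw [← sum_mul]
  congr 1
  unfold GG
  push_cast
  rw [mul_sum]
  apply sum_congr rfl
  intro p _
  ring

theorem abs_eq_cases (d e : OddSqf) (h : |(d.1 : ℝ)| = |(e.1 : ℝ)|) : d.1 = e.1 ∨ d.1 = -e.1 := by
  rcases abs_eq_abs.1 h with h | h
  · left; exact_mod_cast h
  · right; exact_mod_cast h

theorem term_lower (w : ℝ → ℝ) (r : ℕ) {d e : OddSqf} (he : 0 < e.1) :
    (if d = e then vv w r d * GG r d d else 0) -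
      (if |(d.1 : ℝ)| = |(e.1 : ℝ)| then 0 else
        |vv w r d| * |GG r d e| * Real.exp (-(((r : ℝ) ^ 96) ^ 2 * (ll d e) ^ 2 / 4))) ≤
    (((vv w r d * Wr d * Wr e * GG r d e : ℝ) : ℂ) *
    (sg d * Kap ((r : ℝ) ^ 96) ((r : ℝ) ^ 98) (ll d e))).re := by
  rw [re_ofReal_mul]
  by_cases habs : |(d.1 : ℝ)| = |(e.1 : ℝ)|
  · rw [if_pos habs, sub_zero]
    have hl : ll d e = 0 := by unfold ll; rw [habs, sub_self]
    rw [hl, Kap_zero, mul_one]
    by_cases hde : d = e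
    · rw [if_pos hde]
      subst hde
      have hsg : sg d = 1 := by unfold sg; rw [if_pos he]
      rw [hsg, one_re, mul_one]
      have := Wr_sq d
      apply le_of_eq
      calc vv w r d * GG r d d = vv w r d * (Wr d * Wr d) * GG r d d := by rw [this, mul_one]
        _ = _ := by ring
    · rw [if_neg hde]
      rcases abs_eq_cases d e habs with h | h
      · exact absurd (Subtype.ext h) hde
      · have hneg : ¬ (0 < d.1) := by omega
        have hsg : sg d = I := by unfold sg; rw [if_neg hneg]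
        rw [hsg, I_re, mul_zero]
  · rw [if_neg habs]
    have hde : d ≠ e := by rintro rfl; exact habs rfl
    rw [if_neg hde, zero_sub]
    have h1 : |(sg d * Kap ((r : ℝ) ^ 96) ((r : ℝ) ^ 98) (ll d e)).re| ≤
        Real.exp (-(((r : ℝ) ^ 96) ^ 2 * (ll d e) ^ 2 / 4)) := by
      refine (abs_re_le_norm _).trans ?_
      rw [norm_mul, sg_norm, one_mul, Kap_norm]
    have h2 : |vv w r d * Wr d * Wr e * GG r d e| = |vv w r d| * |GG r d e| := by
      rw [abs_mul, abs_mul, abs_mul, Wr_abs, Wr_abs]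
      ring
    have h3 := neg_abs_le (vv w r d * Wr d * Wr e * GG r d e *
      (sg d * Kap ((r : ℝ) ^ 96) ((r : ℝ) ^ 98) (ll d e)).re)
    rw [abs_mul, h2] at h3
    have h4 : |vv w r d| * |GG r d e| * |(sg d * Kap ((r : ℝ) ^ 96) ((r : ℝ) ^ 98) (ll d e)).re| ≤
        |vv w r d| * |GG r d e| * Real.exp (-(((r : ℝ) ^ 96) ^ 2 * (ll d e) ^ 2 / 4)) := by
      gcongr
    linarith

theorem neg_mem {d : ℤ} (h : Odd d ∧ Squarefree d) : Odd (-d) ∧ Squarefree (-d) :=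
  ⟨h.1.neg, by rw [← Int.squarefree_natAbs, Int.natAbs_neg, Int.squarefree_natAbs]; exact h.2⟩

/-- half of the weight sits on the window -/
theorem half_weight {w : ℝ → ℝ} (hw : Wt w) {r : ℕ} (hr : 1 ≤ r) :
    ∑ e ∈ Sr r, w (e.1 / (r : ℝ) ^ 100) = W1 w r / 2 := by
  classical
  have hr0 : (0 : ℝ) < (r : ℝ) ^ 100 := by
    have : (0 : ℝ) < r := by exact_mod_cast hr
    positivity
  set A := (Dr r).filter (fun d => 0 < d.1) with hA
  set B := (Dr r).filter (fun d => ¬ 0 < d.1) with hB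
  have h1 : W1 w r = ∑ d ∈ A, w (d.1 / (r : ℝ) ^ 100) + ∑ d ∈ B, w (d.1 / (r : ℝ) ^ 100) := by
    unfold W1
    rw [hA, hB, sum_filter_add_sum_filter_not]
  have h2 : ∑ d ∈ B, w (d.1 / (r : ℝ) ^ 100) = ∑ d ∈ A, w (d.1 / (r : ℝ) ^ 100) := by
    apply Finset.sum_nbij' (fun d => (⟨-d.1, neg_mem d.2⟩ : OddSqf))
      (fun d => (⟨-d.1, neg_mem d.2⟩ : OddSqf))
    · intro d hd
      rw [hB, mem_filter] at hd
      rw [hA, mem_filter]
      have hne := OddSqf.ne_zero d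
      refine ⟨?_, ?_⟩
      · have h := hd.1
        unfold Dr at h ⊢
        rw [mem_Dset] at h ⊢
        simpa using h
      · have := hd.2
        simp only
        omega
    · intro d hd
      rw [hA, mem_filter] at hd
      rw [hB, mem_filter]
      refine ⟨?_, ?_⟩
      · have h := hd.1
        unfold Dr at h ⊢
        rw [mem_Dset] at h ⊢
        simpa using h
      · have := hd.2
        simp only
        omega
    · intro d _; apply Subtype.ext; simp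
    · intro d _; apply Subtype.ext; simp
    · intro d _
      simp only
      rw [Int.cast_neg, neg_div, hw.even]
  have h3 : ∑ d ∈ A, w (d.1 / (r : ℝ) ^ 100) = ∑ e ∈ Sr r, w (e.1 / (r : ℝ) ^ 100) := by
    symm
    apply sum_subset
    · intro d hd
      rw [hA, mem_filter]
      exact ⟨(mem_Sr.1 hd).1, (Sr_window hd).2.1⟩
    · intro d hd hd2
      rw [hA, mem_filter] at hd
      by_contra h
      obtain ⟨h4, h5⟩ := hw.supp _ h
      apply hd2
      rw [mem_Sr]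
      have hpos : (0 : ℝ) < d.1 := by exact_mod_cast hd.2
      rw [abs_of_pos (by positivity), lt_div_iff₀ hr0, one_mul] at h4
      rw [abs_of_pos (by positivity), div_lt_iff₀ hr0] at h5
      refine ⟨hd.1, by exact_mod_cast h4, ?_⟩
      have : 2 * (d.1 : ℝ) < 3 * (r : ℝ) ^ 100 := by linarith
      exact_mod_cast this
  rw [h1, h2, h3]
  ring

/-- few of the primes divide a given `d` -/
theorem few_divisors {r : ℕ} (hr : 3 ≤ r) {d : OddSqf} (hd : d ∈ Dr r) :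
    #((PQ r).filter (fun p => p ∣ d.1.natAbs)) ≤ 10 := by
  set Q' := (PQ r).filter (fun p => p ∣ d.1.natAbs) with hQ'
  have hdpos : 0 < d.1.natAbs := Int.natAbs_pos.2 d.ne_zero
  have h1 : ∏ p ∈ Q', p ∣ d.1.natAbs := by
    apply Finset.prod_primes_dvd
    · intro p hp
      rw [hQ', mem_filter] at hp
      exact Nat.prime_iff.1 (mem_PQ hp.1 (by omega)).1
    · intro p hp
      rw [hQ', mem_filter] at hp
      exact hp.2
  have h2 : (r ^ 10) ^ #Q' ≤ ∏ p ∈ Q', p := by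
    apply Finset.pow_card_le_prod
    intro p hp
    rw [hQ', mem_filter] at hp
    have := (mem_PQ hp.1 (by omega)).2.2.1
    exact_mod_cast this
  have h3 : d.1.natAbs ≤ 2 * r ^ 100 := by
    unfold Dr at hd
    rw [mem_Dset] at hd
    have : ((d.1.natAbs : ℕ) : ℤ) ≤ ((2 * r ^ 100 : ℕ) : ℤ) := by
      rw [Int.natCast_natAbs]; exact hd
    exact_mod_cast this
  have h4 := Nat.le_of_dvd hdpos h1
  have h5 : r ^ (10 * #Q') < r ^ 101 := by
    rw [pow_mul]
    calc (r ^ 10) ^ #Q' ≤ 2 * r ^ 100 := h2.trans (h4.trans h3)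
      _ < r * r ^ 100 := by
        apply Nat.mul_lt_mul_of_pos_right (by omega)
        positivity
      _ = r ^ 101 := by ring
  have h6 := (Nat.pow_lt_pow_iff_right (by omega)).1 h5
  omega

theorem GG_diag {r : ℕ} (hr : 3 ≤ r) {d : OddSqf} (hd : d ∈ Dr r) :
    (#(PQ r) : ℝ) - 10 ≤ GG r d d := by
  classical
  unfold GG
  have h1 : ∀ p ∈ PQ r, (1 : ℝ) - (if p ∣ d.1.natAbs then 1 else 0) ≤ kr d p * kr d p := by
    intro p hp
    obtain ⟨p1, p2, -, -, p5⟩ := mem_PQ hp (by omega)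
    by_cases h : p ∣ d.1.natAbs
    · rw [if_pos h, sub_self]
      exact mul_self_nonneg _
    · rw [if_neg h, sub_zero, kr_mul d d p5]
      have h2 : jacobiSym (d.1 * d.1) p = 1 := by
        rw [← sq]
        apply jacobiSym.sq_one'
        have : Nat.Coprime p d.1.natAbs := (Nat.Prime.coprime_iff_not_dvd p1).2 h
        rw [Int.gcd_eq_natAbs]
        simpa using this.symm
      rw [h2]
      norm_num
  have h2 := sum_le_sum h1
  refine le_trans ?_ h2
  rw [sum_sub_distrib, sum_const, nsmul_eq_mul, mul_one, ← sum_filter, sum_const, nsmul_eq_mul,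
    mul_one]
  have h3 : ((#((PQ r).filter (fun p => p ∣ d.1.natAbs)) : ℕ) : ℝ) ≤ 10 := by
    exact_mod_cast few_divisors hr hd
  linarith

theorem GG_le (r : ℕ) (d e : OddSqf) : |GG r d e| ≤ #(PQ r) := by
  unfold GG
  refine (abs_sum_le_sum_abs _ _).trans ?_
  calc ∑ p ∈ PQ r, |kr d p * kr e p| ≤ ∑ p ∈ PQ r, (1 : ℝ) := by
        apply sum_le_sum
        intro p _
        rw [abs_mul]
        calc _ ≤ (1 : ℝ) * 1 := mul_le_mul (kr_abs d p) (kr_abs e p) (abs_nonneg _) zero_le_one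
          _ = 1 := one_mul 1
    _ = #(PQ r) := by simp

/-- the correlations in terms of Jacobi symbols -/
theorem GG_eq {r : ℕ} (hr : 2 ≤ r) {d e : OddSqf} {σ : ℤ} (hd : d.1 = σ * d.1.natAbs)
    (he : 0 < e.1) : GG r d e = ∑ p ∈ PQ r, ((jacobiSym σ p : ℤ) : ℝ) *
      ((jacobiSym ((d.1.natAbs : ℤ) * e.1.natAbs) p : ℤ) : ℝ) := by
  unfold GG
  apply sum_congr rfl
  intro p hp
  obtain ⟨-, -, -, -, p5⟩ := mem_PQ hp hr
  rw [kr_mul d e p5, ← Int.cast_mul, ← jacobiSym.mul_left]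
  congr 2
  have he' : ((e.1.natAbs : ℕ) : ℤ) = e.1 := Int.natAbs_of_nonneg he.le
  rw [he']
  nth_rewrite 1 [hd]
  ring

/-- the summand of the off-diagonal part -/
noncomputable def off (r : ℕ) (d e : OddSqf) : ℝ :=
  if |(d.1 : ℝ)| = |(e.1 : ℝ)| then 0 else
    |GG r d e| * Real.exp (-(((r : ℝ) ^ 96) ^ 2 * (ll d e) ^ 2 / 4))

theorem off_nonneg (r : ℕ) (d e : OddSqf) : 0 ≤ off r d e := by
  unfold off
  split_ifs
  · exact le_rfl
  · positivity

/-- the comparison sum over pairs of integers -/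
noncomputable def HP (r : ℕ) (σ : ℤ) (n : ℕ) : ℝ :=
  ∑ m ∈ Ico (r ^ 100) (2 * r ^ 100), (if n = m then 0 else
    kg ((r ^ 4 : ℕ) : ℝ) ((n : ℝ) - m) * |∑ p ∈ PQ r, ((jacobiSym σ p : ℤ) : ℝ) *
      ((jacobiSym ((n : ℤ) * m) p : ℤ) : ℝ)|)

theorem HP_nonneg (r : ℕ) (σ : ℤ) (n : ℕ) : 0 ≤ HP r σ n := by
  unfold HP
  apply sum_nonneg
  intro m _
  split_ifs
  · exact le_rfl
  · have := kg_pos ((r ^ 4 : ℕ) : ℝ) ((n : ℝ) - m)
    positivity

theorem abs_natAbs (d : OddSqf) : |(d.1 : ℝ)| = ((d.1.natAbs : ℕ) : ℝ) := by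
  rw [Nat.cast_natAbs]; push_cast; rfl

theorem off_sum_le {r : ℕ} (hr : 2 ≤ r) {d : OddSqf} {σ : ℤ} (hd : d.1 = σ * d.1.natAbs)
    (hd2 : |(d.1 : ℝ)| ≤ 2 * (r : ℝ) ^ 100) :
    ∑ e ∈ Sr r, off r d e ≤ HP r σ d.1.natAbs := by
  have h := sum_inj (Sr r) (Ico (r ^ 100) (2 * r ^ 100)) (fun m => if d.1.natAbs = m then 0 else
    kg ((r ^ 4 : ℕ) : ℝ) (((d.1.natAbs : ℕ) : ℝ) - m) * |∑ p ∈ PQ r, ((jacobiSym σ p : ℤ) : ℝ) *
      ((jacobiSym (((d.1.natAbs : ℕ) : ℤ) * m) p : ℤ) : ℝ)|) (fun m => by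
      have := kg_pos ((r ^ 4 : ℕ) : ℝ) (((d.1.natAbs : ℕ) : ℝ) - m)
      split_ifs <;> positivity)
    (fun d hd => (Sr_window hd).1) (Or.inl fun d hd => (Sr_window hd).2.1)
  refine le_trans ?_ h
  apply sum_le_sum
  intro e he
  obtain ⟨-, e2, e3, e4⟩ := Sr_window he
  unfold off
  by_cases habs : |(d.1 : ℝ)| = |(e.1 : ℝ)|
  · rw [if_pos habs, if_pos]
    rw [abs_natAbs, abs_natAbs] at habs
    exact_mod_cast habs
  · rw [if_neg habs, if_neg]
    · have hd0 : 0 < |(d.1 : ℝ)| := by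
        have : (d.1 : ℝ) ≠ 0 := by exact_mod_cast d.2.2.ne_zero
        positivity
      have he0 : 0 < |(e.1 : ℝ)| := by
        have : (e.1 : ℝ) ≠ 0 := by exact_mod_cast e.2.2.ne_zero
        positivity
      have hX : (0 : ℝ) < (r : ℝ) ^ 100 := by
        have : (0 : ℝ) < r := by exact_mod_cast (by omega : 0 < r)
        positivity
      have h1 := kap_le_kg (r := r) (by omega) hd0 he0 hd2 (by linarith)
      rw [GG_eq hr hd e2, mul_comm]
      unfold ll
      apply mul_le_mul_of_nonneg_right _ (abs_nonneg _)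
      rw [← abs_natAbs, ← abs_natAbs]
      exact h1
    · intro h
      apply habs
      rw [abs_natAbs, abs_natAbs]
      exact_mod_cast h

theorem HP_sum {r : ℕ} (hr : 2 ≤ r) (σ : ℤ) :
    ∑ n ∈ Ico (r ^ 100) (2 * r ^ 100), HP r σ n ≤
      68 * (r : ℝ) ^ 4 * (r : ℝ) ^ 100 * Real.sqrt #(PQ r) +
        2 * ((r : ℝ) ^ 100) ^ 2 * #(PQ r) * kg ((r : ℝ) ^ 4) ((r : ℝ) ^ 10) := by
  have hr1 : (1 : ℝ) ≤ r := by exact_mod_cast (by omega : 1 ≤ r)
  have hr0 : (0 : ℝ) < r := by linarith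
  have hY : 1 ≤ r ^ 4 := Nat.one_le_pow _ _ (by omega)
  have h := pair_char (Y := r ^ 4) (N := r ^ 100) hY (Q := PQ r) (B := (r : ℝ) ^ 10)
    (C := (r : ℝ) ^ 20) (by positivity) (fun p hp => by
      obtain ⟨a, b, c, d, -⟩ := mem_PQ hp hr
      exact ⟨a, b, c, d⟩) (fun p => ((jacobiSym σ p : ℤ) : ℝ)) (fun p _ => jac_abs _ _) (by
      have h1 := PQ_card_le r
      have h2 : ((r ^ 100 : ℕ) : ℝ) / ((r : ℝ) ^ 10) ^ 2 = (r : ℝ) ^ 80 := by
        push_cast
        field_simp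
      rw [h2]
      have h3 : ((r : ℝ) ^ 20) ^ 2 ≤ (r : ℝ) ^ 80 := by
        rw [← pow_mul]
        exact pow_le_pow_right₀ hr1 (by norm_num)
      calc (#(PQ r) : ℝ) * ((r : ℝ) ^ 80 + ((r : ℝ) ^ 20) ^ 2) ≤
          (r : ℝ) ^ 20 * ((r : ℝ) ^ 80 + (r : ℝ) ^ 80) := by gcongr
        _ = 2 * (r : ℝ) ^ 100 := by ring
        _ ≤ 3 * ((r ^ 100 : ℕ) : ℝ) := by
          push_cast
          have : 0 < (r : ℝ) ^ 100 := by positivity
          linarith)
  unfold HP
  push_cast at h ⊢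
  exact h

end Pool.Agent.H491R3
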