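import Pool.Agent.H491R3.Final

set_option autoImplicit false

namespace Pool.Agent.H491R3

open Finset Complex MeasureTheory

theorem final_arith {r p K0 m : ℝ} (hr : 1000 ≤ r) (hp0 : 1 ≤ p) (hp : p ≤ r ^ 20) (hK0 : 0 ≤ K0)
    (hm : 0 ≤ m) {τ : ℝ} (hτ : τ = r ^ 7000 * Real.exp (-(r / 4)))
    (h : (Real.sqrt Real.pi * r ^ 96) * (Real.sqrt Real.pi * r ^ 21) * p ^ (-(1 / 2) : ℝ) * m ≤
      2 * p ^ (1 / 10 : ℝ) * ((K0 * (r ^ 49)⁻¹) * (Real.sqrt Real.pi * r ^ 96 * (12 * r ^ 32)) +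
        10 * r ^ 200 * ((r ^ 6889 + 1) * τ)) * (Real.sqrt Real.pi * r ^ 21) +
      20 * r ^ 200 * (Real.sqrt Real.pi * r ^ 96) * τ) :
    m ≤ 24 * K0 * (r ^ 5)⁻¹ + r ^ 14200 * Real.exp (-(r / 4)) := by
  have hr0 : 0 < r := by linarith
  have hr1 : 1 ≤ r := by linarith
  have hE0 : 0 < Real.exp (-(r / 4)) := Real.exp_pos _
  have hτ0 : 0 ≤ τ := by rw [hτ]; positivity
  have hs : 1 ≤ Real.sqrt Real.pi := by
    rw [Real.one_le_sqrt]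
    have := Real.pi_gt_three
    linarith
  set ω := Real.sqrt Real.pi * r ^ 96 with hω
  set ω' := Real.sqrt Real.pi * r ^ 21 with hω'
  have h96 : (1 : ℝ) ≤ r ^ 96 := one_le_pow₀ hr1
  have h21 : (1 : ℝ) ≤ r ^ 21 := one_le_pow₀ hr1
  have hω1 : 1 ≤ ω := by nlinarith
  have hω1' : 1 ≤ ω' := by nlinarith
  have e1 : p ^ (1 / 10 : ℝ) ≤ r ^ 2 := by
    calc p ^ (1 / 10 : ℝ) ≤ (r ^ 20) ^ (1 / 10 : ℝ) :=
          Real.rpow_le_rpow (by linarith) hp (by norm_num)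
      _ = r ^ 2 := by
        rw [← Real.rpow_natCast, ← Real.rpow_mul hr0.le, ← Real.rpow_natCast]
        norm_num
  have e2 : (r ^ 10)⁻¹ ≤ p ^ (-(1 / 2) : ℝ) := by
    rw [Real.rpow_neg (by linarith)]
    apply inv_anti₀ (by positivity)
    calc p ^ (1 / 2 : ℝ) ≤ (r ^ 20) ^ (1 / 2 : ℝ) :=
          Real.rpow_le_rpow (by linarith) hp (by norm_num)
      _ = r ^ 10 := by
        rw [← Real.rpow_natCast, ← Real.rpow_mul hr0.le, ← Real.rpow_natCast]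
        norm_num
  set Z := (K0 * (r ^ 49)⁻¹) * (ω * (12 * r ^ 32)) + 10 * r ^ 200 * ((r ^ 6889 + 1) * τ) with hZ
  have hZ0 : 0 ≤ Z := by positivity
  -- it suffices to compare after multiplication
  have h1 : m * (ω * ω' * (r ^ 10)⁻¹) ≤ ω * ω' * p ^ (-(1 / 2) : ℝ) * m := by
    calc m * (ω * ω' * (r ^ 10)⁻¹) ≤ m * (ω * ω' * p ^ (-(1 / 2) : ℝ)) := by gcongr
      _ = _ := by ring
  have h2 : 2 * p ^ (1 / 10 : ℝ) * Z * ω' + 20 * r ^ 200 * ω * τ ≤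
      2 * r ^ 2 * Z * ω' + 20 * r ^ 200 * ω * τ := by gcongr
  have h3 : 2 * r ^ 2 * Z * ω' + 20 * r ^ 200 * ω * τ ≤
      (24 * K0 * (r ^ 5)⁻¹ + r ^ 14200 * Real.exp (-(r / 4))) * (ω * ω' * (r ^ 10)⁻¹) := by
    have a1 : 2 * r ^ 2 * ((K0 * (r ^ 49)⁻¹) * (ω * (12 * r ^ 32))) * ω' =
        24 * K0 * (r ^ 5)⁻¹ * (ω * ω' * (r ^ 10)⁻¹) := by
      field_simp
      ring
    have a2 : 2 * r ^ 2 * (10 * r ^ 200 * ((r ^ 6889 + 1) * τ)) * ω' + 20 * r ^ 200 * ω * τ ≤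
        (r ^ 14200 * Real.exp (-(r / 4))) * (ω * ω' * (r ^ 10)⁻¹) := by
      have b1 : r ^ 6889 + 1 ≤ 2 * r ^ 6889 := by
        have : (1 : ℝ) ≤ r ^ 6889 := one_le_pow₀ hr1
        linarith
      have b2 : ω' ≤ ω * ω' := by nlinarith
      have b3 : ω ≤ ω * ω' := by nlinarith
      calc 2 * r ^ 2 * (10 * r ^ 200 * ((r ^ 6889 + 1) * τ)) * ω' + 20 * r ^ 200 * ω * τ ≤
          2 * r ^ 2 * (10 * r ^ 200 * ((2 * r ^ 6889) * τ)) * (ω * ω') +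
            20 * r ^ 200 * (ω * ω') * τ := by gcongr
        _ = (40 * r ^ 7091 + 20 * r ^ 200) * τ * (ω * ω') := by ring
        _ ≤ (60 * r ^ 7091) * τ * (ω * ω') := by
          have : r ^ 200 ≤ r ^ 7091 := pow_le_pow_right₀ hr1 (by norm_num)
          gcongr
          linarith
        _ ≤ (r * r ^ 7091) * τ * (ω * ω') := by
          gcongr
          linarith
        _ = (r ^ 14102 * (r ^ 10)⁻¹) * Real.exp (-(r / 4)) * (ω * ω') := by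
          rw [hτ]
          have : r * r ^ 7091 * r ^ 7000 = r ^ 14102 * (r ^ 10)⁻¹ := by
            field_simp
          rw [← mul_assoc (r * r ^ 7091), this]
        _ ≤ (r ^ 14200 * (r ^ 10)⁻¹) * Real.exp (-(r / 4)) * (ω * ω') := by
          have : r ^ 14102 ≤ r ^ 14200 := pow_le_pow_right₀ hr1 (by norm_num)
          gcongr
        _ = _ := by ring
    rw [hZ]
    calc _ = 2 * r ^ 2 * ((K0 * (r ^ 49)⁻¹) * (ω * (12 * r ^ 32))) * ω' +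
        (2 * r ^ 2 * (10 * r ^ 200 * ((r ^ 6889 + 1) * τ)) * ω' + 20 * r ^ 200 * ω * τ) := by ring
      _ ≤ _ := by
        rw [a1, add_mul (24 * K0 * (r ^ 5)⁻¹) (r ^ 14200 * Real.exp (-(r / 4)))
          (ω * ω' * (r ^ 10)⁻¹)]
        exact add_le_add le_rfl a2
  have h4 : 0 < ω * ω' * (r ^ 10)⁻¹ := by positivity
  exact le_of_mul_le_mul_right (h1.trans (h.trans (h2.trans h3))) h4

theorem mm_upper (hG : GRH) {w : ℝ → ℝ} (hw : Wt w) {ε c₀ C₀ : ℝ} (hε : ε = 1 / 100)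
    (hC₀ : 0 < C₀) (h : UniformRatios w ε c₀ C₀) : ∃ K : ℝ, 0 ≤ K ∧ ∃ r₀ : ℕ, ∀ r ≥ r₀,
      ∀ p ∈ PQ r, ‖mm w r p‖ ≤ 24 * K * ((r : ℝ) ^ 5)⁻¹ +
        (r : ℝ) ^ 14200 * Real.exp (-((r : ℝ) / 4)) := by
  obtain ⟨K, hK, r₁, hE⟩ := E1_bound hw hε hC₀ h
  obtain ⟨r₂, hW⟩ := W1_lower hw
  obtain ⟨C1, hC1, hPhi1⟩ := Phi_bound
  obtain ⟨C2, hC2, hPhi2⟩ := Phi_far
  set S := ∑' n : ℕ, 1 / (n : ℝ) ^ (5 / 2 : ℝ) with hS
  have hS0 : 0 ≤ S := tsum_nonneg fun n => by positivity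
  refine ⟨K, hK, max (max r₁ r₂) (⌈C1 + C2 + S⌉₊), fun r hr p hp => ?_⟩
  have hr1' : r₁ ≤ r := (le_max_left _ _).trans ((le_max_left _ _).trans hr)
  have hr2' : r₂ ≤ r := (le_max_right _ _).trans ((le_max_left _ _).trans hr)
  have hr3' : C1 + C2 + S ≤ r := by
    have h1 : C1 + C2 + S ≤ ⌈C1 + C2 + S⌉₊ := Nat.le_ceil _
    have h2 : ((⌈C1 + C2 + S⌉₊ : ℕ) : ℝ) ≤ r := by exact_mod_cast (le_max_right _ _).trans hr
    linarith
  obtain ⟨hW1, hW2, hr⟩ := hW r hr2'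
  have hr0 : (0 : ℝ) < r := by linarith
  have hr1 : (1 : ℝ) ≤ r := by linarith
  have hrn : 1 ≤ r := by exact_mod_cast hr1
  have hrn2 : 2 ≤ r := by
    have : (2 : ℝ) ≤ r := by linarith
    exact_mod_cast this
  obtain ⟨p1, p2, p3, p4, -⟩ := mem_PQ hp hrn2
  have hp1 : (1 : ℝ) ≤ p := by exact_mod_cast p1.one_lt.le
  have hp3 : (3 : ℝ) ≤ p := by
    have := p1.two_le
    exact_mod_cast (by omega : 3 ≤ p)
  have hv := vv_le_two hw hr hW1 hW2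
  set τ := (r : ℝ) ^ 7000 * Real.exp (-((r : ℝ) / 4)) with hτ
  have hτ0 : 0 ≤ τ := by positivity
  set R := (r : ℝ) ^ 6889 with hR
  have hR0 : 0 ≤ R := by positivity
  -- the sums `SS`
  have hSS : ∀ u : ℝ, |u| ≤ (r : ℝ) ^ 22 → ‖SS w r p ((1 / 10 : ℝ) + u * I)‖ ≤
      (K * ((r : ℝ) ^ 49)⁻¹) * (Real.sqrt Real.pi * (r : ℝ) ^ 96 * (12 * (r : ℝ) ^ 32)) +
      10 * (r : ℝ) ^ 200 * ((R + 1) * τ) := by
    intro u hu
    have hγre : (((1 / 10 : ℝ) : ℂ) + u * I).re = 1 / 10 := by simp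
    have hγim : (((1 / 10 : ℝ) : ℂ) + u * I).im = u := by simp
    refine S_bound (p := p) hrn (by positivity) hτ0 hR0 hv (by rw [hγre]; norm_num)
      (fun t ht0 ht => hE r hr1' t u ht0 ht hu) ?_ ?_ ?_
    · intro d hd
      refine inv_bound hG hr hd ?_ ?_
      · rw [add_re, hγre]; norm_num
      · rw [add_im, hγim]
        simpa using hu
    · intro d hd e he hv0
      exact beta_L hw hr hd he hv0
    · intro d hd e he hv0
      exact beta_Phi hw hr he hv0 hγre (C := C1 + C2) (by linarith)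
        (fun α γ hα hγ => (hPhi1 α γ hα hγ).trans (by linarith))
        (fun α γ hα hγ => (hPhi2 α γ hα hγ).trans (by
          apply mul_le_mul_of_nonneg_right (by linarith) (by positivity)))
  -- the `γ`-integrals
  have hA : ∀ d ∈ Dr r, ‖(∫ u in (-(r : ℝ) ^ 22)..((r : ℝ) ^ 22),
      KK ((r : ℝ) ^ 21) 0 ((1 / 10 : ℝ) + u * I) *
      exp (((1 / 10 : ℝ) + u * I) * (Real.log p : ℝ)) * (L d (1 / 2 + ((1 / 10 : ℝ) + u * I)))⁻¹) -
      mc d p * (p : ℂ) ^ (-(1 / 2) : ℂ) * (Real.sqrt Real.pi * (r : ℝ) ^ 21 : ℝ)‖ ≤ τ := by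
    intro d hd
    have h21 : (3 : ℝ) ≤ (r : ℝ) ^ 21 := by
      calc (3 : ℝ) ≤ r := by linarith
        _ = (r : ℝ) ^ 1 := (pow_one _).symm
        _ ≤ (r : ℝ) ^ 21 := pow_le_pow_right₀ hr1 (by norm_num)
    have g := gamma_ext hG d p1 (U := (r : ℝ) ^ 21) (V := (r : ℝ) ^ 22) (B1 := R) h21
      (by positivity) (fun s hs him => inv_bound hG hr hd hs (le_of_eq him))
    refine g.trans ?_
    exact gamma_err (p := (p : ℝ)) (S := S) (B := R) hr hp1 p4 hS0 (by linarith) hR0 le_rfl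
  have hCc : ‖∫ u in (-(r : ℝ) ^ 22)..((r : ℝ) ^ 22),
      KK ((r : ℝ) ^ 21) 0 ((1 / 10 : ℝ) + u * I) *
      exp (((1 / 10 : ℝ) + u * I) * (Real.log p : ℝ))‖ ≤ τ := by
    have g := gauss_seg (U := (r : ℝ) ^ 21) (V := (r : ℝ) ^ 22) (by positivity) (by positivity)
      (1 / 10) 0 (Real.log p)
    simp only [zero_sub, zero_add, ofReal_zero, zero_mul, exp_zero, mul_one] at g
    have g2 := norm_sub_norm_le (∫ u in (-(r : ℝ) ^ 22)..((r : ℝ) ^ 22),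
      KK ((r : ℝ) ^ 21) 0 (((1 / 10 : ℝ) : ℂ) + u * I) *
      exp ((((1 / 10 : ℝ) : ℂ) + u * I) * ((Real.log p : ℝ) : ℂ)))
      (((Real.sqrt Real.pi * (r : ℝ) ^ 21 : ℝ) : ℂ) *
        ((Real.exp (-(((r : ℝ) ^ 21) ^ 2 * (Real.log p) ^ 2 / 4)) : ℝ) : ℂ))
    have g3 : ‖((Real.sqrt Real.pi * (r : ℝ) ^ 21 : ℝ) : ℂ) *
        ((Real.exp (-(((r : ℝ) ^ 21) ^ 2 * (Real.log p) ^ 2 / 4)) : ℝ) : ℂ)‖ =
        Real.sqrt Real.pi * (r : ℝ) ^ 21 *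
        Real.exp (-(((r : ℝ) ^ 21) ^ 2 * (Real.log p) ^ 2 / 4)) := by
      rw [norm_mul, norm_real, norm_real, Real.norm_eq_abs, Real.norm_eq_abs,
        abs_of_pos (Real.exp_pos _), abs_of_nonneg (by positivity)]
    have g4 := const_err (r := (r : ℝ)) (p := (p : ℝ)) hr hp3 p4
    rw [g3] at g2
    have g5 := g2.trans g
    linarith
  have habs := mm_abstract hG hrn p1 (Z := (K * ((r : ℝ) ^ 49)⁻¹) *
      (Real.sqrt Real.pi * (r : ℝ) ^ 96 * (12 * (r : ℝ) ^ 32)) +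
      10 * (r : ℝ) ^ 200 * ((R + 1) * τ)) (by positivity) hτ0 hv hSS hA hCc
  exact final_arith hr hp1 p4 hK (norm_nonneg _) hτ habs

end Pool.Agent.H491R3
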