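import Pool.Agent.H491R3.Defs

set_option autoImplicit false

namespace Pool.Agent.H491R3

open Finset

/-- the complete sum of the quadratic character over `a (a + h)` -/
theorem quad_complete (p : ℕ) [Fact p.Prime] (hp : p ≠ 2) (h : ZMod p) (hh : h ≠ 0) :
    ∑ a : ZMod p, quadraticChar (ZMod p) (a * (a + h)) = -1 := by
  have hchar : ringChar (ZMod p) ≠ 2 := by rwa [ZMod.ringChar_zmod_n]
  have h0 := quadraticChar_sum_zero hchar
  have h1 : ∑ b : ZMod p, quadraticChar (ZMod p) (1 + h * b) = 0 := by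
    rw [← h0]
    exact Equiv.sum_comp ((Equiv.mulLeft₀ h hh).trans (Equiv.addLeft 1))
      (fun c => quadraticChar (ZMod p) c)
  have h2 : ∑ a : ZMod p, quadraticChar (ZMod p) (1 + h * a⁻¹) = 0 := by
    rw [← h1]
    exact Equiv.sum_comp (Equiv.inv (ZMod p)) (fun b => quadraticChar (ZMod p) (1 + h * b))
  have h3 : ∀ a : ZMod p, quadraticChar (ZMod p) (a * (a + h)) =
      quadraticChar (ZMod p) (1 + h * a⁻¹) - if a = 0 then 1 else 0 := by
    intro a
    by_cases ha : a = 0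
    · subst ha
      simp
    · rw [if_neg ha, sub_zero]
      have : a * (a + h) = a ^ 2 * (1 + h * a⁻¹) := by field_simp
      rw [this, map_mul, quadraticChar_sq_one' ha, one_mul]
  rw [Finset.sum_congr rfl fun a _ => h3 a, Finset.sum_sub_distrib, h2]
  simp

theorem sum_range_zmod {m : ℕ} [NeZero m] (F : ZMod m → ℝ) (a : ZMod m) :
    ∑ i ∈ range m, F (a + i) = ∑ x, F x := by
  have h1 : ∑ i ∈ range m, F (a + i) = ∑ x : ZMod m, F (a + x) := by
    apply Finset.sum_nbij (fun i : ℕ => (i : ZMod m))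
    · intro i _; exact Finset.mem_univ _
    · intro i hi j hj hij
      simp only [coe_range, Set.mem_Iio] at hi hj
      simp only at hij
      rw [ZMod.natCast_eq_natCast_iff'] at hij
      rwa [Nat.mod_eq_of_lt hi, Nat.mod_eq_of_lt hj] at hij
    · intro x _
      simp only [coe_range, Set.mem_image, Set.mem_Iio]
      exact ⟨x.val, ZMod.val_lt x, ZMod.natCast_zmod_val x⟩
    · intro i _; rfl
  rw [h1]
  exact Equiv.sum_comp (Equiv.addLeft a) F

theorem interval_sum {m : ℕ} [NeZero m] (F : ZMod m → ℝ) (hF : ∀ x, |F x| ≤ 1) (N : ℕ) :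
    ∀ a : ZMod m, |∑ i ∈ range N, F (a + i)| ≤ (N : ℝ) / m * |∑ x, F x| + m := by
  have hm : (0 : ℝ) < m := by exact_mod_cast Nat.pos_of_ne_zero (NeZero.ne m)
  induction N using Nat.strong_induction_on with
  | _ N ih =>
    intro a
    rcases lt_or_ge N m with h | h
    · calc |∑ i ∈ range N, F (a + i)| ≤ ∑ i ∈ range N, |F (a + i)| := abs_sum_le_sum_abs _ _
        _ ≤ ∑ i ∈ range N, 1 := Finset.sum_le_sum fun i _ => hF _
        _ = N := by simp
        _ ≤ m := by exact_mod_cast h.le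
        _ ≤ _ := by
          have : 0 ≤ (N : ℝ) / m * |∑ x, F x| := by positivity
          linarith
    · obtain ⟨k, rfl⟩ := Nat.exists_eq_add_of_le h
      have hk : k < m + k := by have := NeZero.ne m; omega
      rw [Finset.sum_range_add, sum_range_zmod]
      have h2 := ih k hk (a + m)
      have h3 : ∑ i ∈ range k, F (a + ((m + i : ℕ) : ZMod m)) = ∑ i ∈ range k, F (a + m + i) := by
        apply Finset.sum_congr rfl
        intro i _
        push_cast
        rw [add_assoc]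
      rw [h3]
      refine (abs_add_le _ _).trans ?_
      push_cast
      have h4 : ((m : ℝ) + k) / m * |∑ x, F x| = |∑ x, F x| + (k : ℝ) / m * |∑ x, F x| := by
        field_simp
      rw [h4]
      linarith

/-- the function `n ↦ (n (n + h) / p)` -/
def fp (p : ℕ) (h n : ℤ) : ℝ := ((jacobiSym (n * (n + h)) p : ℤ) : ℝ)

theorem fp_eq (p : ℕ) [hp : Fact p.Prime] (h n : ℤ) :
    fp p h n = ((quadraticChar (ZMod p) ((n : ZMod p) * ((n : ZMod p) + (h : ZMod p))) : ℤ) : ℝ) := by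
  unfold fp
  rw [← jacobiSym.legendreSym.to_jacobiSym, legendreSym]
  push_cast
  rfl

theorem jac_abs (a : ℤ) (b : ℕ) : |((jacobiSym a b : ℤ) : ℝ)| ≤ 1 := by
  have h := jacobiSym.trichotomy a b
  rcases h with h | h | h <;> rw [h] <;> norm_num

theorem fp_abs (p : ℕ) (h n : ℤ) : |fp p h n| ≤ 1 := jac_abs _ _

theorem pq_sum {p q : ℕ} (hp : p.Prime) (hq : q.Prime) (hpq : p ≠ q) (hp2 : p ≠ 2) (hq2 : q ≠ 2)
    {h : ℤ} (hhp : (h : ZMod p) ≠ 0) (hhq : (h : ZMod q) ≠ 0) (a N : ℕ) :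
    |∑ i ∈ range N, fp p h (a + i) * fp q h (a + i)| ≤ (N : ℝ) / ((p : ℝ) * q) + p * q := by
  have : Fact p.Prime := ⟨hp⟩
  have : Fact q.Prime := ⟨hq⟩
  have hcop : Nat.Coprime p q := (Nat.coprime_primes hp hq).2 hpq
  have : NeZero (p * q) := ⟨mul_ne_zero hp.ne_zero hq.ne_zero⟩
  set e := ZMod.chineseRemainder hcop with he
  set G : ZMod p × ZMod q → ℝ := fun z =>
    ((quadraticChar (ZMod p) (z.1 * (z.1 + (h : ZMod p))) : ℤ) : ℝ) *
    ((quadraticChar (ZMod q) (z.2 * (z.2 + (h : ZMod q))) : ℤ) : ℝ) with hG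
  set F : ZMod (p * q) → ℝ := fun x => G (e x) with hF
  have hF1 : ∀ x : ℕ, F (x : ZMod (p * q)) = fp p h x * fp q h x := by
    intro x
    simp only [hF, hG]
    rw [map_natCast, fp_eq p h x, fp_eq q h x]
    simp
  have hFabs : ∀ x, |F x| ≤ 1 := by
    intro x
    have hx : x = ((x.val : ℕ) : ZMod (p * q)) := (ZMod.natCast_zmod_val x).symm
    rw [hx, hF1, abs_mul]
    have h1 := fp_abs p h x.val
    have h2 := fp_abs q h x.val
    calc _ ≤ (1 : ℝ) * 1 := mul_le_mul h1 h2 (abs_nonneg _) zero_le_one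
      _ = 1 := one_mul 1
  have hsum : ∑ x, F x = 1 := by
    have h1 : ∑ x, F x = ∑ z : ZMod p × ZMod q, G z := Equiv.sum_comp e.toEquiv G
    rw [h1, Fintype.sum_prod_type]
    simp only [hG]
    have h2 := quad_complete p hp2 (h : ZMod p) hhp
    have h3 := quad_complete q hq2 (h : ZMod q) hhq
    have h2' : ∑ a : ZMod p, ((quadraticChar (ZMod p) (a * (a + (h : ZMod p))) : ℤ) : ℝ) = -1 := by
      exact_mod_cast h2
    have h3' : ∑ a : ZMod q, ((quadraticChar (ZMod q) (a * (a + (h : ZMod q))) : ℤ) : ℝ) = -1 := by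
      exact_mod_cast h3
    simp_rw [← Finset.mul_sum]
    rw [h3', ← Finset.sum_mul, h2']
    norm_num
  have key := interval_sum F hFabs N (a : ZMod (p * q))
  rw [hsum, abs_one, mul_one] at key
  have h4 : ∑ i ∈ range N, F ((a : ZMod (p * q)) + i) =
      ∑ i ∈ range N, fp p h (a + i) * fp q h (a + i) := by
    apply Finset.sum_congr rfl
    intro i _
    have := hF1 (a + i)
    push_cast at this
    exact this
  rw [h4] at key
  push_cast at key
  exact key

/-- the second moment of the sums over the primes -/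
theorem second_moment {Q : Finset ℕ} {B C : ℝ} (hB : 0 < B) (hQ : ∀ p ∈ Q, p.Prime ∧ p ≠ 2 ∧ B ≤ p ∧ p ≤ C)
    {h : ℤ} (hh : ∀ p ∈ Q, (h : ZMod p) ≠ 0) (ε : ℕ → ℝ) (hε : ∀ p ∈ Q, |ε p| ≤ 1) (a N : ℕ) :
    ∑ i ∈ range N, (∑ p ∈ Q, ε p * fp p h (a + i)) ^ 2 ≤
      N * #Q + (#Q : ℝ) ^ 2 * (N / B ^ 2 + C ^ 2) := by
  have h1 : ∀ i : ℕ, (∑ p ∈ Q, ε p * fp p h (a + i)) ^ 2 =
      ∑ p ∈ Q, ∑ q ∈ Q, ε p * ε q * (fp p h (a + i) * fp q h (a + i)) := by
    intro i
    rw [sq, Finset.sum_mul_sum]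
    apply Finset.sum_congr rfl
    intro p _
    apply Finset.sum_congr rfl
    intro q _
    ring
  rw [Finset.sum_congr rfl fun i _ => h1 i, Finset.sum_comm]
  have h2 : ∀ p ∈ Q, ∑ i ∈ range N, ∑ q ∈ Q, ε p * ε q * (fp p h (a + i) * fp q h (a + i)) ≤
      ∑ q ∈ Q, ((if p = q then (N : ℝ) else 0) + (N / B ^ 2 + C ^ 2)) := by
    intro p hp
    rw [Finset.sum_comm]
    apply Finset.sum_le_sum
    intro q hq
    rw [← Finset.mul_sum]
    obtain ⟨p1, p2, p3, p4⟩ := hQ p hp
    obtain ⟨q1, q2, q3, q4⟩ := hQ q hq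
    have hC : 0 ≤ C := by linarith
    have hee : |ε p * ε q| ≤ 1 := by
      rw [abs_mul]
      calc _ ≤ (1 : ℝ) * 1 := mul_le_mul (hε p hp) (hε q hq) (abs_nonneg _) zero_le_one
        _ = 1 := one_mul 1
    have hle : ε p * ε q * ∑ i ∈ range N, fp p h (a + i) * fp q h (a + i) ≤
        |∑ i ∈ range N, fp p h (a + i) * fp q h (a + i)| := by
      refine (le_abs_self _).trans ?_
      rw [abs_mul]
      calc _ ≤ 1 * |∑ i ∈ range N, fp p h (a + i) * fp q h (a + i)| := by gcongr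
        _ = _ := one_mul _
    refine hle.trans ?_
    by_cases hpq : p = q
    · rw [if_pos hpq]
      subst hpq
      have : |∑ i ∈ range N, fp p h (a + i) * fp p h (a + i)| ≤ N := by
        calc _ ≤ ∑ i ∈ range N, |fp p h (a + i) * fp p h (a + i)| := abs_sum_le_sum_abs _ _
          _ ≤ ∑ i ∈ range N, (1 : ℝ) := by
            apply Finset.sum_le_sum
            intro i _
            rw [abs_mul]
            calc _ ≤ (1 : ℝ) * 1 := mul_le_mul (fp_abs _ _ _) (fp_abs _ _ _) (abs_nonneg _) zero_le_one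
              _ = 1 := one_mul 1
          _ = N := by simp
      have h0 : 0 ≤ (N : ℝ) / B ^ 2 + C ^ 2 := by positivity
      linarith
    · rw [if_neg hpq, zero_add]
      refine (pq_sum p1 q1 hpq p2 q2 (hh p hp) (hh q hq) a N).trans ?_
      have hpB : B ^ 2 ≤ (p : ℝ) * q := by nlinarith
      have hpC : (p : ℝ) * q ≤ C ^ 2 := by nlinarith
      gcongr
  refine (Finset.sum_le_sum h2).trans (le_of_eq ?_)
  simp_rw [Finset.sum_add_distrib]
  have h3 : ∑ p ∈ Q, ∑ q ∈ Q, (if p = q then (N : ℝ) else 0) = N * #Q := by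
    have : ∀ p ∈ Q, ∑ q ∈ Q, (if p = q then (N : ℝ) else 0) = N := by
      intro p hp
      rw [Finset.sum_ite_eq, if_pos hp]
    rw [Finset.sum_congr rfl this]
    simp [mul_comm]
  rw [h3]
  simp
  ring

end Pool.Agent.H491R3
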