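import Pool.Agent.H491R3.OffDiag

set_option autoImplicit false

namespace Pool.Agent.H491R3

open Finset

/-- the Gaussian weight -/
noncomputable def kg (Y : ℝ) (h : ℝ) : ℝ := Real.exp (-(h ^ 2 / (16 * Y ^ 2)))

theorem kg_le_one (Y h : ℝ) : kg Y h ≤ 1 := by
  unfold kg
  rw [Real.exp_le_one_iff]
  have : 0 ≤ h ^ 2 / (16 * Y ^ 2) := by positivity
  linarith

theorem kg_pos (Y h : ℝ) : 0 < kg Y h := Real.exp_pos _

theorem kg_sum {Y : ℕ} (hY : 1 ≤ Y) (N : ℕ) : ∑ h ∈ Ioc 0 N, kg Y h ≤ 17 * (Y : ℝ) := by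
  have hY0 : (0 : ℝ) < Y := by exact_mod_cast hY
  have h1 : ∀ M : ℕ, M ≤ Y → ∑ h ∈ Ioc 0 M, kg Y h ≤ (Y : ℝ) := by
    intro M hM
    calc ∑ h ∈ Ioc 0 M, kg Y h ≤ ∑ h ∈ Ioc 0 M, (1 : ℝ) := sum_le_sum fun h _ => kg_le_one _ _
      _ = M := by simp
      _ ≤ Y := by exact_mod_cast hM
  rcases le_or_gt N Y with h | h
  · have := h1 N h
    linarith
  · rw [← Finset.Ioc_union_Ioc_eq_Ioc (Nat.zero_le Y) h.le, Finset.sum_union]
    · have h2 := h1 Y le_rfl
      have h3 : ∑ h ∈ Ioc Y N, kg Y h ≤ 16 * (Y : ℝ) := by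
        have h4 : ∀ h ∈ Ioc Y N, kg Y h ≤ 16 * (Y : ℝ) ^ 2 * ((h : ℝ) ^ 2)⁻¹ := by
          intro h hh
          rw [mem_Ioc] at hh
          have hh0 : (0 : ℝ) < h := by exact_mod_cast (by omega : 0 < h)
          unfold kg
          set x := (h : ℝ) ^ 2 / (16 * (Y : ℝ) ^ 2) with hx
          have hx0 : 0 < x := by positivity
          have h5 : x ≤ Real.exp x := by
            have := Real.add_one_le_exp x
            linarith
          have h6 : Real.exp (-x) ≤ 1 / x := by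
            rw [Real.exp_neg, inv_eq_one_div]
            exact one_div_le_one_div_of_le hx0 h5
          refine h6.trans (le_of_eq ?_)
          rw [hx, one_div, inv_div, div_eq_mul_inv]
        refine (sum_le_sum h4).trans ?_
        rw [← mul_sum]
        have h7 := sum_Ioc_inv_sq_le_sub (α := ℝ) (k := Y) (n := N) (by omega) h.le
        have h8 : (0 : ℝ) ≤ (N : ℝ)⁻¹ := by positivity
        calc 16 * (Y : ℝ) ^ 2 * ∑ i ∈ Ioc Y N, ((i : ℝ) ^ 2)⁻¹ ≤ 16 * (Y : ℝ) ^ 2 * (Y : ℝ)⁻¹ := by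
              gcongr
              linarith
          _ = 16 * (Y : ℝ) := by field_simp
      linarith
    · rw [Finset.disjoint_left]
      intro x hx hx2
      rw [mem_Ioc] at hx hx2
      omega

/-- sums over pairs in terms of the difference -/
theorem pair_sum (N : ℕ) (b : ℕ → ℕ → ℝ) (hb : ∀ n m, 0 ≤ b n m) (hs : ∀ n m, b n m = b m n) :
    ∑ n ∈ Ico N (2 * N), ∑ m ∈ Ico N (2 * N), (if n = m then 0 else b n m) ≤
      2 * ∑ h ∈ Ioc 0 N, ∑ m ∈ Ico N (2 * N), b (m + h) m := by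
  have h1 : ∀ m ∈ Ico N (2 * N), ∑ n ∈ Ico N (2 * N), (if m < n then b n m else 0) ≤
      ∑ h ∈ Ioc 0 N, b (m + h) m := by
    intro m hm
    rw [mem_Ico] at hm
    rw [← sum_filter]
    have h2 : ∑ h ∈ Ioc 0 N, b (m + h) m = ∑ n ∈ (Ioc 0 N).image (fun h => m + h), b n m := by
      rw [sum_image]
      intro x _ y _ hxy
      simpa using hxy
    rw [h2]
    apply sum_le_sum_of_subset_of_nonneg
    · intro n hn
      rw [mem_filter, mem_Ico] at hn
      rw [mem_image]
      refine ⟨n - m, ?_, by omega⟩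
      rw [mem_Ioc]
      omega
    · intro n _ _
      exact hb n m
  have h3 : ∑ n ∈ Ico N (2 * N), ∑ m ∈ Ico N (2 * N), (if n = m then 0 else b n m) =
      ∑ m ∈ Ico N (2 * N), ∑ n ∈ Ico N (2 * N), (if m < n then b n m else 0) +
      ∑ m ∈ Ico N (2 * N), ∑ n ∈ Ico N (2 * N), (if m < n then b n m else 0) := by
    calc ∑ n ∈ Ico N (2 * N), ∑ m ∈ Ico N (2 * N), (if n = m then 0 else b n m) =
        ∑ n ∈ Ico N (2 * N), ∑ m ∈ Ico N (2 * N),
          ((if m < n then b n m else 0) + (if n < m then b m n else 0)) := by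
          apply sum_congr rfl
          intro n _
          apply sum_congr rfl
          intro m _
          rcases lt_trichotomy n m with h | h | h
          · rw [if_neg h.ne, if_neg (by omega), if_pos h, zero_add, hs]
          · subst h
            simp
          · rw [if_neg h.ne', if_pos h, if_neg (by omega), add_zero]
      _ = ∑ n ∈ Ico N (2 * N), ∑ m ∈ Ico N (2 * N), (if m < n then b n m else 0) +
          ∑ n ∈ Ico N (2 * N), ∑ m ∈ Ico N (2 * N), (if n < m then b m n else 0) := by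
          simp_rw [sum_add_distrib]
      _ = _ := by
          congr 1
          exact sum_comm
  rw [h3, Finset.sum_comm (s := Ioc 0 N)]
  have h4 := sum_le_sum h1
  linarith

/-- the pairs, weighted with the Gaussian -/
theorem pair_gauss {Y N : ℕ} (hY : 1 ≤ Y) :
    ∑ n ∈ Ico N (2 * N), ∑ m ∈ Ico N (2 * N), kg Y ((n : ℝ) - m) ≤ 35 * (Y : ℝ) * N := by
  have hY1 : (1 : ℝ) ≤ Y := by exact_mod_cast hY
  have hN0 : (0 : ℝ) ≤ N := Nat.cast_nonneg N
  have h1 := pair_sum N (fun n m => kg Y ((n : ℝ) - m)) (fun n m => (kg_pos _ _).le) (fun n m => by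
    unfold kg
    rw [← neg_sub (n : ℝ) m, neg_sq])
  have h2 : ∑ n ∈ Ico N (2 * N), ∑ m ∈ Ico N (2 * N), kg Y ((n : ℝ) - m) ≤
      ∑ n ∈ Ico N (2 * N), (1 + ∑ m ∈ Ico N (2 * N), (if n = m then 0 else kg Y ((n : ℝ) - m))) := by
    apply sum_le_sum
    intro n hn
    have h3 : (1 : ℝ) = ∑ m ∈ Ico N (2 * N), (if n = m then 1 else 0) := by
      rw [sum_ite_eq, if_pos hn]
    nth_rewrite 1 [h3]
    rw [← sum_add_distrib]
    apply sum_le_sum
    intro m _
    by_cases h : n = m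
    · rw [if_pos h, if_pos h, add_zero]
      exact kg_le_one _ _
    · rw [if_neg h, if_neg h, zero_add]
  refine h2.trans ?_
  rw [sum_add_distrib]
  have h4 : ∑ n ∈ Ico N (2 * N), (1 : ℝ) = N := by
    rw [sum_const, Nat.card_Ico, nsmul_eq_mul, mul_one]
    congr 1
    omega
  have h5 : ∑ h ∈ Ioc 0 N, ∑ m ∈ Ico N (2 * N), kg Y (((m + h : ℕ) : ℝ) - m) =
      N * ∑ h ∈ Ioc 0 N, kg Y h := by
    rw [mul_sum]
    apply sum_congr rfl
    intro h _
    have : ∀ m ∈ Ico N (2 * N), kg Y (((m + h : ℕ) : ℝ) - m) = kg Y h := by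
      intro m _
      push_cast
      rw [add_sub_cancel_left]
    rw [sum_congr rfl this, sum_const, Nat.card_Ico, nsmul_eq_mul]
    congr 2
    omega
  rw [h5] at h1
  have h6 := kg_sum hY N
  rw [h4]
  have h7 : (N : ℝ) * ∑ h ∈ Ioc 0 N, kg Y h ≤ N * (17 * Y) := mul_le_mul_of_nonneg_left h6 hN0
  nlinarith

/-- the sums over the primes, weighted with the Gaussian -/
theorem pair_char {Y N : ℕ} (hY : 1 ≤ Y) {Q : Finset ℕ} {B C : ℝ} (hB : 0 < B)
    (hQ : ∀ p ∈ Q, p.Prime ∧ p ≠ 2 ∧ B ≤ p ∧ p ≤ C) (ε : ℕ → ℝ) (hε : ∀ p ∈ Q, |ε p| ≤ 1)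
    (hQN : (#Q : ℝ) * (N / B ^ 2 + C ^ 2) ≤ 3 * N) :
    ∑ n ∈ Ico N (2 * N), ∑ m ∈ Ico N (2 * N), (if n = m then 0 else
      kg Y ((n : ℝ) - m) * |∑ p ∈ Q, ε p * ((jacobiSym ((n : ℤ) * m) p : ℤ) : ℝ)|) ≤
    68 * (Y : ℝ) * N * Real.sqrt #Q + 2 * (N : ℝ) ^ 2 * #Q * kg Y B := by
  have hY1 : (1 : ℝ) ≤ Y := by exact_mod_cast hY
  have hN0 : (0 : ℝ) ≤ N := Nat.cast_nonneg N
  set b : ℕ → ℕ → ℝ := fun n m =>
    kg Y ((n : ℝ) - m) * |∑ p ∈ Q, ε p * ((jacobiSym ((n : ℤ) * m) p : ℤ) : ℝ)| with hbdef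
  have h1 := pair_sum N b (fun n m => by
    have := kg_pos (Y : ℝ) ((n : ℝ) - m)
    positivity) (fun n m => by
    simp only [hbdef]
    rw [mul_comm (n : ℤ) m]
    congr 1
    unfold kg
    rw [← neg_sub (n : ℝ) m, neg_sq])
  refine h1.trans ?_
  have hbound : ∀ h ∈ Ioc 0 N, ∑ m ∈ Ico N (2 * N), b (m + h) m ≤
      kg Y h * (2 * N * Real.sqrt #Q) + N * #Q * kg Y B := by
    intro h hh
    rw [mem_Ioc] at hh
    have e : ∀ m ∈ Ico N (2 * N), b (m + h) m =
        kg Y h * |∑ p ∈ Q, ε p * fp p h m| := by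
      intro m _
      simp only [hbdef]
      congr 1
      · push_cast
        rw [add_sub_cancel_left]
      · congr 1
        apply sum_congr rfl
        intro p _
        unfold fp
        congr 3
        push_cast
        ring
    rw [sum_congr rfl e, ← mul_sum]
    have hk := kg_pos (Y : ℝ) (h : ℝ)
    rcases lt_or_ge (h : ℝ) B with hlt | hge
    · -- the essential range
      have hne : ∀ p ∈ Q, ((h : ℤ) : ZMod p) ≠ 0 := by
        intro p hp hz
        obtain ⟨-, -, p3, -⟩ := hQ p hp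
        rw [Int.cast_natCast, ZMod.natCast_eq_zero_iff] at hz
        have h2 := Nat.le_of_dvd hh.1 hz
        have h3 : (p : ℝ) ≤ h := by exact_mod_cast h2
        linarith
      have hsm := second_moment hB hQ hne ε hε N N
      have hIco : ∑ m ∈ Ico N (2 * N), |∑ p ∈ Q, ε p * fp p h m| =
          ∑ i ∈ range N, |∑ p ∈ Q, ε p * fp p h (N + i)| := by
        rw [Finset.sum_Ico_eq_sum_range]
        have : 2 * N - N = N := by omega
        rw [this]
        push_cast
        rfl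
      rw [hIco]
      have hcs : (∑ i ∈ range N, |∑ p ∈ Q, ε p * fp p h (N + i)|) ^ 2 ≤
          N * ∑ i ∈ range N, (∑ p ∈ Q, ε p * fp p h (N + i)) ^ 2 := by
        have := sq_sum_le_card_mul_sum_sq (s := range N)
          (f := fun i : ℕ => |∑ p ∈ Q, ε p * fp p h (N + i)|)
        simpa using this
      have hfin : ∑ i ∈ range N, |∑ p ∈ Q, ε p * fp p h (N + i)| ≤ 2 * N * Real.sqrt #Q := by
        have h2 : (2 * (N : ℝ) * Real.sqrt #Q) ^ 2 = 4 * N ^ 2 * #Q := by
          rw [mul_pow, Real.sq_sqrt (Nat.cast_nonneg _)]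
          ring
        apply le_of_sq_le_sq _ (by positivity)
        rw [h2]
        refine hcs.trans ?_
        have h3 : ∑ i ∈ range N, (∑ p ∈ Q, ε p * fp p h (N + i)) ^ 2 ≤ 4 * N * #Q := by
          refine hsm.trans ?_
          have h4 : (0 : ℝ) ≤ #Q := Nat.cast_nonneg _
          have := mul_le_mul_of_nonneg_left hQN h4
          nlinarith
        calc (N : ℝ) * _ ≤ N * (4 * N * #Q) := mul_le_mul_of_nonneg_left h3 hN0
          _ = _ := by ring
      have h0 : 0 ≤ (N : ℝ) * #Q * kg Y B := by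
        have := kg_pos (Y : ℝ) B
        positivity
      have := mul_le_mul_of_nonneg_left hfin hk.le
      linarith
    · -- the negligible range
      have h2 : kg Y h ≤ kg Y B := by
        unfold kg
        apply Real.exp_le_exp.2
        have : B ^ 2 / (16 * (Y : ℝ) ^ 2) ≤ (h : ℝ) ^ 2 / (16 * (Y : ℝ) ^ 2) := by gcongr
        linarith
      have h3 : ∑ m ∈ Ico N (2 * N), |∑ p ∈ Q, ε p * fp p h m| ≤ N * #Q := by
        have h4 : ∀ m ∈ Ico N (2 * N), |∑ p ∈ Q, ε p * fp p h m| ≤ #Q := by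
          intro m _
          refine (abs_sum_le_sum_abs _ _).trans ?_
          calc ∑ p ∈ Q, |ε p * fp p h m| ≤ ∑ p ∈ Q, (1 : ℝ) := by
                apply sum_le_sum
                intro p hp
                rw [abs_mul]
                calc _ ≤ (1 : ℝ) * 1 :=
                      mul_le_mul (hε p hp) (fp_abs _ _ _) (abs_nonneg _) zero_le_one
                  _ = 1 := one_mul 1
            _ = #Q := by simp
        refine (sum_le_sum h4).trans ?_
        rw [sum_const, Nat.card_Ico, nsmul_eq_mul]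
        have : 2 * N - N = N := by omega
        rw [this]
      have h5 : 0 ≤ kg Y h * (2 * N * Real.sqrt #Q) := by positivity
      have h6 : kg Y h * ∑ m ∈ Ico N (2 * N), |∑ p ∈ Q, ε p * fp p h m| ≤ kg Y B * (N * #Q) :=
        mul_le_mul h2 h3 (by positivity) (kg_pos _ _).le
      linarith
  have h7 := sum_le_sum hbound
  rw [sum_add_distrib, ← sum_mul] at h7
  have h8 : ∑ h ∈ Ioc 0 N, (N : ℝ) * #Q * kg Y B = N * (N * #Q * kg Y B) := by
    rw [sum_const, Nat.card_Ioc, nsmul_eq_mul, Nat.sub_zero]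
  rw [h8] at h7
  have h9 := kg_sum hY N
  have h10 : (∑ h ∈ Ioc 0 N, kg Y h) * (2 * N * Real.sqrt #Q) ≤ (17 * Y) * (2 * N * Real.sqrt #Q) :=
    mul_le_mul_of_nonneg_right h9 (by positivity)
  nlinarith

end Pool.Agent.H491R3
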