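import Pool.Agent.H491R3.Char

set_option autoImplicit false

namespace Pool.Agent.H491R3

open Complex

theorem jacobi_self_pred {m : ℕ} (hm : Odd m) : jacobiSym (m : ℤ) (8 * m - 1) = 1 := by
  have hm0 : 0 < m := hm.pos
  have hn : Odd (8 * m - 1) := by rw [Nat.odd_iff]; omega
  rw [jacobiSym.quadratic_reciprocity hm hn, jacobiSym.mod_left]
  have h1 : (((8 * m - 1 : ℕ) : ℤ) % (m : ℤ)) = ((-1 : ℤ) % (m : ℤ)) := by
    have : ((8 * m - 1 : ℕ) : ℤ) = -1 + (m : ℤ) * 8 := by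
      push_cast [Nat.cast_sub (show 1 ≤ 8 * m by omega)]
      ring
    rw [this, Int.add_mul_emod_self_left]
  rw [h1, ← jacobiSym.mod_left, jacobiSym.at_neg_one hm, ZMod.χ₄_eq_neg_one_pow (Nat.odd_iff.1 hm)]
  have h2 : (8 * m - 1) / 2 = 2 * (2 * m - 1) + 1 := by omega
  rw [h2, ← pow_add]
  have h3 : m / 2 * (2 * (2 * m - 1) + 1) + m / 2 = 2 * (m / 2 * (2 * m - 1) + m / 2) := by ring
  rw [h3, pow_mul]
  norm_num

theorem chi8_neg_one (d : OddSqf) : chi8 d (-1) = if 0 < d.1 then 1 else -1 := by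
  set m := d.1.natAbs with hm
  have hm0 : 0 < m := Int.natAbs_pos.2 d.ne_zero
  have hmo : Odd m := Int.natAbs_odd.2 d.2.1
  have h1 : (-1 : ZMod (8 * m)) = ((8 * m - 1 : ℕ) : ZMod (8 * m)) := by
    rw [Nat.cast_sub (by omega)]
    simp
  have h1' : chi8 d (-1) = chi8 d ((8 * m - 1 : ℕ) : ZMod (8 * d.1.natAbs)) :=
    congrArg (chi8 d) h1
  rw [h1', chi8_natCast]
  have hn : Odd (8 * m - 1) := by rw [Nat.odd_iff]; omega
  rw [kron8_odd_mul hn]
  have h2 : jacobiSym 2 (8 * m - 1) = 1 := by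
    rw [jacobiSym.at_two hn, ZMod.χ₈_nat_eq_if_mod_eight]
    have e1 : (8 * m - 1) % 8 = 7 := by omega
    have e2 : (8 * m - 1) % 2 = 1 := by omega
    rw [e1, e2]
    norm_num
  rw [h2]
  split_ifs with hd
  · have : d.1 = (m : ℤ) := by omega
    rw [this, jacobi_self_pred hmo]
    norm_num
  · have : d.1 = -(m : ℤ) := by have := d.ne_zero; omega
    rw [this, jacobiSym.neg _ hn, jacobi_self_pred hmo, ZMod.χ₄_nat_eq_if_mod_four]
    have e1 : (8 * m - 1) % 4 = 3 := by omega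
    have e2 : (8 * m - 1) % 2 = 1 := by omega
    rw [e1, e2]
    norm_num

theorem chi8_even {d : OddSqf} (hd : 0 < d.1) : (chi8 d).Even := by
  unfold DirichletCharacter.Even
  rw [chi8_neg_one, if_pos hd]

theorem chi8_odd {d : OddSqf} (hd : ¬ 0 < d.1) : (chi8 d).Odd := by
  unfold DirichletCharacter.Odd
  rw [chi8_neg_one, if_neg hd]

end Pool.Agent.H491R3
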