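import Pool.Agent.H491R3.Defs

set_option autoImplicit false

namespace Pool.Agent.H491R3

open Finset

theorem card_dvd {a b m : ℕ} (hm : 0 < m) (hab : a ≤ b) :
    ((#{x ∈ Ioc a b | m ∣ x} : ℕ) : ℝ) ≤ ((b : ℝ) - a) / m + 1 := by
  have h1 := Nat.Ioc_filter_dvd_card_eq_div b m
  have h2 := Nat.Ioc_filter_dvd_card_eq_div a m
  have h3 : #{x ∈ Ioc 0 b | m ∣ x} = #{x ∈ Ioc 0 a | m ∣ x} + #{x ∈ Ioc a b | m ∣ x} := by
    rw [← Finset.Ioc_union_Ioc_eq_Ioc (Nat.zero_le a) hab, Finset.filter_union,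
      Finset.card_union_of_disjoint]
    apply Finset.disjoint_filter_filter
    rw [Finset.disjoint_left]
    intro x hx hx2
    rw [Finset.mem_Ioc] at hx hx2
    omega
  rw [h1, h2] at h3
  have h4 : ((b / m : ℕ) : ℝ) ≤ (b : ℝ) / m := Nat.cast_div_le
  have h5 : (a : ℝ) / m ≤ ((a / m : ℕ) : ℝ) + 1 := by
    have hm' : (0 : ℝ) < m := by exact_mod_cast hm
    rw [div_le_iff₀ hm']
    have : a < (a / m + 1) * m := by
      have h6 := Nat.div_add_mod a m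
      have h7 := Nat.mod_lt a hm
      nlinarith
    exact_mod_cast this.le
  have h6 : ((#{x ∈ Ioc a b | m ∣ x} : ℕ) : ℝ) = ((b / m : ℕ) : ℝ) - ((a / m : ℕ) : ℝ) := by
    rw [h3]; push_cast; ring
  rw [h6, sub_div]
  linarith

theorem sqf_count {a b K : ℕ} (hab : a ≤ b) (hK : b ≤ K ^ 2) (hK3 : 3 ≤ K) :
    ((b : ℝ) - a) / 18 - 2 - K ≤ ((#{x ∈ Ioc a b | Odd x ∧ Squarefree x} : ℕ) : ℝ) := by
  classical
  set good := {x ∈ Ioc a b | Odd x ∧ Squarefree x} with hgood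
  have hcover : Ioc a b ⊆ (good ∪ {x ∈ Ioc a b | 2 ∣ x}) ∪
      ((insert 3 (Ioc 3 K)).biUnion fun k => {x ∈ Ioc a b | k ^ 2 ∣ x}) := by
    intro x hx
    rw [mem_union, mem_union]
    by_cases h1 : 2 ∣ x
    · exact Or.inl (Or.inr (by rw [mem_filter]; exact ⟨hx, h1⟩))
    have hodd : Odd x := by
      rw [← Nat.not_even_iff_odd, even_iff_two_dvd]; exact h1
    by_cases h2 : Squarefree x
    · exact Or.inl (Or.inl (by rw [hgood, mem_filter]; exact ⟨hx, hodd, h2⟩))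
    · right
      rw [Nat.squarefree_iff_prime_squarefree] at h2
      push Not at h2
      obtain ⟨p, hp, hpx⟩ := h2
      rw [mem_biUnion]
      have hp2 : p ≠ 2 := by
        rintro rfl
        exact h1 ((dvd_mul_right 2 2).trans hpx)
      have hp3 : 3 ≤ p := by have := hp.two_le; omega
      have hx' := hx
      rw [mem_Ioc] at hx'
      have hpK : p ≤ K := by
        by_contra hlt
        push Not at hlt
        have h3 : p * p ≤ x := Nat.le_of_dvd (by omega) hpx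
        have : K ^ 2 < p * p := by nlinarith
        omega
      refine ⟨p, ?_, ?_⟩
      · rw [mem_insert, mem_Ioc]
        omega
      · rw [mem_filter]
        exact ⟨hx, by rw [sq]; exact hpx⟩
  have h1 := card_le_card hcover
  have h2 : #(Ioc a b) ≤ #(good) + #{x ∈ Ioc a b | 2 ∣ x} +
      ∑ k ∈ insert 3 (Ioc 3 K), #{x ∈ Ioc a b | k ^ 2 ∣ x} := by
    refine h1.trans ((card_union_le _ _).trans ?_)
    exact add_le_add (card_union_le _ _) card_biUnion_le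
  have h3 : ((b : ℝ) - a) ≤ (#(good) : ℝ) + ((#{x ∈ Ioc a b | 2 ∣ x} : ℕ) : ℝ) +
      ∑ k ∈ insert 3 (Ioc 3 K), ((#{x ∈ Ioc a b | k ^ 2 ∣ x} : ℕ) : ℝ) := by
    have : ((#(Ioc a b) : ℕ) : ℝ) = (b : ℝ) - a := by
      rw [Nat.card_Ioc, Nat.cast_sub hab]
    rw [← this]
    exact_mod_cast h2
  have h4 : ((#{x ∈ Ioc a b | 2 ∣ x} : ℕ) : ℝ) ≤ ((b : ℝ) - a) / 2 + 1 := by
    have := card_dvd (m := 2) (by norm_num) hab
    exact_mod_cast this
  have hba : (0 : ℝ) ≤ (b : ℝ) - a := by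
    have : (a : ℝ) ≤ b := by exact_mod_cast hab
    linarith
  have h5 : ∑ k ∈ insert 3 (Ioc 3 K), ((#{x ∈ Ioc a b | k ^ 2 ∣ x} : ℕ) : ℝ) ≤
      ((b : ℝ) - a) * (4 / 9) + K := by
    have h6 : ∀ k ∈ insert 3 (Ioc 3 K), ((#{x ∈ Ioc a b | k ^ 2 ∣ x} : ℕ) : ℝ) ≤
        ((b : ℝ) - a) * ((k : ℝ) ^ 2)⁻¹ + 1 := by
      intro k hk
      have hk0 : 0 < k := by
        rw [mem_insert, mem_Ioc] at hk
        omega
      have := card_dvd (m := k ^ 2) (by positivity) hab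
      rw [div_eq_mul_inv] at this
      exact_mod_cast this
    refine (sum_le_sum h6).trans ?_
    rw [sum_insert (by simp), sum_add_distrib, ← mul_sum]
    have h7 := sum_Ioc_inv_sq_le_sub (α := ℝ) (k := 3) (n := K) (by norm_num) hK3
    have h8 : (0 : ℝ) ≤ (K : ℝ)⁻¹ := by positivity
    have h9 : ∑ i ∈ Ioc 3 K, ((i : ℝ) ^ 2)⁻¹ ≤ 1 / 3 := by
      refine h7.trans ?_
      push_cast
      linarith
    have h10 : ∑ i ∈ Ioc 3 K, (1 : ℝ) = (K : ℝ) - 3 := by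
      rw [sum_const, Nat.card_Ioc, nsmul_eq_mul, mul_one, Nat.cast_sub hK3]
      norm_num
    rw [h10]
    have h11 := mul_le_mul_of_nonneg_left h9 hba
    push_cast
    nlinarith
  linarith

/-- the elements of the family with absolute value at most `N` -/
noncomputable def Dset (N : ℕ) : Finset OddSqf := by
  classical
  exact (Finset.Icc (-(N : ℤ)) N).subtype (fun d => Odd d ∧ Squarefree d)

theorem mem_Dset {N : ℕ} {d : OddSqf} : d ∈ Dset N ↔ |d.1| ≤ N := by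
  classical
  unfold Dset
  rw [Finset.mem_subtype, Finset.mem_Icc, abs_le]

/-- the properties of the weight -/
structure Wt (w : ℝ → ℝ) : Prop where
  even : ∀ x, w (-x) = w x
  nonneg : ∀ x, 0 ≤ w x
  le_one : ∀ x, w x ≤ 1
  supp : ∀ x, w x ≠ 0 → 1 < |x| ∧ |x| < 3 / 2
  one : ∀ x, 9 / 8 ≤ |x| → |x| ≤ 11 / 8 → w x = 1

theorem abs_cast_le {N : ℕ} {d : OddSqf} : d ∈ Dset N ↔ |(d.1 : ℝ)| ≤ N := by
  rw [mem_Dset]
  constructor
  · intro h
    have : ((|d.1| : ℤ) : ℝ) ≤ ((N : ℤ) : ℝ) := by exact_mod_cast h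
    simpa using this
  · intro h
    have : ((|d.1| : ℤ) : ℝ) ≤ ((N : ℤ) : ℝ) := by simpa using h
    exact_mod_cast this

theorem wt_zero {w : ℝ → ℝ} (hw : Wt w) {X : ℝ} (hX : 0 < X) {N : ℕ} (hN : 3 / 2 * X ≤ N)
    {d : OddSqf} (hd : d ∉ Dset N) : w (d.1 / X) = 0 := by
  by_contra h
  obtain ⟨-, h2⟩ := hw.supp _ h
  apply hd
  rw [abs_cast_le]
  rw [abs_div, abs_of_pos hX, div_lt_iff₀ hX] at h2
  linarith

theorem wt_tsum {w : ℝ → ℝ} (hw : Wt w) {X : ℝ} (hX : 0 < X) {N : ℕ} (hN : 3 / 2 * X ≤ N)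
    (f : OddSqf → ℂ) : ∑' d : OddSqf, (w (d.1 / X) : ℂ) * f d =
      ∑ d ∈ Dset N, (w (d.1 / X) : ℂ) * f d := by
  apply tsum_eq_sum
  intro d hd
  rw [wt_zero hw hX hN hd]
  simp

theorem wt_tsum' {w : ℝ → ℝ} (hw : Wt w) {X : ℝ} (hX : 0 < X) {N : ℕ} (hN : 3 / 2 * X ≤ N) :
    ∑' d : OddSqf, (w (d.1 / X) : ℂ) = ((∑ d ∈ Dset N, w (d.1 / X) : ℝ) : ℂ) := by
  have h := wt_tsum hw hX hN (fun _ => 1)
  simp only [mul_one] at h
  rw [h]
  push_cast
  rfl

/-- the family has positive density -/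
theorem wt_lower {w : ℝ → ℝ} (hw : Wt w) : ∃ X₀ : ℝ, ∀ X ≥ X₀, ∀ N : ℕ, 3 / 2 * X ≤ N →
    X / 100 ≤ ∑ d ∈ Dset N, w (d.1 / X) := by
  refine ⟨10 ^ 8, fun X hX N hN => ?_⟩
  have hX0 : 0 < X := lt_of_lt_of_le (by norm_num) hX
  set a := ⌈9 / 8 * X⌉₊ with ha
  set b := ⌊11 / 8 * X⌋₊ with hb
  have ha1 : 9 / 8 * X ≤ a := Nat.le_ceil _
  have ha2 : (a : ℝ) < 9 / 8 * X + 1 := Nat.ceil_lt_add_one (by positivity)
  have hb1 : (b : ℝ) ≤ 11 / 8 * X := Nat.floor_le (by positivity)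
  have hb2 : 11 / 8 * X < b + 1 := Nat.lt_floor_add_one _
  have hab : a ≤ b := by
    have : (a : ℝ) ≤ b := by linarith
    exact_mod_cast this
  set K := Nat.sqrt b + 1 with hK
  have hK1 : b ≤ K ^ 2 := by
    have := Nat.lt_succ_sqrt b
    rw [hK, sq]
    exact this.le
  have hs : (Nat.sqrt b : ℝ) ≤ X / 8000 := by
    have h1 : ((Nat.sqrt b : ℕ) : ℝ) ^ 2 ≤ b := by exact_mod_cast Nat.sqrt_le' b
    have h2 : ((Nat.sqrt b : ℕ) : ℝ) ^ 2 ≤ (X / 8000) ^ 2 := by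
      have h3 : 11 / 8 * X ≤ (X / 8000) ^ 2 := by nlinarith
      linarith
    exact le_of_sq_le_sq h2 (by positivity)
  have hbig : 3 ≤ K := by
    have h1 : 2 * 2 ≤ b := by
      have : (4 : ℝ) ≤ b := by linarith
      exact_mod_cast this
    have := Nat.le_sqrt.2 h1
    omega
  have hcount := sqf_count hab hK1 hbig
  have hK' : (K : ℝ) = (Nat.sqrt b : ℝ) + 1 := by rw [hK]; push_cast; rfl
  rw [hK'] at hcount
  classical
  set G : Finset OddSqf := (Dset N).filter (fun d => (a : ℤ) < d.1 ∧ d.1 ≤ b) with hG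
  have hcard : #{x ∈ Ioc a b | Odd x ∧ Squarefree x} ≤ #G := by
    have hsub : ({x ∈ Ioc a b | Odd x ∧ Squarefree x}) ⊆ G.image (fun d => d.1.natAbs) := by
      intro x hx
      rw [mem_filter, mem_Ioc] at hx
      obtain ⟨⟨hx1, hx2⟩, hx3, hx4⟩ := hx
      have hodd : Odd (x : ℤ) := by exact_mod_cast hx3
      have hsq : Squarefree (x : ℤ) := by
        rw [← Int.squarefree_natAbs]; simpa using hx4
      rw [mem_image]
      refine ⟨⟨(x : ℤ), hodd, hsq⟩, ?_, by simp⟩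
      rw [hG, mem_filter]
      refine ⟨?_, ?_, ?_⟩
      · rw [abs_cast_le]
        have : (x : ℝ) ≤ b := by exact_mod_cast hx2
        simp only [Int.cast_natCast]
        rw [abs_of_nonneg (by positivity)]
        linarith
      · simpa using hx1
      · simpa using hx2
    exact (card_le_card hsub).trans card_image_le
  have hsum : (#G : ℝ) ≤ ∑ d ∈ Dset N, w (d.1 / X) := by
    have h1 : ∑ d ∈ G, w (d.1 / X) ≤ ∑ d ∈ Dset N, w (d.1 / X) :=
      sum_le_sum_of_subset_of_nonneg (filter_subset _ _) fun d _ _ => hw.nonneg _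
    refine le_trans (le_of_eq ?_) h1
    rw [Finset.card_eq_sum_ones]
    push_cast
    apply sum_congr rfl
    intro d hd
    rw [hG, mem_filter] at hd
    obtain ⟨-, hd1, hd2⟩ := hd
    have hd1' : (a : ℝ) < d.1 := by exact_mod_cast hd1
    have hd2' : (d.1 : ℝ) ≤ b := by exact_mod_cast hd2
    have hpos : (0 : ℝ) < d.1 := lt_of_le_of_lt (by positivity) hd1'
    symm
    apply hw.one
    · rw [abs_of_pos (by positivity), le_div_iff₀ hX0]
      linarith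
    · rw [abs_of_pos (by positivity), div_le_iff₀ hX0]
      linarith
  have hcard' : ((#{x ∈ Ioc a b | Odd x ∧ Squarefree x} : ℕ) : ℝ) ≤ #G := by exact_mod_cast hcard
  linarith

end Pool.Agent.H491R3
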