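import Pool.Agent.H491R3.PairSum
import Pool.Agent.H491R3.SqfCount
import Pool.Agent.H491R3.BetaExt

set_option autoImplicit false

namespace Pool.Agent.H491R3

open Finset Complex

/-- the root number as a real number -/
noncomputable def Wr (d : OddSqf) : ℝ := by
  classical
  exact if W d = 1 then 1 else -1

theorem W_real (d : OddSqf) : W d = (Wr d : ℂ) := by
  classical
  unfold Wr
  rcases W_eq d with h | h
  · rw [if_pos h, h]; simp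
  · rw [if_neg (by rw [h]; norm_num), h]; simp

theorem Wr_sq (d : OddSqf) : Wr d * Wr d = 1 := by
  classical
  unfold Wr
  split_ifs <;> norm_num

theorem Wr_abs (d : OddSqf) : |Wr d| = 1 := by
  classical
  unfold Wr
  split_ifs <;> norm_num

/-- the values of the character as real numbers -/
def kr (d : OddSqf) (p : ℕ) : ℝ := ((kron8 d.1 p : ℤ) : ℝ)

theorem chi_kr (d : OddSqf) (p : ℕ) : chi8 d (p : ZMod (8 * d.1.natAbs)) = (kr d p : ℂ) := by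
  rw [chi8_natCast]
  unfold kr
  push_cast
  rfl

theorem kr_odd (d : OddSqf) {p : ℕ} (hp : Odd p) : kr d p = ((jacobiSym (8 * d.1) p : ℤ) : ℝ) := by
  unfold kr kron8
  rw [if_neg (Nat.not_even_iff_odd.2 hp)]

theorem kr_abs (d : OddSqf) (p : ℕ) : |kr d p| ≤ 1 := by
  unfold kr kron8
  split_ifs
  · simp
  · exact jac_abs _ _

theorem kr_mul (d e : OddSqf) {p : ℕ} (hp : Odd p) :
    kr d p * kr e p = ((jacobiSym (d.1 * e.1) p : ℤ) : ℝ) := by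
  rw [kr_odd d hp, kr_odd e hp, ← Int.cast_mul, ← jacobiSym.mul_left]
  congr 1
  have h : (8 * d.1) * (8 * e.1) = (8 : ℤ) ^ 2 * (d.1 * e.1) := by ring
  rw [h, jacobiSym.mul_left]
  have h2 : jacobiSym ((8 : ℤ) ^ 2) p = 1 := by
    apply jacobiSym.sq_one'
    have h3 : Nat.Coprime 8 p := by
      have : Nat.Coprime 2 p := Nat.coprime_two_left.2 hp
      exact Nat.Coprime.pow_left 3 this
    simpa [Int.gcd] using h3
  rw [h2, one_mul]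

/-- the primes used -/
def PQ (r : ℕ) : Finset ℕ := (Finset.Ioc (r ^ 10) (r ^ 20)).filter Nat.Prime

/-- the whole family up to `2 X` -/
noncomputable def Dr (r : ℕ) : Finset OddSqf := Dset (2 * r ^ 100)

/-- the window of length `X / 2` -/
noncomputable def Sr (r : ℕ) : Finset OddSqf := by
  classical
  exact (Dr r).filter (fun d => (r : ℤ) ^ 100 < d.1 ∧ 2 * d.1 < 3 * (r : ℤ) ^ 100)

theorem mem_Sr {r : ℕ} {d : OddSqf} :
    d ∈ Sr r ↔ d ∈ Dr r ∧ (r : ℤ) ^ 100 < d.1 ∧ 2 * d.1 < 3 * (r : ℤ) ^ 100 := by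
  classical
  unfold Sr
  rw [mem_filter]

noncomputable def W1 (w : ℝ → ℝ) (r : ℕ) : ℝ := ∑ d ∈ Dr r, w (d.1 / (r : ℝ) ^ 100)

noncomputable def W2 (w : ℝ → ℝ) (r : ℕ) : ℝ := ∑ d ∈ Dr r, w (d.1 / ((r : ℝ) ^ 100 / 4))

noncomputable def vv (w : ℝ → ℝ) (r : ℕ) (d : OddSqf) : ℝ :=
  w (d.1 / (r : ℝ) ^ 100) / W1 w r - w (d.1 / ((r : ℝ) ^ 100 / 4)) / W2 w r

noncomputable def Kap (U T l : ℝ) : ℂ := exp (T * l * I) * (Real.exp (-(U ^ 2 * l ^ 2 / 4)) : ℝ)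

noncomputable def ll (d e : OddSqf) : ℝ := Real.log |(d.1 : ℝ)| - Real.log |(e.1 : ℝ)|

noncomputable def mm (w : ℝ → ℝ) (r p : ℕ) : ℂ := ∑ d ∈ Dr r, ∑ e ∈ Sr r,
  ((vv w r d * (Wr d * kr d p) * (Wr e * kr e p) : ℝ) : ℂ) *
    (sg d * Kap ((r : ℝ) ^ 96) ((r : ℝ) ^ 98) (ll d e))

theorem Kap_norm (U T l : ℝ) : ‖Kap U T l‖ = Real.exp (-(U ^ 2 * l ^ 2 / 4)) := by
  unfold Kap
  rw [norm_mul, norm_real, Real.norm_eq_abs, abs_of_pos (Real.exp_pos _)]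
  have : ‖exp ((T : ℂ) * l * I)‖ = 1 := by
    rw [← ofReal_mul]
    exact norm_exp_ofReal_mul_I _
  rw [this, one_mul]

theorem Kap_zero (U T : ℝ) : Kap U T 0 = 1 := by
  unfold Kap
  simp

theorem W1_lower {w : ℝ → ℝ} (hw : Wt w) : ∃ r₀ : ℕ, ∀ r ≥ r₀,
    (r : ℝ) ^ 100 / 100 ≤ W1 w r ∧ (r : ℝ) ^ 100 / 400 ≤ W2 w r ∧ 1000 ≤ (r : ℝ) := by
  obtain ⟨X₀, h⟩ := wt_lower hw
  refine ⟨⌈4 * |X₀|⌉₊ + 1000, fun r hr => ?_⟩
  have hr1 : (4 * |X₀|) ≤ r := by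
    have h1 : 4 * |X₀| ≤ ⌈4 * |X₀|⌉₊ := Nat.le_ceil _
    have h2 : ((⌈4 * |X₀|⌉₊ : ℕ) : ℝ) ≤ r := by
      have : ⌈4 * |X₀|⌉₊ ≤ r := by omega
      exact_mod_cast this
    linarith
  have hr2 : (1000 : ℝ) ≤ r := by
    have : 1000 ≤ r := by omega
    exact_mod_cast this
  have hr3 : (r : ℝ) ≤ (r : ℝ) ^ 100 := by
    have : (1 : ℝ) ≤ r := by linarith
    calc (r : ℝ) = (r : ℝ) ^ 1 := (pow_one _).symm
      _ ≤ (r : ℝ) ^ 100 := pow_le_pow_right₀ this (by norm_num)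
  have hX0 : X₀ ≤ |X₀| := le_abs_self _
  have hX1 : 0 ≤ |X₀| := abs_nonneg _
  have hN : ((2 * r ^ 100 : ℕ) : ℝ) = 2 * (r : ℝ) ^ 100 := by push_cast; rfl
  refine ⟨?_, ?_, hr2⟩
  · have := h ((r : ℝ) ^ 100) (by linarith) (2 * r ^ 100) (by rw [hN]; linarith)
    exact this
  · have := h ((r : ℝ) ^ 100 / 4) (by show X₀ ≤ _; linarith) (2 * r ^ 100) (by rw [hN]; linarith)
    unfold W2 Dr
    linarith

theorem mem_PQ {r p : ℕ} (h : p ∈ PQ r) (hr : 2 ≤ r) :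
    p.Prime ∧ p ≠ 2 ∧ ((r : ℝ) ^ 10) ≤ p ∧ (p : ℝ) ≤ (r : ℝ) ^ 20 ∧ Odd p := by
  unfold PQ at h
  rw [mem_filter, mem_Ioc] at h
  obtain ⟨⟨h1, h2⟩, h3⟩ := h
  have h4 : 2 < p := by
    have : 2 ^ 10 ≤ r ^ 10 := Nat.pow_le_pow_left hr 10
    omega
  refine ⟨h3, by omega, ?_, ?_, h3.odd_of_ne_two (by omega)⟩
  · exact_mod_cast h1.le
  · exact_mod_cast h2

theorem PQ_card_le (r : ℕ) : (#(PQ r) : ℝ) ≤ (r : ℝ) ^ 20 := by
  have h : #(PQ r) ≤ r ^ 20 := by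
    unfold PQ
    refine (card_filter_le _ _).trans ?_
    rw [Nat.card_Ioc]
    omega
  exact_mod_cast h

theorem sum_inj (A : Finset OddSqf) (J : Finset ℕ) (F : ℕ → ℝ) (hF : ∀ n, 0 ≤ F n)
    (hA : ∀ d ∈ A, d.1.natAbs ∈ J) (hs : (∀ d ∈ A, 0 < d.1) ∨ (∀ d ∈ A, d.1 < 0)) :
    ∑ d ∈ A, F d.1.natAbs ≤ ∑ n ∈ J, F n := by
  classical
  have h1 : ∑ d ∈ A, F d.1.natAbs = ∑ n ∈ A.image (fun d => d.1.natAbs), F n := by
    rw [sum_image]
    intro x hx y hy hxy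
    simp only at hxy
    apply Subtype.ext
    rcases hs with h | h
    · have := h x hx; have := h y hy; omega
    · have := h x hx; have := h y hy; omega
  rw [h1]
  apply sum_le_sum_of_subset_of_nonneg
  · intro n hn
    rw [mem_image] at hn
    obtain ⟨d, hd, rfl⟩ := hn
    exact hA d hd
  · intro n _ _
    exact hF n

theorem Sr_window {r : ℕ} {d : OddSqf} (h : d ∈ Sr r) :
    d.1.natAbs ∈ Ico (r ^ 100) (2 * r ^ 100) ∧ 0 < d.1 ∧ (r : ℝ) ^ 100 < |(d.1 : ℝ)| ∧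
    |(d.1 : ℝ)| < 3 / 2 * (r : ℝ) ^ 100 := by
  rw [mem_Sr] at h
  obtain ⟨-, h1, h2⟩ := h
  have hr : (0 : ℤ) ≤ (r : ℤ) ^ 100 := by positivity
  have hpos : 0 < d.1 := by omega
  have h1' : (r : ℝ) ^ 100 < (d.1 : ℝ) := by exact_mod_cast h1
  have h2' : 2 * (d.1 : ℝ) < 3 * (r : ℝ) ^ 100 := by exact_mod_cast h2
  have hpos' : (0 : ℝ) < d.1 := by exact_mod_cast hpos
  refine ⟨?_, hpos, ?_, ?_⟩
  · rw [mem_Ico]
    have hn : ((d.1.natAbs : ℕ) : ℤ) = d.1 := Int.natAbs_of_nonneg hpos.le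
    constructor
    · have : ((r ^ 100 : ℕ) : ℤ) ≤ ((d.1.natAbs : ℕ) : ℤ) := by
        rw [hn]; push_cast; exact h1.le
      exact_mod_cast this
    · have : ((d.1.natAbs : ℕ) : ℤ) < ((2 * r ^ 100 : ℕ) : ℤ) := by
        rw [hn]; push_cast; linarith
      exact_mod_cast this
  · rwa [abs_of_pos hpos']
  · rw [abs_of_pos hpos']
    linarith

theorem Sr_card (r : ℕ) : (#(Sr r) : ℝ) ≤ (r : ℝ) ^ 100 := by
  have h := sum_inj (Sr r) (Ico (r ^ 100) (2 * r ^ 100)) (fun _ => 1) (fun _ => zero_le_one)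
    (fun d hd => (Sr_window hd).1) (Or.inl fun d hd => (Sr_window hd).2.1)
  rw [sum_const, sum_const, Nat.card_Ico, nsmul_eq_mul, mul_one, nsmul_eq_mul, mul_one] at h
  have e : 2 * r ^ 100 - r ^ 100 = r ^ 100 := by omega
  rw [e] at h
  exact_mod_cast h

/-- logarithms of distinct integers in the window are separated -/
theorem log_sep {X n m : ℝ} (hX : 0 < X) (hn : 0 < n) (hm : 0 < m) (hn2 : n ≤ 2 * X)
    (hm2 : m ≤ 2 * X) : (n - m) ^ 2 / (4 * X ^ 2) ≤ (Real.log n - Real.log m) ^ 2 := by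
  have key : ∀ a b : ℝ, 0 < a → 0 < b → a ≤ 2 * X → b ≤ a →
      (a - b) ^ 2 / (4 * X ^ 2) ≤ (Real.log a - Real.log b) ^ 2 := by
    intro a b ha hb ha2 hab
    have h1 := Real.one_sub_inv_le_log_of_pos (show 0 < a / b by positivity)
    rw [Real.log_div ha.ne' hb.ne', inv_div] at h1
    have h2 : (a - b) / (2 * X) ≤ 1 - b / a := by
      have : 1 - b / a = (a - b) / a := by field_simp
      rw [this]
      apply div_le_div_of_nonneg_left (by linarith) ha ha2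
    have h3 : 0 ≤ (a - b) / (2 * X) := div_nonneg (by linarith) (by positivity)
    calc (a - b) ^ 2 / (4 * X ^ 2) = ((a - b) / (2 * X)) ^ 2 := by
          rw [div_pow]; congr 1; ring
      _ ≤ (Real.log a - Real.log b) ^ 2 := pow_le_pow_left₀ h3 (h2.trans h1) 2
  rcases le_total m n with h | h
  · exact key n m hn hm hn2 h
  · have := key m n hm hn hm2 h
    rw [← neg_sub n m, neg_sq, ← neg_sub (Real.log n), neg_sq] at this
    exact this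

theorem kap_le_kg {r : ℕ} (hr : 1 ≤ r) {n m : ℝ} (hn : 0 < n) (hm : 0 < m)
    (hn2 : n ≤ 2 * (r : ℝ) ^ 100) (hm2 : m ≤ 2 * (r : ℝ) ^ 100) :
    Real.exp (-(((r : ℝ) ^ 96) ^ 2 * (Real.log n - Real.log m) ^ 2 / 4)) ≤
      kg ((r ^ 4 : ℕ) : ℝ) (n - m) := by
  have hr0 : (0 : ℝ) < r := by exact_mod_cast hr
  unfold kg
  apply Real.exp_le_exp.2
  have h := log_sep (X := (r : ℝ) ^ 100) (by positivity) hn hm hn2 hm2
  have h2 : (n - m) ^ 2 / (16 * (((r ^ 4 : ℕ) : ℝ)) ^ 2) =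
      ((r : ℝ) ^ 96) ^ 2 * ((n - m) ^ 2 / (4 * ((r : ℝ) ^ 100) ^ 2)) / 4 := by
    push_cast
    field_simp
    ring
  rw [h2]
  have : ((r : ℝ) ^ 96) ^ 2 * ((n - m) ^ 2 / (4 * ((r : ℝ) ^ 100) ^ 2)) ≤
      ((r : ℝ) ^ 96) ^ 2 * (Real.log n - Real.log m) ^ 2 := by gcongr
  linarith

end Pool.Agent.H491R3
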